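import Pool.Agent.Lib.MP_c258d4_co.Code

/-!
# Layouts given by numerical data
-/

set_option autoImplicit false

namespace Pool.Agent.Lib.MP_c258d4_co

open Pool.Agent.Lib.MP_266831_co Pool.Agent.Lib.MP_266831_co.Upper

/-- insert the bit `0` at place `i` -/
def ins (i r : ℕ) : ℕ := r / 2 ^ i * 2 ^ (i + 1) + r % 2 ^ i

/-- remove the bit at place `i` -/
def rmv (i v : ℕ) : ℕ := v / 2 ^ (i + 1) * 2 ^ i + v % 2 ^ i

/-- the number of `i < n` with `p i` -/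
def cntN (p : ℕ → Bool) : ℕ → ℕ
  | 0 => 0
  | n + 1 => (if p n then 1 else 0) + cntN p n

lemma cntN_eq (p : ℕ → Bool) (n : ℕ) : cntN p n = ∑ i ∈ Finset.range n, if p i then 1 else 0 := by
  induction n with
  | zero => rfl
  | succ n ih => rw [cntN, ih, Finset.sum_range_succ, Nat.add_comm]

/-- Numerical data for a layout of the hypercube of dimension `m + 1`. The edges are numbered
`i * 2 ^ m + r`, for `i < m + 1` and `r < 2 ^ m`; this one joins `ins i r` and `ins i r + 2 ^ i`. The edge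
`k` has the axis points `zz k 0, ..., zz k (len k + 1)`; its `j`-th piece has the code `32 * k + j`. -/
structure Dat where
  m : ℕ
  vp : ℕ → ℕ
  sg : ℕ → Bool
  len : ℕ → ℕ
  up : ℕ → Bool
  zz : ℕ → ℕ → ℕ
  own : ℕ → ℕ
  rk : ℕ → ℕ → ℕ
  inv : Bool → ℕ → ℕ
  cnt : Bool → ℕ
  C : Bool → ℕ

namespace Dat

variable (D : Dat)

def side (k i : ℕ) : Bool := xor (D.up k) i.bodd

def lo (k i : ℕ) : ℕ := min (D.zz k i) (D.zz k (i + 1))

def hi (k i : ℕ) : ℕ := max (D.zz k i) (D.zz k (i + 1))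

/-- left end of the piece with the code `c` -/
def cl (c : ℕ) : ℕ := D.lo (c / 32) (c % 32)

/-- right end of the piece with the code `c` -/
def ch (c : ℕ) : ℕ := D.hi (c / 32) (c % 32)

/-- the side on which the edge in direction `i` leaves the vertex `v` -/
def es (i v : ℕ) : Bool :=
  if v.testBit i then D.side (i * 2 ^ D.m + rmv i v) (D.len (i * 2 ^ D.m + rmv i v))
  else D.side (i * 2 ^ D.m + rmv i v) 0

/-- interleaving pieces -/
def itl (a b c d : ℕ) : Prop := a < c ∧ c < b ∧ b < d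

instance (a b c d : ℕ) : Decidable (itl a b c d) := inferInstanceAs (Decidable (_ ∧ _ ∧ _))

structure Ok (D : Dat) : Prop where
  big : (D.m + 1) * 2 ^ D.m * 32 ≤ 2 ^ 19
  code : ∀ i < D.m + 1, ∀ r < 2 ^ D.m,
    ins i r + 2 ^ i < 2 ^ (D.m + 1) ∧ ins i r ^^^ (ins i r + 2 ^ i) = 2 ^ i ∧
    rmv i (ins i r) = r ∧ rmv i (ins i r + 2 ^ i) = r ∧
    (ins i r).testBit i = false ∧ (ins i r + 2 ^ i).testBit i = true
  vert : ∀ v < 2 ^ (D.m + 1), ∀ i < D.m + 1, rmv i v < 2 ^ D.m ∧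
    v = ins i (rmv i v) + if v.testBit i then 2 ^ i else 0
  ends : ∀ i < D.m + 1, ∀ r < 2 ^ D.m,
    D.zz (i * 2 ^ D.m + r) 0 = D.vp (ins i r) ∧
    D.zz (i * 2 ^ D.m + r) (D.len (i * 2 ^ D.m + r) + 1) = D.vp (ins i r + 2 ^ i) ∧
    D.sg (ins i r + 2 ^ i) = xor (D.sg (ins i r)) (!(D.len (i * 2 ^ D.m + r)).bodd)
  own_v : ∀ v < 2 ^ (D.m + 1), D.own (D.vp v) = 2 ^ 19 + v
  bal : ∀ v < 2 ^ (D.m + 1), 2 * cntN (fun i => D.es i v) (D.m + 1) ≤ D.m + 2 ∧
    D.m ≤ 2 * cntN (fun i => D.es i v) (D.m + 1)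
  len_lt : ∀ k < (D.m + 1) * 2 ^ D.m, D.len k < 31
  own_z : ∀ k < (D.m + 1) * 2 ^ D.m, ∀ j < D.len k, D.own (D.zz k (j + 1)) = 32 * k + (j + 1)
  inv_rk : ∀ k < (D.m + 1) * 2 ^ D.m, ∀ j < D.len k + 1,
    D.inv (D.side k j) (D.rk k j) = 32 * k + j ∧ D.rk k j < D.cnt (D.side k j)
  self : ∀ k < (D.m + 1) * 2 ^ D.m, ∀ j < D.len k + 1, ∀ j' < D.len k + 1,
    D.side k j = D.side k j' → ¬ itl (D.lo k j) (D.hi k j) (D.lo k j') (D.hi k j')
  srt : ∀ d, ∀ j j', j ≤ j' → j' < D.cnt d → D.cl (D.inv d j) ≤ D.cl (D.inv d j')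
  cross : ∀ d, ∑ j' ∈ Finset.range (D.cnt d), ((Finset.range j').filter (fun j =>
    D.cl (D.inv d j') < D.ch (D.inv d j) ∧ D.ch (D.inv d j) < D.ch (D.inv d j'))).card ≤ D.C d

variable {D} (h : D.Ok)

include h

omit h in
lemma Ok.ix_lt {i r : ℕ} (hi : i < D.m + 1) (hr : r < 2 ^ D.m) :
    i * 2 ^ D.m + r < (D.m + 1) * 2 ^ D.m := by
  have : (i + 1) * 2 ^ D.m ≤ (D.m + 1) * 2 ^ D.m := Nat.mul_le_mul_right _ hi
  nlinarith

/-- the edges of the hypercube -/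
def Ok.ends' : Ends (Fin (2 ^ (D.m + 1))) (Fin (D.m + 1) × Fin (2 ^ D.m)) (hc (D.m + 1)) where
  a k := ⟨ins k.1 k.2, lt_of_le_of_lt (Nat.le_add_right _ _) (h.code k.1 k.1.2 k.2 k.2.2).1⟩
  b k := ⟨ins k.1 k.2 + 2 ^ k.1.val, (h.code k.1 k.1.2 k.2 k.2.2).1⟩
  adj k := ⟨k.1, k.1.2, (h.code k.1 k.1.2 k.2 k.2.2).2.1⟩
  surj u v huv := by
    obtain ⟨i, hi, hx⟩ := huv
    obtain ⟨h1, h2⟩ := h.vert u.val u.2 i hi
    refine ⟨(⟨i, hi⟩, ⟨rmv i u.val, h1⟩), ?_⟩
    obtain ⟨c1, c2, -⟩ := h.code i hi _ h1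
    have hv : v.val = u.val ^^^ 2 ^ i := by
      rw [← hx, ← Nat.xor_assoc, Nat.xor_self, Nat.zero_xor]
    rw [Sym2.eq_iff]
    by_cases hb : u.val.testBit i
    · rw [if_pos hb] at h2
      right
      refine ⟨Fin.ext ?_, Fin.ext ?_⟩
      · show u.val = ins i (rmv i u.val) + 2 ^ i
        exact h2
      · show v.val = ins i (rmv i u.val)
        rw [← h2] at c2
        rw [hv, ← c2, Nat.xor_comm (ins i (rmv i u.val)), ← Nat.xor_assoc, Nat.xor_self, Nat.zero_xor]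
    · rw [if_neg hb, add_zero] at h2
      left
      refine ⟨Fin.ext ?_, Fin.ext ?_⟩
      · show u.val = ins i (rmv i u.val)
        exact h2
      · show v.val = ins i (rmv i u.val) + 2 ^ i
        have c3 : ∀ q t s : ℕ, q ^^^ t = s → q ^^^ s = t := by
          intro q t s h
          rw [← h, ← Nat.xor_assoc, Nat.xor_self, Nat.zero_xor]
        rw [hv, ← c3 _ _ _ c2, ← h2]
  inj := by
    rintro ⟨i, r⟩ ⟨j, s⟩ hkl
    obtain ⟨c1, c2, c3, c4, -⟩ := h.code i i.2 r r.2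
    obtain ⟨d1, d2, d3, d4, -⟩ := h.code j j.2 s s.2
    rw [Sym2.eq_iff] at hkl
    simp only [Fin.mk.injEq] at hkl
    rcases hkl with ⟨e1, e2⟩ | ⟨e1, e2⟩
    · have hij : i.val = j.val := by
        rw [e2, e1] at c2
        rw [d2] at c2
        exact (Nat.pow_right_injective (le_refl 2) c2).symm
      have hij' : i = j := Fin.ext hij
      subst hij'
      have : r.val = s.val := by rw [← c3, ← d3, e1]
      rw [Fin.ext this]
    · have p1 : 0 < 2 ^ i.val := by positivity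
      have p2 : 0 < 2 ^ j.val := by positivity
      omega

omit h in
/-- the number of an edge -/
def ix (k : Fin (D.m + 1) × Fin (2 ^ D.m)) : ℕ := k.1 * 2 ^ D.m + k.2

omit h in
lemma Ok.ix_lt' (k : Fin (D.m + 1) × Fin (2 ^ D.m)) : ix k < (D.m + 1) * 2 ^ D.m :=
  Ok.ix_lt k.1.2 k.2.2

omit h in
lemma ix_inj {k l : Fin (D.m + 1) × Fin (2 ^ D.m)} (hkl : ix k = ix l) : k = l := by
  obtain ⟨i, r⟩ := k
  obtain ⟨j, s⟩ := l
  simp only [ix] at hkl
  have hr := r.2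
  have hs := s.2
  have hij : i.val = j.val := by
    rcases lt_trichotomy i.val j.val with h1 | h1 | h1
    · have : (i.val + 1) * 2 ^ D.m ≤ j.val * 2 ^ D.m := Nat.mul_le_mul_right _ h1
      nlinarith
    · exact h1
    · have : (j.val + 1) * 2 ^ D.m ≤ i.val * 2 ^ D.m := Nat.mul_le_mul_right _ h1
      nlinarith
  have hrs : r.val = s.val := by rw [hij] at hkl; omega
  rw [Fin.ext hij, Fin.ext hrs]

lemma Ok.vp_inj {u v : ℕ} (hu : u < 2 ^ (D.m + 1)) (hv : v < 2 ^ (D.m + 1))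
    (huv : D.vp u = D.vp v) : u = v := by
  have h1 := h.own_v u hu
  have h2 := h.own_v v hv
  rw [huv] at h1
  omega

lemma Ok.zz_inj {k l : ℕ} (hk : k < (D.m + 1) * 2 ^ D.m) (hl : l < (D.m + 1) * 2 ^ D.m) {i j : ℕ}
    (h1 : 1 ≤ i) (h2 : i ≤ D.len k) (h3 : 1 ≤ j) (h4 : j ≤ D.len l) (he : D.zz k i = D.zz l j) :
    k = l ∧ i = j := by
  have a := h.own_z k hk (i - 1) (by omega)
  have b := h.own_z l hl (j - 1) (by omega)
  have ei : i - 1 + 1 = i := by omega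
  have ej : j - 1 + 1 = j := by omega
  rw [ei] at a
  rw [ej] at b
  rw [he, b] at a
  have c := h.len_lt k hk
  have d := h.len_lt l hl
  omega

lemma Ok.zz_ne_vp {k v : ℕ} (hk : k < (D.m + 1) * 2 ^ D.m) (hv : v < 2 ^ (D.m + 1)) {i : ℕ}
    (h1 : 1 ≤ i) (h2 : i ≤ D.len k) : D.zz k i ≠ D.vp v := by
  intro he
  have a := h.own_z k hk (i - 1) (by omega)
  have ei : i - 1 + 1 = i := by omega
  rw [ei, he, h.own_v v hv] at a
  have c := h.len_lt k hk
  have d := h.big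
  have e : 32 * k + 32 ≤ (D.m + 1) * 2 ^ D.m * 32 := by omega
  omega

omit h in
lemma inter_iff (k i l j : ℕ) :
    Inter (D.zz k i : ℝ) (D.zz k (i + 1)) (D.zz l j) (D.zz l (j + 1)) ↔
      itl (D.lo k i) (D.hi k i) (D.lo l j) (D.hi l j) ∨
      itl (D.lo l j) (D.hi l j) (D.lo k i) (D.hi k i) := by
  unfold Pool.Agent.Lib.MP_266831_co.Inter itl lo hi
  norm_cast

omit h in
/-- the path of an edge -/
noncomputable def path (D : Dat) (k : ℕ) : AxisPath := ⟨D.len k, fun j => (D.zz k j : ℝ), D.up k⟩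

/-- the layout -/
noncomputable def Ok.lay : SLay h.ends' where
  pos v := (D.vp v.val : ℝ)
  pos_inj u v huv := Fin.ext (h.vp_inj u.2 v.2 (by
    have h' : ((D.vp u.val : ℕ) : ℝ) = ((D.vp v.val : ℕ) : ℝ) := huv
    exact_mod_cast h'))
  A k := D.path (ix k)
  z_zero k := by
    show ((D.zz (ix k) 0 : ℕ) : ℝ) = ((D.vp (ins k.1 k.2) : ℕ) : ℝ)
    rw [ix, (h.ends k.1 k.1.2 k.2 k.2.2).1]
  z_last k := by
    show ((D.zz (ix k) (D.len (ix k) + 1) : ℕ) : ℝ) = ((D.vp (ins k.1 k.2 + 2 ^ k.1.val) : ℕ) : ℝ)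
    rw [ix, (h.ends k.1 k.1.2 k.2 k.2.2).2.1]
  good k := by
    have hk := Ok.ix_lt' k
    obtain ⟨e1, e2, -⟩ := h.ends k.1 k.1.2 k.2 k.2.2
    obtain ⟨c1, -⟩ := h.code k.1 k.1.2 k.2 k.2.2
    refine ⟨?_, ?_⟩
    · intro i hi j hj hij
      have hi' : i ≤ D.len (ix k) + 1 := hi
      have hj' : j ≤ D.len (ix k) + 1 := hj
      have hij' : D.zz (ix k) i = D.zz (ix k) j := by
        have : ((D.zz (ix k) i : ℕ) : ℝ) = ((D.zz (ix k) j : ℕ) : ℝ) := hij
        exact_mod_cast this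
      have hc : ∀ i, i ≤ D.len (ix k) + 1 → (1 ≤ i ∧ i ≤ D.len (ix k)) ∨
          (i = 0 ∧ D.zz (ix k) i = D.vp (ins k.1 k.2)) ∨
          (i = D.len (ix k) + 1 ∧ D.zz (ix k) i = D.vp (ins k.1 k.2 + 2 ^ k.1.val)) := by
        intro i hi
        have : i = 0 ∨ i = D.len (ix k) + 1 ∨ (1 ≤ i ∧ i ≤ D.len (ix k)) := by omega
        rcases this with h0 | h0 | h0
        · right; left; exact ⟨h0, by rw [h0]; exact e1⟩
        · right; right; exact ⟨h0, by rw [h0]; exact e2⟩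
        · left; exact h0
      have p : 0 < 2 ^ k.1.val := by positivity
      have c0 : ins k.1 k.2 < 2 ^ (D.m + 1) := by omega
      rcases hc i hi' with ⟨a1, a2⟩ | ⟨a1, a2⟩ | ⟨a1, a2⟩ <;>
        rcases hc j hj' with ⟨b1, b2⟩ | ⟨b1, b2⟩ | ⟨b1, b2⟩
      · exact (h.zz_inj hk hk a1 a2 b1 b2 hij').2
      · exact absurd (hij'.trans b2) (h.zz_ne_vp hk c0 a1 a2)
      · exact absurd (hij'.trans b2) (h.zz_ne_vp hk c1 a1 a2)
      · exact absurd (hij'.symm.trans a2) (h.zz_ne_vp hk c0 b1 b2)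
      · omega
      · have := h.vp_inj c0 c1 (a2.symm.trans (hij'.trans b2))
        omega
      · exact absurd (hij'.symm.trans a2) (h.zz_ne_vp hk c1 b1 b2)
      · have := h.vp_inj c1 c0 (a2.symm.trans (hij'.trans b2))
        omega
      · omega
    · intro i hi j hj hs hI
      have hI' := (inter_iff (D := D) (ix k) i (ix k) j).1 hI
      have hi' : i < D.len (ix k) + 1 := Nat.lt_succ_of_le hi
      have hj' : j < D.len (ix k) + 1 := Nat.lt_succ_of_le hj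
      rcases hI' with h1 | h1
      · exact h.self _ hk i hi' j hj' hs h1
      · exact h.self _ hk j hj' i hi' hs.symm h1
  z_ne k i h1 h2 v := by
    intro he
    have : ((D.zz (ix k) i : ℕ) : ℝ) = ((D.vp v.val : ℕ) : ℝ) := he
    exact h.zz_ne_vp (Ok.ix_lt' k) v.2 h1 h2 (by exact_mod_cast this)
  z_ne_z k l hkl i h1 h2 j h3 h4 := by
    intro he
    have : ((D.zz (ix k) i : ℕ) : ℝ) = ((D.zz (ix l) j : ℕ) : ℝ) := he
    exact hkl (ix_inj (h.zz_inj (Ok.ix_lt' k) (Ok.ix_lt' l) h1 h2 h3 h4 (by exact_mod_cast this)).1)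
  σ v := D.sg v.val
  par k := by
    have h3 := (h.ends k.1 k.1.2 k.2 k.2.2).2.2
    show sr (D.sg (ins k.1 k.2 + 2 ^ k.1.val)) = (-1) ^ (D.len (ix k) + 1) * sr (D.sg (ins k.1 k.2))
    have e : (-1 : ℝ) ^ (D.len (ix k) + 1) = if (D.len (ix k)).bodd then 1 else -1 := by
      rcases Nat.even_or_odd' (D.len (ix k)) with ⟨c, hc | hc⟩
      · rw [hc]
        have : (2 * c).bodd = false := by simp
        rw [this, pow_succ, pow_mul]
        norm_num
      · rw [hc]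
        have : (2 * c + 1).bodd = true := by simp
        rw [this]
        have : 2 * c + 1 + 1 = 2 * (c + 1) := by ring
        rw [this, pow_mul]
        norm_num
    rw [h3, e]
    show sr (xor _ (!(D.len (ix k)).bodd)) = _
    cases (D.len (ix k)).bodd
    · simp only [Bool.not_false, Bool.xor_true, Bool.false_eq_true, if_false]
      rw [sr_not]; ring
    · simp

end Dat

end Pool.Agent.Lib.MP_c258d4_co
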