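import Pool.Agent.Lib.MP_c258d4_co.Base

/-!
# Layouts given by numerical data: degrees and crossings
-/

set_option autoImplicit false

namespace Pool.Agent.Lib.MP_c258d4_co

open Pool.Agent.Lib.MP_266831_co Pool.Agent.Lib.MP_266831_co.Upper

namespace Dat

variable {D : Dat} (h : D.Ok)

include h

lemma Ok.hs_iff (k : Fin (D.m + 1) × Fin (2 ^ D.m)) (e : Bool) (v : Fin (2 ^ (D.m + 1))) (d : Bool) :
    h.lay.hs k e = (v, d) ↔
      (k.2.val = rmv k.1 v.val ∧ e = v.val.testBit k.1 ∧ D.es k.1 v.val = d) := by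
  obtain ⟨i, r⟩ := k
  obtain ⟨c1, c2, c3, c4, c5, c6⟩ := h.code i i.2 r r.2
  obtain ⟨v1, v2⟩ := h.vert v.val v.2 i i.2
  cases e
  · have : h.lay.hs (i, r) false = ((h.ends').a (i, r), D.side (i.val * 2 ^ D.m + r.val) 0) := rfl
    rw [this, Prod.mk.injEq]
    constructor
    · rintro ⟨h1, h2⟩
      have h1' : ins i r = v.val := congrArg Fin.val h1
      simp only
      rw [← h1', c3, c5]
      refine ⟨rfl, rfl, ?_⟩
      unfold es
      rw [c5, c3]
      simpa using h2
    · rintro ⟨h1, h2, h3⟩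
      simp only at h1 h2 h3
      refine ⟨Fin.ext ?_, ?_⟩
      · show ins i r = v.val
        rw [← h2, ← h1] at v2
        simpa using v2.symm
      · unfold es at h3
        rw [← h2, ← h1] at h3
        simpa using h3
  · have : h.lay.hs (i, r) true = ((h.ends').b (i, r), D.side (i.val * 2 ^ D.m + r.val)
      (D.len (i.val * 2 ^ D.m + r.val))) := rfl
    rw [this, Prod.mk.injEq]
    constructor
    · rintro ⟨h1, h2⟩
      have h1' : ins i r + 2 ^ i.val = v.val := congrArg Fin.val h1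
      simp only
      rw [← h1', c4, c6]
      refine ⟨rfl, rfl, ?_⟩
      unfold es
      rw [c6, c4]
      simpa using h2
    · rintro ⟨h1, h2, h3⟩
      simp only at h1 h2 h3
      refine ⟨Fin.ext ?_, ?_⟩
      · show ins i r + 2 ^ i.val = v.val
        rw [← h2, ← h1] at v2
        simpa using v2.symm
      · unfold es at h3
        rw [← h2, ← h1] at h3
        simpa using h3

open Classical in
lemma Ok.dg_eq (v : Fin (2 ^ (D.m + 1))) (d : Bool) :
    h.lay.dg v d = ∑ i : Fin (D.m + 1), if D.es i v.val = d then 1 else 0 := by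
  unfold SLay.dg
  rw [Fintype.sum_prod_type]
  refine Finset.sum_congr rfl fun i _ => ?_
  have hr : rmv i v.val < 2 ^ D.m := (h.vert v.val v.2 i i.2).1
  refine (Finset.sum_congr rfl fun r _ => Finset.sum_congr rfl fun e _ =>
    (?_ : _ = if r = ⟨rmv i v.val, hr⟩ then (if e = v.val.testBit i then
        (if D.es i v.val = d then 1 else 0) else 0) else 0)).trans ?_
  · have := h.hs_iff (i, r) e v d
    by_cases hh : h.lay.hs (i, r) e = (v, d)
    · rw [if_pos hh]
      obtain ⟨a, b, c⟩ := this.1 hh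
      rw [if_pos (Fin.ext a), if_pos b, if_pos c]
    · rw [if_neg hh]
      by_cases a : r = ⟨rmv i v.val, hr⟩
      · by_cases b : e = v.val.testBit i
        · by_cases c : D.es i v.val = d
          · exact absurd (this.2 ⟨congrArg Fin.val a, b, c⟩) hh
          · rw [if_pos a, if_pos b, if_neg c]
        · rw [if_pos a, if_neg b]
      · rw [if_neg a]
  · rw [Finset.sum_comm]
    simp only [Finset.sum_ite_eq', Finset.mem_univ, if_true]

lemma Ok.bal' : h.lay.Bal (D.m + 1) := by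
  classical
  intro v
  have h1 := h.dg_eq v true
  have h2 : cntN (fun i => D.es i v.val) (D.m + 1) = h.lay.dg v true := by
    rw [h1, cntN_eq, Finset.sum_range]
  have h3 : h.lay.dg v true + h.lay.dg v false = D.m + 1 := by
    rw [h.dg_eq, h.dg_eq, ← Finset.sum_add_distrib]
    have : ∀ i : Fin (D.m + 1), ((if D.es i v.val = true then 1 else 0) +
        (if D.es i v.val = false then 1 else 0)) = 1 := by
      intro i
      cases D.es i v.val <;> simp
    simp [this]
  obtain ⟨b1, b2⟩ := h.bal v.val v.2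
  rw [h2] at b1 b2
  refine ⟨h3, ?_⟩
  intro d
  cases d <;> omega

omit h in
lemma cl_code {k i : ℕ} (hi : i < 32) : D.cl (32 * k + i) = D.lo k i := by
  have h1 : (32 * k + i) / 32 = k := by omega
  have h2 : (32 * k + i) % 32 = i := by omega
  rw [cl, h1, h2]

omit h in
lemma ch_code {k i : ℕ} (hi : i < 32) : D.ch (32 * k + i) = D.hi k i := by
  have h1 : (32 * k + i) / 32 = k := by omega
  have h2 : (32 * k + i) % 32 = i := by omega
  rw [ch, h1, h2]

/-- the interleaving pairs of pieces of two edges, the first one starting first -/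
def F (D : Dat) (x y : Fin (D.m + 1) × Fin (2 ^ D.m)) : Finset (ℕ × ℕ) :=
  ((Finset.range (D.len (ix x) + 1)) ×ˢ (Finset.range (D.len (ix y) + 1))).filter
    (fun p => D.side (ix x) p.1 = D.side (ix y) p.2 ∧
      itl (D.lo (ix x) p.1) (D.hi (ix x) p.1) (D.lo (ix y) p.2) (D.hi (ix y) p.2))

omit h in
lemma mem_F {x y : Fin (D.m + 1) × Fin (2 ^ D.m)} {p : ℕ × ℕ} : p ∈ F D x y ↔
    (p.1 < D.len (ix x) + 1 ∧ p.2 < D.len (ix y) + 1) ∧ D.side (ix x) p.1 = D.side (ix y) p.2 ∧
      itl (D.lo (ix x) p.1) (D.hi (ix x) p.1) (D.lo (ix y) p.2) (D.hi (ix y) p.2) := by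
  rw [F, Finset.mem_filter, Finset.mem_product, Finset.mem_range, Finset.mem_range]

lemma Ok.X_le (x y : Fin (D.m + 1) × Fin (2 ^ D.m)) :
    (h.lay.A x).X (h.lay.A y) ≤ (F D x y).card + (F D y x).card := by
  classical
  have hsub : (h.lay.A x).pairs (h.lay.A y) ⊆ F D x y ∪ (F D y x).image Prod.swap := by
    rintro ⟨i, j⟩ hp
    rw [AxisPath.pairs, Finset.mem_filter, Finset.mem_product, Finset.mem_range,
      Finset.mem_range] at hp
    obtain ⟨⟨h1, h2⟩, h3, h4⟩ := hp
    have h4' := (inter_iff (D := D) (ix x) i (ix y) j).1 h4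
    rw [Finset.mem_union, Finset.mem_image]
    rcases h4' with h5 | h5
    · left
      rw [mem_F]
      exact ⟨⟨h1, h2⟩, h3, h5⟩
    · right
      refine ⟨(j, i), ?_, rfl⟩
      rw [mem_F]
      exact ⟨⟨h2, h1⟩, h3.symm, h5⟩
  calc (h.lay.A x).X (h.lay.A y) ≤ (F D x y ∪ (F D y x).image Prod.swap).card :=
        Finset.card_le_card hsub
    _ ≤ (F D x y).card + ((F D y x).image Prod.swap).card := Finset.card_union_le _ _
    _ ≤ _ := Nat.add_le_add_left Finset.card_image_le _

/-- The number of crossings, counted by the sorted lists of pieces. -/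
lemma Ok.sum_F : ∑ x : Fin (D.m + 1) × Fin (2 ^ D.m), ∑ y : Fin (D.m + 1) × Fin (2 ^ D.m),
    (F D x y).card ≤ D.C true + D.C false := by
  classical
  set κ := Fin (D.m + 1) × Fin (2 ^ D.m) with hκ
  let S : Finset (Σ _ : κ × κ, ℕ × ℕ) := Finset.univ.sigma (fun xy => F D xy.1 xy.2)
  let Rd : Bool → Finset (Σ _ : ℕ, ℕ) := fun d => (Finset.range (D.cnt d)).sigma (fun j' =>
    (Finset.range j').filter (fun j =>
    D.cl (D.inv d j') < D.ch (D.inv d j) ∧ D.ch (D.inv d j) < D.ch (D.inv d j')))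
  let R : Finset (Σ _ : Bool, Σ _ : ℕ, ℕ) := Finset.univ.sigma Rd
  have hS : S.card = ∑ x : κ, ∑ y : κ, (F D x y).card := by
    rw [Finset.card_sigma, Fintype.sum_prod_type]
  have hR : R.card ≤ D.C true + D.C false := by
    rw [Finset.card_sigma, Fintype.sum_bool]
    have : ∀ d, (Rd d).card ≤ D.C d := by
      intro d
      rw [Finset.card_sigma]
      exact h.cross d
    exact Nat.add_le_add (this true) (this false)
  rw [← hS]
  refine le_trans ?_ hR
  let f : (Σ _ : κ × κ, ℕ × ℕ) → (Σ _ : Bool, Σ _ : ℕ, ℕ) := fun s =>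
    ⟨D.side (ix s.1.1) s.2.1, ⟨D.rk (ix s.1.2) s.2.2, D.rk (ix s.1.1) s.2.1⟩⟩
  have hlen : ∀ x : κ, D.len (ix x) < 31 := fun x => h.len_lt _ (Ok.ix_lt' x)
  refine Finset.card_le_card_of_injOn f ?_ ?_
  · rintro ⟨⟨x, y⟩, ⟨i, j⟩⟩ hs
    rw [Finset.mem_coe, Finset.mem_sigma] at hs
    have hs2 := hs.2
    rw [mem_F] at hs2
    obtain ⟨⟨h1, h2⟩, h3, h4⟩ := hs2
    simp only at h1 h2 h3 h4
    obtain ⟨a1, a2⟩ := h.inv_rk _ (Ok.ix_lt' x) i h1
    obtain ⟨b1, b2⟩ := h.inv_rk _ (Ok.ix_lt' y) j h2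
    rw [← h3] at b1 b2
    have hx := hlen x
    have hy := hlen y
    have ca : D.cl (D.inv (D.side (ix x) i) (D.rk (ix x) i)) = D.lo (ix x) i := by
      rw [a1, cl_code (by omega)]
    have cb : D.cl (D.inv (D.side (ix x) i) (D.rk (ix y) j)) = D.lo (ix y) j := by
      rw [b1, cl_code (by omega)]
    have da : D.ch (D.inv (D.side (ix x) i) (D.rk (ix x) i)) = D.hi (ix x) i := by
      rw [a1, ch_code (by omega)]
    have db : D.ch (D.inv (D.side (ix x) i) (D.rk (ix y) j)) = D.hi (ix y) j := by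
      rw [b1, ch_code (by omega)]
    obtain ⟨l1, l2, l3⟩ := h4
    have hlt : D.rk (ix x) i < D.rk (ix y) j := by
      by_contra hcon
      have := h.srt (D.side (ix x) i) _ _ (not_lt.1 hcon) a2
      rw [ca, cb] at this
      omega
    rw [Finset.mem_coe, Finset.mem_sigma]
    refine ⟨Finset.mem_univ _, ?_⟩
    rw [Finset.mem_sigma]
    refine ⟨Finset.mem_range.2 b2, ?_⟩
    rw [Finset.mem_filter, Finset.mem_range]
    refine ⟨hlt, ?_⟩
    show D.cl (D.inv (D.side (ix x) i) (D.rk (ix y) j)) < D.ch (D.inv (D.side (ix x) i) (D.rk (ix x) i)) ∧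
      D.ch (D.inv (D.side (ix x) i) (D.rk (ix x) i)) < D.ch (D.inv (D.side (ix x) i) (D.rk (ix y) j))
    rw [cb, da, db]
    exact ⟨l2, l3⟩
  · rintro ⟨⟨x, y⟩, ⟨i, j⟩⟩ hs ⟨⟨x', y'⟩, ⟨i', j'⟩⟩ hs' hf
    rw [Finset.mem_coe, Finset.mem_sigma] at hs hs'
    have hs2 := hs.2
    have hs2' := hs'.2
    rw [mem_F] at hs2 hs2'
    obtain ⟨⟨h1, h2⟩, h3, -⟩ := hs2
    obtain ⟨⟨h1', h2'⟩, h3', -⟩ := hs2'
    simp only at h1 h2 h3 h1' h2' h3'
    have e1 : D.side (ix x) i = D.side (ix x') i' := congrArg Sigma.fst hf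
    have e23 : (⟨D.rk (ix y) j, D.rk (ix x) i⟩ : Σ _ : ℕ, ℕ) = ⟨D.rk (ix y') j', D.rk (ix x') i'⟩ := by
      have := hf
      simp only [f, Sigma.mk.injEq] at this
      exact eq_of_heq this.2
    have e2 : D.rk (ix y) j = D.rk (ix y') j' := congrArg Sigma.fst e23
    have e3 : D.rk (ix x) i = D.rk (ix x') i' := by
      simp only [Sigma.mk.injEq] at e23
      exact eq_of_heq e23.2
    obtain ⟨a1, -⟩ := h.inv_rk _ (Ok.ix_lt' x) i h1
    obtain ⟨b1, -⟩ := h.inv_rk _ (Ok.ix_lt' y) j h2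
    obtain ⟨a1', -⟩ := h.inv_rk _ (Ok.ix_lt' x') i' h1'
    obtain ⟨b1', -⟩ := h.inv_rk _ (Ok.ix_lt' y') j' h2'
    have hx := hlen x
    have hy := hlen y
    have hx' := hlen x'
    have hy' := hlen y'
    have A : 32 * ix x + i = 32 * ix x' + i' := by rw [← a1, ← a1', e1, e3]
    have B : 32 * ix y + j = 32 * ix y' + j' := by
      rw [← b1, ← b1', ← h3, ← h3', e1, e2]
    have hxx : x = x' := ix_inj (by omega)
    have hyy : y = y' := ix_inj (by omega)
    have hii : i = i' := by omega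
    have hjj : j = j' := by omega
    rw [hxx, hyy, hii, hjj]

lemma Ok.ordSum_le : ordSum (fun x y => (h.lay.A x).X (h.lay.A y)) ≤ 2 * (D.C true + D.C false) := by
  classical
  have h1 := h.sum_F
  calc ordSum (fun x y => (h.lay.A x).X (h.lay.A y))
      ≤ ∑ x, ∑ y, (h.lay.A x).X (h.lay.A y) := by
        rw [ordSum]
        refine Finset.sum_le_sum fun x _ => Finset.sum_le_sum fun y _ => ?_
        split_ifs
        · exact Nat.zero_le _
        · exact le_rfl
    _ ≤ ∑ x, ∑ y, ((F D x y).card + (F D y x).card) :=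
        Finset.sum_le_sum fun x _ => Finset.sum_le_sum fun y _ => h.X_le x y
    _ = (∑ x, ∑ y, (F D x y).card) + ∑ x, ∑ y, (F D y x).card := by
        simp only [Finset.sum_add_distrib]
    _ = 2 * ∑ x, ∑ y, (F D x y).card := by
        rw [Finset.sum_comm (f := fun x y => (F D y x).card), two_mul]
    _ ≤ _ := Nat.mul_le_mul_left _ h1

/-- **Numerical data give a layout.** -/
theorem Ok.hasLay : HasLay (hc (D.m + 1)) (D.m + 1) (D.C true + D.C false) :=
  ⟨_, inferInstance, h.ends', h.lay, h.bal', h.ordSum_le⟩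

end Dat

/-! ### The sweep -/

/-- The digit sum: the elements of a family in an open interval, counted by one division. -/
lemma digit_count {B b a J : ℕ} (hB : J + 1 < B) (f : ℕ → ℕ) :
    ((∑ j ∈ Finset.range J, B ^ f j) % B ^ b / B ^ (a + 1)) % (B - 1) =
      ((Finset.range J).filter (fun j => a < f j ∧ f j < b)).card := by
  classical
  have hB0 : 0 < B := by omega
  have hB1 : 1 < B := by omega
  -- sums over subsets with bounded exponents
  have hsmall : ∀ (s : Finset ℕ) (t : ℕ), s ⊆ Finset.range J → (∀ j ∈ s, f j < t) →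
      ∑ j ∈ s, B ^ f j < B ^ t := by
    intro s t hs ht
    rcases s.eq_empty_or_nonempty with h0 | ⟨j0, hj0⟩
    · rw [h0, Finset.sum_empty]; positivity
    · have ht0 : 0 < t := lt_of_le_of_lt (Nat.zero_le _) (ht j0 hj0)
      obtain ⟨t', rfl⟩ : ∃ t', t = t' + 1 := ⟨t - 1, by omega⟩
      calc ∑ j ∈ s, B ^ f j ≤ ∑ j ∈ s, B ^ t' :=
            Finset.sum_le_sum fun j hj => Nat.pow_le_pow_right hB0 (Nat.lt_succ_iff.1 (ht j hj))
        _ = s.card * B ^ t' := by simp
        _ ≤ J * B ^ t' := Nat.mul_le_mul_right _ (by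
            have := Finset.card_le_card hs
            rwa [Finset.card_range] at this)
        _ < B * B ^ t' := Nat.mul_lt_mul_of_pos_right (by omega) (by positivity)
        _ = B ^ (t' + 1) := by rw [pow_succ, Nat.mul_comm]
  set s := Finset.range J with hs
  -- cut at `b`
  have cut : ∀ (s : Finset ℕ) (t : ℕ), ∃ q, ∑ j ∈ s, B ^ f j =
      ∑ j ∈ s.filter (fun j => f j < t), B ^ f j + B ^ t * q ∧
      q = ∑ j ∈ s.filter (fun j => ¬ f j < t), B ^ (f j - t) := by
    intro s t
    refine ⟨_, ?_, rfl⟩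
    rw [← Finset.sum_filter_add_sum_filter_not s (fun j => f j < t), Finset.mul_sum]
    congr 1
    refine Finset.sum_congr rfl fun j hj => ?_
    rw [Finset.mem_filter] at hj
    rw [← pow_add]
    congr 1
    omega
  obtain ⟨q, hq, -⟩ := cut s b
  have hlt1 := hsmall (s.filter (fun j => f j < b)) b (Finset.filter_subset _ _)
    (fun j hj => (Finset.mem_filter.1 hj).2)
  have e1 : (∑ j ∈ s, B ^ f j) % B ^ b = ∑ j ∈ s.filter (fun j => f j < b), B ^ f j := by
    rw [hq, Nat.add_mul_mod_self_left, Nat.mod_eq_of_lt hlt1]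
  obtain ⟨q', hq', hq''⟩ := cut (s.filter (fun j => f j < b)) (a + 1)
  have hlt2 := hsmall ((s.filter (fun j => f j < b)).filter (fun j => f j < a + 1)) (a + 1)
    ((Finset.filter_subset _ _).trans (Finset.filter_subset _ _))
    (fun j hj => (Finset.mem_filter.1 hj).2)
  have e2 : (∑ j ∈ s.filter (fun j => f j < b), B ^ f j) / B ^ (a + 1) = q' := by
    rw [hq', Nat.add_mul_div_left _ _ (by positivity), Nat.div_eq_of_lt hlt2, zero_add]
  rw [e1, e2, hq'']
  have e3 : (s.filter (fun j => f j < b)).filter (fun j => ¬ f j < a + 1) =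
      s.filter (fun j => a < f j ∧ f j < b) := by
    ext j
    simp only [Finset.mem_filter]
    constructor
    · rintro ⟨⟨h1, h2⟩, h3⟩
      exact ⟨h1, by omega, h2⟩
    · rintro ⟨h1, h2, h3⟩
      exact ⟨⟨h1, h3⟩, by omega⟩
  rw [e3]
  have e4 : ∀ t : Finset ℕ, ∀ g : ℕ → ℕ, (∑ j ∈ t, B ^ g j) % (B - 1) = t.card % (B - 1) := by
    intro t g
    rw [Finset.sum_nat_mod]
    have : ∀ n : ℕ, B ^ n % (B - 1) = 1 % (B - 1) := by
      intro n
      have h1 : B ≡ 1 [MOD (B - 1)] := by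
        have : B = (B - 1) + 1 := by omega
        conv_lhs => rw [this]
        exact Nat.add_modEq_left
      have h2 := h1.pow n
      rw [one_pow] at h2
      exact h2
    simp only [this]
    rw [← Finset.sum_nat_mod]
    simp
  rw [e4, Nat.mod_eq_of_lt]
  have : (s.filter (fun j => a < f j ∧ f j < b)).card ≤ J := by
    refine (Finset.card_filter_le _ _).trans ?_
    rw [hs, Finset.card_range]
  omega

end Pool.Agent.Lib.MP_c258d4_co
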