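import Pool.Agent.Lib.MP_c258d4_co.Data9

/-!
# A layout of the 9-dimensional hypercube with 35200 crossings
-/

set_option autoImplicit false

namespace Pool.Agent.Lib.MP_c258d4_co.Q9

theorem c1 : allN (fun i => allN (fun r => D.chkEdge i r) (2 ^ D.m)) (D.m + 1) = true := by
  decide +kernel

theorem c2 : allN (fun k => D.chkEdge' k) ((D.m + 1) * 2 ^ D.m) = true := by
  decide +kernel

theorem c3 : allN (fun v => D.chkVert v) (2 ^ (D.m + 1)) = true := by
  decide +kernel

theorem c4 : ∀ d, D.cnt d < 2 ^ 12 := by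
  decide +kernel

theorem c5 : D.sweep 12 true (D.cnt true) 0 0 0 0 = true := by
  decide +kernel

theorem c6 : D.sweep 12 false (D.cnt false) 0 0 0 0 = true := by
  decide +kernel

theorem hasLay : HasLay (hypercube 9) 9 35200 := by
  have h : D.Ok := Dat.ok_of (w := 12) (by decide +kernel) c1 c2 c3 c4
    (fun d => by cases d; exacts [c6, c5])
  exact h.hasLay.of_hc

end Pool.Agent.Lib.MP_c258d4_co.Q9
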