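import Pool.Agent.Lib.MP_c258d4_co.Base7
import Pool.Agent.Lib.MP_c258d4_co.Base9

/-!
# The upper bound
-/

set_option autoImplicit false

namespace Pool.Agent.Lib.MP_c258d4_co

open Pool.Agent.Lib.MP_266831_co Filter Topology

theorem crTop_seven : crTop (hypercube 7) ≤ 1736 := by
  rw [← cr_eq_crTop]
  exact Q7.hasLay.cr_le

theorem crTop_eight : crTop (hypercube 8) ≤ 8096 := by
  rw [← cr_eq_crTop]
  exact Q7.hasLay.cube.cr_le

/-- the layouts from dimension 9 on -/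
theorem exists_hasLay (n : ℕ) (hn : 9 ≤ n) : ∃ c : ℕ, HasLay (hypercube n) n c ∧
    6144 * c + 128 * (6 * n ^ 2 + 8 + 2 * (n % 2)) * 2 ^ n = 949 * 4 ^ n := by
  induction n, hn using Nat.le_induction with
  | base => exact ⟨35200, Q9.hasLay, by norm_num⟩
  | succ n hn ih =>
    obtain ⟨c, h1, h2⟩ := ih
    refine ⟨_, h1.cube, ?_⟩
    have key : 2 * (6 * n ^ 2 + 8 + 2 * (n % 2)) =
        (6 * (n + 1) ^ 2 + 8 + 2 * ((n + 1) % 2)) + 24 * ((n - 1) ^ 2 / 4) := by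
      rcases Nat.even_or_odd' n with ⟨m, hm | hm⟩
      · obtain ⟨c, rfl⟩ : ∃ c, m = c + 1 := ⟨m - 1, by omega⟩
        have e1 : n - 1 = 2 * c + 1 := by omega
        have e2 : (n - 1) ^ 2 / 4 = c ^ 2 + c := by
          rw [e1]
          have : (2 * c + 1) ^ 2 = 4 * (c ^ 2 + c) + 1 := by ring
          omega
        have e3 : n % 2 = 0 := by omega
        have e4 : (n + 1) % 2 = 1 := by omega
        rw [e2, e3, e4, hm]
        ring
      · have e1 : n - 1 = 2 * m := by omega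
        have e2 : (n - 1) ^ 2 / 4 = m ^ 2 := by
          rw [e1]
          have : (2 * m) ^ 2 = 4 * m ^ 2 := by ring
          omega
        have e3 : n % 2 = 1 := by omega
        have e4 : (n + 1) % 2 = 0 := by omega
        rw [e2, e3, e4, hm]
        ring
    generalize (n - 1) ^ 2 / 4 = g at *
    generalize 6 * n ^ 2 + 8 + 2 * (n % 2) = q at *
    generalize 6 * (n + 1) ^ 2 + 8 + 2 * ((n + 1) % 2) = q' at *
    rw [pow_succ 2 n, pow_succ 4 n]
    calc 6144 * (4 * c + 2 ^ n * g) + 128 * q' * (2 ^ n * 2)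
        = 4 * (6144 * c) + 256 * 2 ^ n * (q' + 24 * g) := by ring
      _ = 4 * (6144 * c + 128 * q * 2 ^ n) := by rw [← key]; ring
      _ = 949 * (4 ^ n * 4) := by rw [h2]; ring

/-- **The upper bound.** -/
theorem exists_bound (n : ℕ) (hn : 9 ≤ n) : ∃ c : ℕ, crTop (hypercube n) ≤ c ∧
    (c : ℝ) = 949 / 6144 * 4 ^ n - (6 * n ^ 2 + 9 - (-1) ^ n) / 48 * 2 ^ n := by
  obtain ⟨c, h1, h2⟩ := exists_hasLay n hn
  refine ⟨c, ?_, ?_⟩
  · rw [← cr_eq_crTop]
    exact h1.cr_le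
  · have h3 : (6144 * c + 128 * (6 * n ^ 2 + 8 + 2 * ((n % 2 : ℕ) : ℝ)) * 2 ^ n : ℝ) = 949 * 4 ^ n := by
      exact_mod_cast h2
    have h4 : 2 * ((n % 2 : ℕ) : ℝ) = 1 - (-1) ^ n := by
      rcases Nat.even_or_odd n with h | h
      · rw [Nat.even_iff.1 h, h.neg_one_pow]; norm_num
      · rw [Nat.odd_iff.1 h, h.neg_one_pow]; norm_num
    rw [h4] at h3
    linarith

/-- The limit is at most `949 / 6144`. -/
theorem exists_limit_le : ∃ L : ℝ,
    Tendsto (fun n : ℕ => ((crTop (hypercube n)).toNat : ℝ) / 4 ^ n) atTop (𝓝 L) ∧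
    L ≤ 949 / 6144 := by
  obtain ⟨hfin, L, hL, -⟩ := exists_limit
  refine ⟨L, hL, le_of_tendsto hL ?_⟩
  filter_upwards [eventually_ge_atTop 9] with n hn
  obtain ⟨c, h1, h2⟩ := exists_bound n hn
  rw [div_le_iff₀ (by positivity)]
  have h3 : (crTop (hypercube n)).toNat ≤ c := by
    have := ENat.toNat_le_toNat h1 (ENat.natCast_ne_top c)
    simpa using this
  have h4 : ((crTop (hypercube n)).toNat : ℝ) ≤ c := by exact_mod_cast h3
  have h5 : (0 : ℝ) ≤ (6 * n ^ 2 + 9 - (-1) ^ n) / 48 * 2 ^ n := by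
    have : (-1 : ℝ) ^ n ≤ 1 := by
      rcases Nat.even_or_odd n with h | h
      · rw [h.neg_one_pow]
      · rw [h.neg_one_pow]; norm_num
    have : (0 : ℝ) ≤ 6 * n ^ 2 + 9 - (-1) ^ n := by nlinarith [sq_nonneg (n : ℝ)]
    positivity
  linarith

end Pool.Agent.Lib.MP_c258d4_co
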