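import Pool.Agent.Lib.MP_c258d4_co.Base2

/-!
# Boolean checks of numerical data
-/

set_option autoImplicit false

namespace Pool.Agent.Lib.MP_c258d4_co

/-- bounded universal quantifier -/
def allN (p : ℕ → Bool) : ℕ → Bool
  | 0 => true
  | n + 1 => p n && allN p n

lemma allN_iff {p : ℕ → Bool} {n : ℕ} : allN p n = true ↔ ∀ i < n, p i = true := by
  induction n with
  | zero => simp [allN]
  | succ n ih =>
    rw [allN, Bool.and_eq_true, ih]
    constructor
    · rintro ⟨h1, h2⟩ i hi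
      rcases Nat.lt_succ_iff_lt_or_eq.1 hi with h | h
      · exact h2 i h
      · rw [h]; exact h1
    · intro h
      exact ⟨h n (Nat.lt_succ_self n), fun i hi => h i (Nat.lt_succ_of_lt hi)⟩

/-- access to a list -/
def nth {α : Type} (d : α) : List α → ℕ → α
  | [], _ => d
  | a :: _, 0 => a
  | _ :: l, n + 1 => nth d l n

/-- access to an array of `w`-bit numbers, which is given in blocks of `c` numbers, and these in groups
of `16` blocks -/
def arr (w c : ℕ) (L : List (List ℕ)) (i : ℕ) : ℕ :=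
  Nat.mod (Nat.shiftRight (nth 0 (nth [] L (Nat.div i (Nat.mul 16 c))) (Nat.mod (Nat.div i c) 16))
    (Nat.mul w (Nat.mod i c))) (Nat.pow 2 w)

namespace Dat

variable (D : Dat)

/-- not interleaving -/
def nitl (a b c d : ℕ) : Bool := Nat.ble c a || (Nat.ble b c || Nat.ble d b)

lemma nitl_iff {a b c d : ℕ} : nitl a b c d = true ↔ ¬ itl a b c d := by
  unfold nitl itl
  rw [Bool.or_eq_true, Bool.or_eq_true, Nat.ble_eq, Nat.ble_eq, Nat.ble_eq]
  omega

/-- the check for one edge -/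
def chkEdge (i r : ℕ) : Bool :=
  (Nat.blt (ins i r + 2 ^ i) (2 ^ (D.m + 1)) &&
    (Nat.beq (ins i r ^^^ (ins i r + 2 ^ i)) (2 ^ i) &&
    (Nat.beq (rmv i (ins i r)) r &&
    (Nat.beq (rmv i (ins i r + 2 ^ i)) r &&
    (!(ins i r).testBit i &&
    (ins i r + 2 ^ i).testBit i))))) &&
  (Nat.beq (D.zz (i * 2 ^ D.m + r) 0) (D.vp (ins i r)) &&
    (Nat.beq (D.zz (i * 2 ^ D.m + r) (D.len (i * 2 ^ D.m + r) + 1)) (D.vp (ins i r + 2 ^ i)) &&
    (D.sg (ins i r + 2 ^ i) == xor (D.sg (ins i r)) (!(D.len (i * 2 ^ D.m + r)).bodd))))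

/-- the second check for one edge -/
def chkEdge' (k : ℕ) : Bool :=
  Nat.blt (D.len k) 31 &&
  (allN (fun j => Nat.beq (D.own (D.zz k (j + 1))) (32 * k + (j + 1))) (D.len k) &&
  (allN (fun j => Nat.beq (D.inv (D.side k j) (D.rk k j)) (32 * k + j) &&
    Nat.blt (D.rk k j) (D.cnt (D.side k j))) (D.len k + 1) &&
  allN (fun j => allN (fun j' => (j + j').bodd ||
    nitl (D.lo k j) (D.hi k j) (D.lo k j') (D.hi k j')) (D.len k + 1)) (D.len k + 1)))

/-- the check for one vertex -/
def chkVert (v : ℕ) : Bool :=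
  Nat.beq (D.own (D.vp v)) (2 ^ 19 + v) &&
  (allN (fun i => Nat.blt (rmv i v) (2 ^ D.m) &&
    Nat.beq v (ins i (rmv i v) + if v.testBit i then 2 ^ i else 0)) (D.m + 1) &&
  (Nat.ble (2 * cntN (fun i => D.es i v) (D.m + 1)) (D.m + 2) &&
    Nat.ble D.m (2 * cntN (fun i => D.es i v) (D.m + 1))))

/-- the sweep -/
def sweep (w : ℕ) (d : Bool) : ℕ → ℕ → ℕ → ℕ → ℕ → Bool
  | 0, _, _, _, _ => true
  | f + 1, j, M, acc, prev =>
    Nat.ble prev (D.cl (D.inv d j)) &&
    (Nat.ble (acc + M % 2 ^ (w * D.ch (D.inv d j)) / 2 ^ (w * (D.cl (D.inv d j) + 1)) % (2 ^ w - 1))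
      (D.C d) &&
    sweep w d f (j + 1) (M + 2 ^ (w * D.ch (D.inv d j)))
      (acc + M % 2 ^ (w * D.ch (D.inv d j)) / 2 ^ (w * (D.cl (D.inv d j) + 1)) % (2 ^ w - 1))
      (D.cl (D.inv d j)))

variable {D}

lemma sweep_srt {w : ℕ} {d : Bool} (f : ℕ) : ∀ (j M acc prev : ℕ),
    D.sweep w d f j M acc prev = true →
    (∀ i, j ≤ i → i < j + f → prev ≤ D.cl (D.inv d i)) ∧
    (∀ i i', j ≤ i → i ≤ i' → i' < j + f → D.cl (D.inv d i) ≤ D.cl (D.inv d i')) := by
  induction f with
  | zero =>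
    intro j M acc prev _
    exact ⟨fun i h1 h2 => by omega, fun i i' h1 h2 h3 => by omega⟩
  | succ f ih =>
    intro j M acc prev h
    rw [sweep, Bool.and_eq_true, Bool.and_eq_true, Nat.ble_eq] at h
    obtain ⟨h1, -, h3⟩ := h
    obtain ⟨i1, i2⟩ := ih _ _ _ _ h3
    refine ⟨fun i a b => ?_, fun i i' a b c => ?_⟩
    · rcases Nat.eq_or_lt_of_le a with e | e
      · rw [← e]; exact h1
      · exact h1.trans (i1 i e (by omega))
    · rcases Nat.eq_or_lt_of_le a with e | e
      · rcases Nat.eq_or_lt_of_le b with e' | e'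
        · rw [e']
        · rw [← e]; exact i1 i' (by omega) (by omega)
      · exact i2 i i' e b (by omega)

lemma sweep_cross {w : ℕ} {d : Bool} (f : ℕ) : ∀ (j M acc prev : ℕ), j + f < 2 ^ w →
    M = ∑ i ∈ Finset.range j, (2 ^ w) ^ D.ch (D.inv d i) →
    acc = ∑ j' ∈ Finset.range j, ((Finset.range j').filter (fun j =>
      D.cl (D.inv d j') < D.ch (D.inv d j) ∧ D.ch (D.inv d j) < D.ch (D.inv d j'))).card →
    acc ≤ D.C d →
    D.sweep w d f j M acc prev = true →
    ∑ j' ∈ Finset.range (j + f), ((Finset.range j').filter (fun j =>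
      D.cl (D.inv d j') < D.ch (D.inv d j) ∧ D.ch (D.inv d j) < D.ch (D.inv d j'))).card ≤ D.C d := by
  induction f with
  | zero =>
    intro j M acc prev _ _ hacc hle _
    rw [add_zero, ← hacc]
    exact hle
  | succ f ih =>
    intro j M acc prev hj hM hacc hle h
    rw [sweep, Bool.and_eq_true, Bool.and_eq_true, Nat.ble_eq, Nat.ble_eq] at h
    obtain ⟨-, h2, h3⟩ := h
    have e0 : M % 2 ^ (w * D.ch (D.inv d j)) / 2 ^ (w * (D.cl (D.inv d j) + 1)) % (2 ^ w - 1) =
        ((Finset.range j).filter (fun i =>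
          D.cl (D.inv d j) < D.ch (D.inv d i) ∧ D.ch (D.inv d i) < D.ch (D.inv d j))).card := by
      rw [pow_mul, pow_mul, hM]
      exact digit_count (by omega) (fun i => D.ch (D.inv d i))
    rw [e0] at h2 h3
    have := ih (j + 1) _ _ _ (by omega) (by rw [Finset.sum_range_succ, ← hM, pow_mul])
      (by rw [Finset.sum_range_succ, ← hacc]) h2 h3
    have e : j + 1 + f = j + (f + 1) := by omega
    rw [e] at this
    exact this

/-- **Soundness of the checks.** -/
theorem ok_of {w : ℕ} (h0 : Nat.ble ((D.m + 1) * 2 ^ D.m * 32) (2 ^ 19) = true)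
    (h1 : allN (fun i => allN (fun r => D.chkEdge i r) (2 ^ D.m)) (D.m + 1) = true)
    (h2 : allN (fun k => D.chkEdge' k) ((D.m + 1) * 2 ^ D.m) = true)
    (h3 : allN (fun v => D.chkVert v) (2 ^ (D.m + 1)) = true)
    (h4 : ∀ d, D.cnt d < 2 ^ w)
    (h5 : ∀ d, D.sweep w d (D.cnt d) 0 0 0 0 = true) : D.Ok := by
  rw [allN_iff] at h1 h2 h3
  have h1' : ∀ i < D.m + 1, ∀ r < 2 ^ D.m, D.chkEdge i r = true := by
    intro i hi r hr
    have := h1 i hi
    rw [allN_iff] at this
    exact this r hr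
  have h2' : ∀ k < (D.m + 1) * 2 ^ D.m, D.len k < 31 ∧
      (∀ j < D.len k, D.own (D.zz k (j + 1)) = 32 * k + (j + 1)) ∧
      (∀ j < D.len k + 1, D.inv (D.side k j) (D.rk k j) = 32 * k + j ∧
        D.rk k j < D.cnt (D.side k j)) ∧
      (∀ j < D.len k + 1, ∀ j' < D.len k + 1, (j + j').bodd = true ∨
        nitl (D.lo k j) (D.hi k j) (D.lo k j') (D.hi k j') = true) := by
    intro k hk
    have := h2 k hk
    rw [chkEdge', Bool.and_eq_true, Bool.and_eq_true, Bool.and_eq_true, allN_iff, allN_iff,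
      allN_iff] at this
    obtain ⟨a, b, c, d⟩ := this
    refine ⟨by simpa [Nat.blt_eq] using a, fun j hj => Nat.eq_of_beq_eq_true (b j hj), fun j hj => ?_,
      fun j hj j' hj' => ?_⟩
    · have := c j hj
      rw [Bool.and_eq_true] at this
      exact ⟨Nat.eq_of_beq_eq_true this.1, by simpa [Nat.blt_eq] using this.2⟩
    · have := d j hj
      rw [allN_iff] at this
      have := this j' hj'
      rwa [Bool.or_eq_true] at this
  have h3' : ∀ v < 2 ^ (D.m + 1), D.own (D.vp v) = 2 ^ 19 + v ∧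
      (∀ i < D.m + 1, rmv i v < 2 ^ D.m ∧ v = ins i (rmv i v) + if v.testBit i then 2 ^ i else 0) ∧
      2 * cntN (fun i => D.es i v) (D.m + 1) ≤ D.m + 2 ∧
      D.m ≤ 2 * cntN (fun i => D.es i v) (D.m + 1) := by
    intro v hv
    have := h3 v hv
    rw [chkVert, Bool.and_eq_true, Bool.and_eq_true, Bool.and_eq_true, allN_iff] at this
    obtain ⟨a, b, c, d⟩ := this
    refine ⟨Nat.eq_of_beq_eq_true a, fun i hi => ?_, by simpa using c, by simpa using d⟩
    have := b i hi
    rw [Bool.and_eq_true] at this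
    exact ⟨by simpa [Nat.blt_eq] using this.1, Nat.eq_of_beq_eq_true this.2⟩
  refine
    { big := by simpa using h0
      code := ?_
      vert := fun v hv => (h3' v hv).2.1
      ends := ?_
      own_v := fun v hv => (h3' v hv).1
      bal := fun v hv => (h3' v hv).2.2
      len_lt := fun k hk => (h2' k hk).1
      own_z := fun k hk => (h2' k hk).2.1
      inv_rk := fun k hk => (h2' k hk).2.2.1
      self := ?_
      srt := ?_
      cross := ?_ }
  · intro i hi r hr
    have := h1' i hi r hr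
    unfold chkEdge at this
    simp only [Bool.and_eq_true, Bool.not_eq_true'] at this
    obtain ⟨⟨a, b, c, d, e, f⟩, -⟩ := this
    exact ⟨by simpa [Nat.blt_eq] using a, Nat.eq_of_beq_eq_true b, Nat.eq_of_beq_eq_true c,
      Nat.eq_of_beq_eq_true d, e, f⟩
  · intro i hi r hr
    have := h1' i hi r hr
    unfold chkEdge at this
    simp only [Bool.and_eq_true, Bool.not_eq_true'] at this
    obtain ⟨-, a, b, c⟩ := this
    exact ⟨Nat.eq_of_beq_eq_true a, Nat.eq_of_beq_eq_true b, by simpa using c⟩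
  · intro k hk j hj j' hj' hs
    rcases (h2' k hk).2.2.2 j hj j' hj' with h | h
    · exfalso
      unfold side at hs
      rw [Nat.bodd_add] at h
      cases D.up k <;> cases j.bodd <;> cases j'.bodd <;> simp_all
    · exact nitl_iff.1 h
  · intro d j j' hjj hj'
    exact (sweep_srt _ _ _ _ _ (h5 d)).2 j j' (Nat.zero_le _) hjj (by omega)
  · intro d
    have := sweep_cross (D := D) (d := d) (w := w) (D.cnt d) 0 0 0 0
      (by have := h4 d; omega) (by simp) (by simp) (Nat.zero_le _) (h5 d)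
    rw [zero_add] at this
    exact this

end Dat

end Pool.Agent.Lib.MP_c258d4_co
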