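import Pool.Agent.Lib.MP_c258d4_co.SRecur

/-!
# The hypercube on the numbers `0, ..., 2 ^ n - 1`
-/

set_option autoImplicit false

namespace Pool.Agent.Lib.MP_c258d4_co

/-- The hypercube with the vertices `0, ..., 2 ^ n - 1`. -/
def hc (n : ℕ) : SimpleGraph (Fin (2 ^ n)) where
  Adj a b := ∃ i < n, a.val ^^^ b.val = 2 ^ i
  symm := ⟨fun a b h => by
    obtain ⟨i, h1, h2⟩ := h
    exact ⟨i, h1, by rw [Nat.xor_comm]; exact h2⟩⟩
  loopless := ⟨fun a h => by
    obtain ⟨i, _, h2⟩ := h
    rw [Nat.xor_self] at h2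
    exact absurd h2.symm (pow_ne_zero _ two_ne_zero)⟩

/-- the bits of a number -/
def bits (n : ℕ) (a : Fin (2 ^ n)) : Fin n → Bool := fun i => a.val.testBit i.val

lemma bits_injective (n : ℕ) : Function.Injective (bits n) := by
  intro a b h
  apply Fin.ext
  apply Nat.eq_of_testBit_eq
  intro i
  by_cases hi : i < n
  · exact congrFun h ⟨i, hi⟩
  · have h2 : 2 ^ n ≤ 2 ^ i := Nat.pow_le_pow_right (by norm_num) (by omega)
    rw [Nat.testBit_lt_two_pow (lt_of_lt_of_le a.2 h2), Nat.testBit_lt_two_pow (lt_of_lt_of_le b.2 h2)]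

/-- the numbers below `2 ^ n` are the sequences of length `n` -/
noncomputable def bitsEquiv (n : ℕ) : Fin (2 ^ n) ≃ (Fin n → Bool) :=
  Equiv.ofBijective (bits n) ((Fintype.bijective_iff_injective_and_card _).2
    ⟨bits_injective n, by simp⟩)

lemma hc_adj (n : ℕ) (a b : Fin (2 ^ n)) :
    (hc n).Adj a b ↔ (hypercube n).Adj (bitsEquiv n a) (bitsEquiv n b) := by
  show (∃ i < n, a.val ^^^ b.val = 2 ^ i) ↔ ∃! i : Fin n, a.val.testBit i.val ≠ b.val.testBit i.val
  have key : ∀ j, (a.val ^^^ b.val).testBit j = true ↔ a.val.testBit j ≠ b.val.testBit j := by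
    intro j
    rw [Nat.testBit_xor]
    cases a.val.testBit j <;> cases b.val.testBit j <;> simp
  constructor
  · rintro ⟨i, hi, h⟩
    refine ⟨⟨i, hi⟩, ?_, ?_⟩
    · show a.val.testBit i ≠ b.val.testBit i
      rw [← key, h]
      simp [Nat.testBit_two_pow]
    · rintro ⟨j, hj⟩ hj'
      change a.val.testBit j ≠ b.val.testBit j at hj'
      rw [← key, h] at hj'
      simp only [Nat.testBit_two_pow, decide_eq_true_eq] at hj'
      exact Fin.ext hj'.symm
  · rintro ⟨i, hi, h⟩
    refine ⟨i.val, i.2, ?_⟩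
    apply Nat.eq_of_testBit_eq
    intro j
    rw [Nat.testBit_two_pow]
    by_cases hj : j < n
    · by_cases hij : i.val = j
      · subst hij
        simp only [decide_true]
        exact (key _).2 hi
      · simp only [hij, decide_false]
        by_contra hne
        have h2 := (key j).1 (by simpa using hne)
        exact hij (congrArg Fin.val (h ⟨j, hj⟩ h2)).symm
    · have hij : i.val ≠ j := by have := i.2; omega
      have h2 : 2 ^ n ≤ 2 ^ j := Nat.pow_le_pow_right (by norm_num) (by omega)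
      rw [Nat.testBit_xor, Nat.testBit_lt_two_pow (lt_of_lt_of_le a.2 h2),
        Nat.testBit_lt_two_pow (lt_of_lt_of_le b.2 h2)]
      simp [hij]

theorem HasLay.of_hc {n d c : ℕ} (h : HasLay (hc n) d c) : HasLay (hypercube n) d c :=
  h.map (bitsEquiv n) (hc_adj n)

end Pool.Agent.Lib.MP_c258d4_co
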