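import Pool.Agent.Lib.MP_c258d4_co.Double

/-!
# The doubled layout and its crossings
-/

set_option autoImplicit false

namespace Pool.Agent.Lib.MP_c258d4_co

open Pool.Agent.Lib.MP_266831_co Pool.Agent.Lib.MP_266831_co.Upper

variable {V κ : Type} {G : SimpleGraph V}

lemma side_succ (A : AxisPath) (i : ℕ) : A.side i ≠ A.side (i + 1) := by
  unfold AxisPath.side
  rw [Nat.bodd_succ]
  cases A.up <;> cases i.bodd <;> simp

lemma ends_swap {i i' : ℕ} (h : i' = i ∨ i' = i + 1) :
    ∃ i'', (i'' = i ∨ i'' = i + 1) ∧ i'' ≠ i' ∧ ∀ (w : ℕ → ℝ) (c d : ℝ),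
      Inter (w i) (w (i + 1)) c d ↔ Inter (w i') (w i'') c d := by
  rcases h with h | h
  · exact ⟨i + 1, Or.inr rfl, by omega, fun w c d => by rw [h]⟩
  · exact ⟨i, Or.inl rfl, by omega, fun w c d => by rw [h]; exact inter_swap_left⟩

lemma ends_swap' {j j' : ℕ} (h : j' = j ∨ j' = j + 1) :
    ∃ j'', (j'' = j ∨ j'' = j + 1) ∧ j'' ≠ j' ∧ ∀ (w : ℕ → ℝ) (a b : ℝ),
      Inter a b (w j) (w (j + 1)) ↔ Inter a b (w j') (w j'') := by
  obtain ⟨j'', h1, h2, h3⟩ := ends_swap h
  exact ⟨j'', h1, h2, fun w a b => by rw [inter_comm, h3, inter_comm]⟩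

namespace Lay

variable {E : Ends V κ G} (L : Lay E)

/-- all axis points of a layout -/
def pts : Set ℝ := Set.range L.pos ∪ {r | ∃ k i, i ≤ (L.A k).n + 1 ∧ (L.A k).z i = r}

lemma pts_finite [Finite V] [Finite κ] : L.pts.Finite := by
  refine (Set.finite_range _).union ?_
  have : {r | ∃ k i, i ≤ (L.A k).n + 1 ∧ (L.A k).z i = r} =
      ⋃ k, (fun i => (L.A k).z i) '' (Set.Iic ((L.A k).n + 1)) := by
    ext r
    simp only [Set.mem_ofPred_eq, Set.mem_iUnion, Set.mem_image, Set.mem_Iic]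
  rw [this]
  exact Set.finite_iUnion fun k => (Set.finite_Iic _).image _

lemma pos_mem (v : V) : L.pos v ∈ L.pts := Or.inl ⟨v, rfl⟩

lemma z_mem {k : κ} {i : ℕ} (hi : i ≤ (L.A k).n + 1) : (L.A k).z i ∈ L.pts := Or.inr ⟨k, i, hi, rfl⟩

/-- positions of the vertices of the prism -/
noncomputable def dpos (ε : ℝ) (x : V × Bool) : ℝ := L.pos x.1 + (if x.2 then 1 else 0) * ε

/-- the paths of the prism -/
noncomputable def dA (ε : ℝ) : (κ × Bool) ⊕ V → AxisPath :=
  Sum.elim (fun k => cpy (L.A k.1) ε k.2) (fun v => ⟨0, fun i => L.pos v + (i : ℝ) * ε, true⟩)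

lemma abs_ite (s : Bool) : |(if s then (1 : ℝ) else 0)| ≤ 1 := by cases s <;> simp

section

variable {ε : ℝ} (hg : Gap L.pts ε)

include hg

/-- Pieces of two copies of one path without common ends do not interleave. -/
lemma not_inter_far (k : κ) {i j : ℕ} (hi : i ≤ (L.A k).n) (hj : j ≤ (L.A k).n) (hij : i ≠ j)
    (hs : (L.A k).side i = (L.A k).side j) (s t : Bool) :
    ¬ Inter ((cpy (L.A k) ε s).z i) ((cpy (L.A k) ε s).z (i + 1)) ((cpy (L.A k) ε t).z j)
      ((cpy (L.A k) ε t).z (j + 1)) := by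
  have h1 : i + 1 ≠ j := by
    rintro rfl; exact side_succ _ _ hs
  have h2 : j + 1 ≠ i := by
    rintro rfl; exact side_succ _ _ hs.symm
  have hgood := L.good k
  show ¬ Inter ((L.A k).z i + dl s (L.A k).n i * ε) ((L.A k).z (i + 1) + dl s (L.A k).n (i + 1) * ε)
    ((L.A k).z j + dl t (L.A k).n j * ε) ((L.A k).z (j + 1) + dl t (L.A k).n (j + 1) * ε)
  rw [hg.inter_iff (L.z_mem (by omega)) (L.z_mem (by omega)) (L.z_mem (by omega))
    (L.z_mem (by omega)) (fun h => hij (hgood.inj _ (by omega) _ (by omega) h))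
    (fun h => h2 (hgood.inj _ (by omega) _ (by omega) h).symm)
    (fun h => h1 (hgood.inj _ (by omega) _ (by omega) h))
    (fun h => hij (by have := hgood.inj _ (by omega) _ (by omega) h; omega))
    (abs_dl _ _ _) (abs_dl _ _ _) (abs_dl _ _ _) (abs_dl _ _ _)]
  exact hgood.self i hi j hj hs

lemma good_cpy (k : κ) (s : Bool) : Good (cpy (L.A k) ε s) where
  inj i hi j hj h := by
    by_contra hij
    exact hg.ne (L.z_mem hi) (L.z_mem hj) (fun h => hij ((L.good k).inj i hi j hj h))
      (abs_dl _ _ _) (abs_dl _ _ _) h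
  self i hi j hj hs hI := by
    by_cases hij : i = j
    · subst hij
      exact not_inter_same hI
    · exact L.not_inter_far hg k hi hj hij hs s s hI

/-- the doubled layout -/
noncomputable def double : Lay E.dbl where
  pos := L.dpos ε
  pos_inj := by
    rintro ⟨u, s⟩ ⟨v, t⟩ h
    have huv : u = v := by
      by_contra hne
      exact hg.ne (L.pos_mem u) (L.pos_mem v) (fun h => hne (L.pos_inj h)) (abs_ite s) (abs_ite t) h
    subst huv
    have h1 : (if s then (1 : ℝ) else 0) * ε = (if t then (1 : ℝ) else 0) * ε := by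
      simpa [dpos] using h
    have h2 := mul_right_cancel₀ hg.pos.ne' h1
    cases s <;> cases t <;> simp_all
  A := L.dA ε
  z_zero := by
    rintro (⟨k, s⟩ | v)
    · show (L.A k).z 0 + dl s (L.A k).n 0 * ε = L.pos (E.a k) + (if s then 1 else 0) * ε
      rw [L.z_zero, dl_zero]
    · show L.pos v + ((0 : ℕ) : ℝ) * ε = L.pos v + (if false then 1 else 0) * ε
      simp
  z_last := by
    rintro (⟨k, s⟩ | v)
    · show (L.A k).z ((L.A k).n + 1) + dl s (L.A k).n ((L.A k).n + 1) * ε =
        L.pos (E.b k) + (if s then 1 else 0) * ε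
      rw [L.z_last, dl_last]
    · show L.pos v + ((0 + 1 : ℕ) : ℝ) * ε = L.pos v + (if true then 1 else 0) * ε
      simp
  good := by
    rintro (⟨k, s⟩ | v)
    · exact L.good_cpy hg k s
    · refine ⟨?_, ?_⟩
      · intro i _ j _ h
        have h1 : (i : ℝ) * ε = (j : ℝ) * ε := by
          have : L.pos v + (i : ℝ) * ε = L.pos v + (j : ℝ) * ε := h
          linarith
        exact_mod_cast mul_right_cancel₀ hg.pos.ne' h1
      · intro i hi j hj _
        have hi' : i = 0 := Nat.le_zero.1 hi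
        have hj' : j = 0 := Nat.le_zero.1 hj
        subst hi' hj'
        exact not_inter_same
  z_ne := by
    rintro (⟨k, s⟩ | v) i h1 h2 ⟨u, t⟩
    · exact hg.ne (L.z_mem (le_trans h2 (Nat.le_succ _))) (L.pos_mem u) (L.z_ne k i h1 h2 u)
        (abs_dl _ _ _) (abs_ite t)
    · have h3 : i ≤ 0 := h2
      omega
  z_ne_z := by
    rintro (⟨k, s⟩ | v) (⟨l, t⟩ | w) hkl i h1 h2 j h3 h4
    · have h2' : i ≤ (L.A k).n + 1 := le_trans h2 (Nat.le_succ _)
      have h4' : j ≤ (L.A l).n + 1 := le_trans h4 (Nat.le_succ _)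
      by_cases hk : k = l
      · subst hk
        by_cases hz : i = j
        · subst hz
          have hst : s ≠ t := fun h => hkl (by rw [h])
          show (L.A k).z i + dl s (L.A k).n i * ε ≠ (L.A k).z i + dl t (L.A k).n i * ε
          intro h
          have h5 : dl s (L.A k).n i * ε = dl t (L.A k).n i * ε := by linarith
          have h6 := mul_right_cancel₀ hg.pos.ne' h5
          have h7 := dl_true_ne (L.A k).n i
          cases s <;> cases t
          · exact hst rfl
          · exact h7 (h6.symm.trans (by simp [dl]))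
          · exact h7 (h6.trans (by simp [dl]))
          · exact hst rfl
        · exact hg.ne (L.z_mem h2') (L.z_mem h4') (fun h => hz ((L.good k).inj i h2' j h4' h))
            (abs_dl _ _ _) (abs_dl _ _ _)
      · exact hg.ne (L.z_mem h2') (L.z_mem h4') (L.z_ne_z k l hk i h1 h2 j h3 h4)
          (abs_dl _ _ _) (abs_dl _ _ _)
    · have h5 : j ≤ 0 := h4
      omega
    · have h5 : i ≤ 0 := h2
      omega
    · have h5 : j ≤ 0 := h4
      omega

/-- The vertical edges of the prism are not crossed. -/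
lemma X_vert (v : V) (w : (κ × Bool) ⊕ V) : (L.dA ε (Sum.inr v)).X (L.dA ε w) = 0 := by
  classical
  rw [AxisPath.X, Finset.card_eq_zero, AxisPath.pairs, Finset.filter_eq_empty_iff]
  rintro ⟨i, j⟩ hij ⟨_, hI⟩
  rw [Finset.mem_product, Finset.mem_range, Finset.mem_range] at hij
  obtain ⟨hi, hj⟩ := hij
  have hi' : i = 0 := by
    have : i < 0 + 1 := hi
    omega
  subst hi'
  have hε := hg.pos
  have key : ∀ y, (∃ q ∈ L.pts, ∃ c, |c| ≤ 1 ∧ y = q + c * ε ∧ (q = L.pos v → c = 0 ∨ c = 1)) →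
      ¬ (min (L.pos v + ((0 : ℕ) : ℝ) * ε) (L.pos v + ((0 + 1 : ℕ) : ℝ) * ε) < y ∧
        y < max (L.pos v + ((0 : ℕ) : ℝ) * ε) (L.pos v + ((0 + 1 : ℕ) : ℝ) * ε)) := by
    rintro y ⟨q, hq, c, hc, rfl, hcq⟩ ⟨h1, h2⟩
    have e1 : L.pos v + ((0 : ℕ) : ℝ) * ε < L.pos v + ((0 + 1 : ℕ) : ℝ) * ε := by
      push_cast; linarith
    rw [min_eq_left e1.le] at h1
    rw [max_eq_right e1.le] at h2
    push_cast at h1 h2
    by_cases hqv : q = L.pos v
    · rcases hcq hqv with h | h
      · rw [h, hqv] at h1; linarith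
      · rw [h, hqv] at h2; linarith
    · rcases lt_or_gt_of_ne hqv with h | h
      · have := hg.lt_of_lt hq (L.pos_mem v) h hc (d := 0) (by norm_num)
        linarith
      · have := hg.lt_of_lt (L.pos_mem v) hq h (c := 1) (by norm_num) hc
        linarith
  have hw : ∀ j', j' ≤ (L.dA ε w).n + 1 → ∃ q ∈ L.pts, ∃ c, |c| ≤ 1 ∧ (L.dA ε w).z j' = q + c * ε ∧
      (q = L.pos v → c = 0 ∨ c = 1) := by
    intro j' hj'
    rcases w with ⟨l, t⟩ | u
    · have hj'' : j' ≤ (L.A l).n + 1 := hj'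
      refine ⟨(L.A l).z j', L.z_mem hj'', dl t (L.A l).n j', abs_dl _ _ _, rfl, fun h => ?_⟩
      have : j' = 0 ∨ j' = (L.A l).n + 1 ∨ (1 ≤ j' ∧ j' ≤ (L.A l).n) := by omega
      rcases this with h1 | h1 | ⟨h1, h2⟩
      · rw [h1, dl_zero]; cases t <;> simp
      · rw [h1, dl_last]; cases t <;> simp
      · exact absurd h (L.z_ne l j' h1 h2 v)
    · have hj'' : j' ≤ 0 + 1 := hj'
      refine ⟨L.pos u, L.pos_mem u, (j' : ℝ), ?_, rfl, fun _ => ?_⟩
      · have : j' = 0 ∨ j' = 1 := by omega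
        rcases this with h | h <;> rw [h] <;> simp
      · have : j' = 0 ∨ j' = 1 := by omega
        rcases this with h | h <;> rw [h] <;> simp
  rcases exists_between hI with h | h
  · exact key _ (hw j (by omega)) h
  · exact key _ (hw (j + 1) (by omega)) h

/-- The two copies of a path cross at most once. -/
lemma X_self_le (k : κ) {s t : Bool} (hst : s ≠ t) :
    (cpy (L.A k) ε s).X (cpy (L.A k) ε t) ≤ 1 := by
  classical
  have key : ∀ i, i ≤ (L.A k).n → i < (L.A k).n → ∀ s t : Bool, s ≠ t →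
      ¬ Inter ((cpy (L.A k) ε s).z i) ((cpy (L.A k) ε s).z (i + 1)) ((cpy (L.A k) ε t).z i)
        ((cpy (L.A k) ε t).z (i + 1)) := by
    intro i hi hin s t hst
    have hne := (L.good k).ne hi
    have base := hg.not_inter_nested (L.z_mem (k := k) (i := i) (by omega))
      (L.z_mem (k := k) (i := i + 1) (by omega)) hne (abs_dl true (L.A k).n i)
    rw [← dl_succ hin] at base
    have f1 : ∀ i, (cpy (L.A k) ε false).z i = (L.A k).z i := by
      intro i; simp [cpy, dl]
    cases s <;> cases t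
    · exact absurd rfl hst
    · rw [f1, f1]; exact base
    · rw [f1, f1, inter_comm]; exact base
    · exact absurd rfl hst
  rw [AxisPath.X, Finset.card_le_one]
  have main : ∀ p ∈ (cpy (L.A k) ε s).pairs (cpy (L.A k) ε t), p = ((L.A k).n, (L.A k).n) := by
    rintro ⟨i, j⟩ hp
    rw [AxisPath.pairs, Finset.mem_filter, Finset.mem_product, Finset.mem_range,
      Finset.mem_range] at hp
    obtain ⟨⟨h1, h2⟩, h3, h4⟩ := hp
    have h1' : i < (L.A k).n + 1 := h1
    have h2' : j < (L.A k).n + 1 := h2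
    by_cases hij : i = j
    · subst hij
      by_cases hin : i < (L.A k).n
      · exact absurd h4 (key i (by omega) hin s t hst)
      · have : i = (L.A k).n := by omega
        rw [this]
    · exact absurd h4 (L.not_inter_far hg k (by omega) (by omega) hij h3 s t)
  intro p hp q hq
  rw [main p hp, main q hq]

end

/-- the pieces `p.1` of `x` and `p.2` of `y` have a common end -/
def Shr (x y : κ) (p : ℕ × ℕ) : Prop :=
  ∃ i' j', (i' = p.1 ∨ i' = p.1 + 1) ∧ (j' = p.2 ∨ j' = p.2 + 1) ∧ (L.A x).z i' = (L.A y).z j'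

/-- the edges `x` and `y` have a common end -/
def _root_.Pool.Agent.Lib.MP_c258d4_co.Ends.Sh (E : Ends V κ G) (x y : κ) : Prop :=
  ∃ u, u ∈ s(E.a x, E.b x) ∧ u ∈ s(E.a y, E.b y)

open Classical in
lemma card_shr {x y : κ} (hxy : x ≠ y) :
    (((Finset.range ((L.A x).n + 1)) ×ˢ (Finset.range ((L.A y).n + 1))).filter
      (L.Shr x y)).card ≤ if E.Sh x y then 1 else 0 := by
  have key : ∀ p ∈ ((Finset.range ((L.A x).n + 1)) ×ˢ (Finset.range ((L.A y).n + 1))).filter
      (L.Shr x y), ∃ i' j' u, L.IsEnd x i' u ∧ L.IsEnd y j' u ∧ p = (i' - 1, j' - 1) := by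
    rintro ⟨i, j⟩ hp
    rw [Finset.mem_filter, Finset.mem_product, Finset.mem_range, Finset.mem_range] at hp
    obtain ⟨⟨h1, h2⟩, i', j', h3, h4, h5⟩ := hp
    simp only at h1 h2 h3 h4
    obtain ⟨u, hu1, hu2⟩ := L.end_cases hxy (by omega) (by omega) h5
    refine ⟨i', j', u, hu1, hu2, ?_⟩
    have e1 : i = i' - 1 := by
      rcases hu1 with ⟨h, _⟩ | ⟨h, _⟩ <;> omega
    have e2 : j = j' - 1 := by
      rcases hu2 with ⟨h, _⟩ | ⟨h, _⟩ <;> omega
    rw [e1, e2]
  split_ifs with hS
  · rw [Finset.card_le_one]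
    intro p hp q hq
    obtain ⟨i', j', u, a1, a2, rfl⟩ := key p hp
    obtain ⟨i'', j'', u', b1, b2, rfl⟩ := key q hq
    have hu := L.end_unique hxy a1 a2 b1 b2
    rw [a1.idx b1 hu, a2.idx b2 hu]
  · rw [Nat.le_zero, Finset.card_eq_zero, Finset.eq_empty_iff_forall_notMem]
    intro p hp
    obtain ⟨i', j', u, a1, a2, -⟩ := key p hp
    exact hS ⟨u, a1.mem, a2.mem⟩

open Classical in
/-- The crossings of the copies of two different paths. -/
lemma sum_four {ε : ℝ} (hg : Gap L.pts ε) {x y : κ} (hxy : x ≠ y) :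
    ∑ s : Bool, ∑ t : Bool, (cpy (L.A x) ε s).X (cpy (L.A y) ε t) ≤
      4 * (L.A x).X (L.A y) + if E.Sh x y then 1 else 0 := by
  set R := (Finset.range ((L.A x).n + 1)) ×ˢ (Finset.range ((L.A y).n + 1)) with hR
  let I : Bool → Bool → ℕ × ℕ → Prop := fun s t p =>
    (L.A x).side p.1 = (L.A y).side p.2 ∧ Inter ((cpy (L.A x) ε s).z p.1)
      ((cpy (L.A x) ε s).z (p.1 + 1)) ((cpy (L.A y) ε t).z p.2) ((cpy (L.A y) ε t).z (p.2 + 1))
  let J : ℕ × ℕ → Prop := fun p =>
    (L.A x).side p.1 = (L.A y).side p.2 ∧ Inter ((L.A x).z p.1)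
      ((L.A x).z (p.1 + 1)) ((L.A y).z p.2) ((L.A y).z (p.2 + 1))
  have hX : ∀ s t, (cpy (L.A x) ε s).X (cpy (L.A y) ε t) = ∑ p ∈ R, if I s t p then 1 else 0 := by
    intro s t
    rw [← Finset.card_filter]
    rfl
  have hX0 : (L.A x).X (L.A y) = ∑ p ∈ R, if J p then 1 else 0 := by
    rw [← Finset.card_filter]
    rfl
  have hpt : ∀ p ∈ R, ∑ s : Bool, ∑ t : Bool, (if I s t p then 1 else 0) ≤
      4 * (if J p then 1 else 0) + if L.Shr x y p then 1 else 0 := by
    rintro ⟨i, j⟩ hp
    rw [hR, Finset.mem_product, Finset.mem_range, Finset.mem_range] at hp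
    obtain ⟨hi, hj⟩ := hp
    simp only at hi hj
    by_cases hS : L.Shr x y (i, j)
    · rw [if_pos hS]
      obtain ⟨i', j', h3, h4, h5⟩ := hS
      simp only at h3 h4
      obtain ⟨u, hu1, hu2⟩ := L.end_cases hxy (by omega) (by omega) h5
      obtain ⟨i'', c1, c2, c3⟩ := ends_swap h3
      obtain ⟨j'', d1, d2, d3⟩ := ends_swap' h4
      have hab : (L.A x).z i'' ≠ (L.A y).z j'' := by
        intro h
        obtain ⟨u', v1, v2⟩ := L.end_cases hxy (by omega) (by omega) h
        exact c2 (v1.idx hu1 (L.end_unique hxy v1 v2 hu1 hu2))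
      have hap : (L.A x).z i'' ≠ L.pos u := by
        intro h
        rw [← hu1.eq] at h
        exact c2 ((L.good x).inj _ (by omega) _ (by omega) h)
      have hbp : (L.A y).z j'' ≠ L.pos u := by
        intro h
        rw [← hu2.eq] at h
        exact d2 ((L.good y).inj _ (by omega) _ (by omega) h)
      have e1 : ∀ s, (cpy (L.A x) ε s).z i' = L.pos u + (if s then 1 else 0) * ε := by
        intro s
        show (L.A x).z i' + dl s (L.A x).n i' * ε = _
        rw [hu1.eq]
        rcases hu1 with ⟨h, _⟩ | ⟨h, _⟩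
        · rw [h, dl_zero]
        · rw [h, dl_last]
      have e2 : ∀ t, (cpy (L.A y) ε t).z j' = L.pos u + (if t then 1 else 0) * ε := by
        intro s
        show (L.A y).z j' + dl s (L.A y).n j' * ε = _
        rw [hu2.eq]
        rcases hu2 with ⟨h, _⟩ | ⟨h, _⟩
        · rw [h, dl_zero]
        · rw [h, dl_last]
      have hI : ∀ s t, I s t (i, j) → Inter (L.pos u + (if s then 1 else 0) * ε)
          ((cpy (L.A x) ε s).z i'') (L.pos u + (if t then 1 else 0) * ε)
          ((cpy (L.A y) ε t).z j'') := by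
        rintro s t ⟨_, h⟩
        simp only at h
        rw [c3, d3, e1, e2] at h
        exact h
      have n1 : ∀ s, ¬ I s s (i, j) := by
        intro s h
        exact not_inter_same (hI s s h)
      have n2 : ¬ (I false true (i, j) ∧ I true false (i, j)) := by
        rintro ⟨h1, h2⟩
        have h1' := hI _ _ h1
        have h2' := hI _ _ h2
        simp only [if_true, if_false, Bool.false_eq_true] at h1' h2'
        exact hg.excl (L.pos_mem u) (L.z_mem (by omega)) (L.z_mem (by omega)) hab hap hbp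
          (abs_dl false (L.A x).n i'') (abs_dl true (L.A x).n i'') (abs_dl true (L.A y).n j'')
          (abs_dl false (L.A y).n j'') h1' h2'
      simp only [Fintype.sum_bool]
      rw [if_neg (n1 true), if_neg (n1 false)]
      by_cases h1 : I false true (i, j)
      · have h2 : ¬ I true false (i, j) := fun h => n2 ⟨h1, h⟩
        rw [if_pos h1, if_neg h2]
        omega
      · rw [if_neg h1]
        split_ifs <;> omega
    · rw [if_neg hS]
      have hne : ∀ i' j', (i' = i ∨ i' = i + 1) → (j' = j ∨ j' = j + 1) →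
          (L.A x).z i' ≠ (L.A y).z j' := fun i' j' h1 h2 h => hS ⟨i', j', h1, h2, h⟩
      have hIJ : ∀ s t, I s t (i, j) ↔ J (i, j) := by
        intro s t
        have h := hg.inter_iff (L.z_mem (k := x) (i := i) (by omega))
          (L.z_mem (k := x) (i := i + 1) (by omega))
          (L.z_mem (k := y) (i := j) (by omega)) (L.z_mem (k := y) (i := j + 1) (by omega))
          (hne _ _ (Or.inl rfl) (Or.inl rfl)) (hne _ _ (Or.inl rfl) (Or.inr rfl))
          (hne _ _ (Or.inr rfl) (Or.inl rfl)) (hne _ _ (Or.inr rfl) (Or.inr rfl))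
          (abs_dl s (L.A x).n i) (abs_dl s (L.A x).n (i + 1)) (abs_dl t (L.A y).n j)
          (abs_dl t (L.A y).n (j + 1))
        exact and_congr_right fun _ => h
      simp only [hIJ, Fintype.sum_bool]
      split_ifs <;> omega
  calc ∑ s : Bool, ∑ t : Bool, (cpy (L.A x) ε s).X (cpy (L.A y) ε t)
      = ∑ p ∈ R, ∑ s : Bool, ∑ t : Bool, (if I s t p then 1 else 0) := by
        simp only [hX]
        rw [Finset.sum_comm]
        simp only [Fintype.sum_bool, Finset.sum_add_distrib]
        ring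
    _ ≤ ∑ p ∈ R, (4 * (if J p then 1 else 0) + if L.Shr x y p then 1 else 0) :=
        Finset.sum_le_sum hpt
    _ = 4 * (L.A x).X (L.A y) + (R.filter (L.Shr x y)).card := by
        rw [Finset.sum_add_distrib, ← Finset.mul_sum, ← hX0, Finset.card_filter]
    _ ≤ _ := Nat.add_le_add_left (L.card_shr hxy) _

end Lay

end Pool.Agent.Lib.MP_c258d4_co
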