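import Pool.Agent.Lib.MP_c258d4_co.Recur
import Pool.Agent.Lib.MP_266831_co.Top
import Pool.Agent.Lib.MP_266831_co.UpperMono

/-!
# The crossing number of the hypercube
-/

set_option autoImplicit false

namespace Pool.Agent.Lib.MP_c258d4_co

open Pool.Agent.Lib.MP_266831_co Pool.Agent.Lib.MP_266831_co.Upper Filter Topology

/-- The `n`-dimensional hypercube graph: the vertices are the `0`-`1`-sequences of length `n`, two of them
are adjacent if they differ in exactly one coordinate. -/
def hypercube (n : ℕ) : SimpleGraph (Fin n → Bool) where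
  Adj x y := ∃! i, x i ≠ y i
  symm := ⟨fun x y h => by
    obtain ⟨i, h1, h2⟩ := h
    exact ⟨i, h1.symm, fun j hj => h2 j hj.symm⟩⟩
  loopless := ⟨fun x h => by
    obtain ⟨i, h1, _⟩ := h
    exact h1 rfl⟩

section map

variable {V W κ : Type} {G : SimpleGraph V} {H : SimpleGraph W}

/-- transport of an enumeration along an isomorphism -/
def Ends.map (E : Ends V κ G) (φ : V ≃ W) (h : ∀ u v, G.Adj u v ↔ H.Adj (φ u) (φ v)) :
    Ends W κ H where
  a k := φ (E.a k)
  b k := φ (E.b k)
  adj k := (h _ _).1 (E.adj k)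
  surj u v huv := by
    obtain ⟨k, hk⟩ := E.surj (φ.symm u) (φ.symm v) ((h _ _).2 (by simpa using huv))
    refine ⟨k, ?_⟩
    have := congrArg (Sym2.map φ) hk
    simpa using this
  inj k l hkl := by
    apply E.inj
    have := congrArg (Sym2.map φ.symm) hkl
    simpa using this

lemma Ends.map_Sh (E : Ends V κ G) (φ : V ≃ W) (h : ∀ u v, G.Adj u v ↔ H.Adj (φ u) (φ v)) (x y : κ) :
    (E.map φ h).Sh x y ↔ E.Sh x y := by
  constructor
  · rintro ⟨u, h1, h2⟩
    refine ⟨φ.symm u, ?_, ?_⟩
    · simp only [Ends.map, Sym2.mem_iff] at h1 ⊢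
      rcases h1 with h1 | h1
      · left; rw [h1]; simp
      · right; rw [h1]; simp
    · simp only [Ends.map, Sym2.mem_iff] at h2 ⊢
      rcases h2 with h2 | h2
      · left; rw [h2]; simp
      · right; rw [h2]; simp
  · rintro ⟨u, h1, h2⟩
    refine ⟨φ u, ?_, ?_⟩
    · simp only [Ends.map, Sym2.mem_iff] at h1 ⊢
      rcases h1 with h1 | h1
      · left; rw [h1]
      · right; rw [h1]
    · simp only [Ends.map, Sym2.mem_iff] at h2 ⊢
      rcases h2 with h2 | h2
      · left; rw [h2]
      · right; rw [h2]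

lemma Ends.map_shCount [Fintype κ] (E : Ends V κ G) (φ : V ≃ W)
    (h : ∀ u v, G.Adj u v ↔ H.Adj (φ u) (φ v)) : (E.map φ h).shCount = E.shCount := by
  classical
  unfold Ends.shCount
  congr 1
  funext x y
  exact if_congr (E.map_Sh φ h x y) rfl rfl

end map

/-- the first coordinate and the others -/
def splitEquiv (n : ℕ) : (Fin n → Bool) × Bool ≃ (Fin (n + 1) → Bool) where
  toFun x := Fin.cons x.2 x.1
  invFun y := (Fin.tail y, y 0)
  left_inv x := by simp
  right_inv y := by simp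

lemma split_adj (n : ℕ) (u v : (Fin n → Bool) × Bool) :
    (dbl (hypercube n)).Adj u v ↔ (hypercube (n + 1)).Adj (splitEquiv n u) (splitEquiv n v) := by
  obtain ⟨x, s⟩ := u
  obtain ⟨y, t⟩ := v
  show ((∃! i, x i ≠ y i) ∧ s = t) ∨ (x = y ∧ s ≠ t) ↔
    ∃! i : Fin (n + 1), (Fin.cons s x : Fin (n + 1) → Bool) i ≠ (Fin.cons t y : Fin (n + 1) → Bool) i
  constructor
  · rintro (⟨⟨i, h1, h2⟩, rfl⟩ | ⟨rfl, h⟩)
    · refine ⟨i.succ, by simpa using h1, ?_⟩
      intro j hj
      refine Fin.cases ?_ (fun j => ?_) j hj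
      · intro h; simp at h
      · intro h
        rw [h2 j (by simpa using h)]
    · refine ⟨0, by simpa using h, ?_⟩
      intro j hj
      refine Fin.cases ?_ (fun j => ?_) j hj
      · intro _; rfl
      · intro h; simp at h
  · rintro ⟨i, h1, h2⟩
    by_cases hst : s = t
    · left
      refine ⟨?_, hst⟩
      subst hst
      revert h1 h2
      refine Fin.cases ?_ (fun i => ?_) i
      · intro h; simp at h
      · intro h1 h2
        refine ⟨i, by simpa using h1, fun j hj => ?_⟩
        exact Fin.succ_injective _ (h2 j.succ (by simpa using hj))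
    · right
      refine ⟨?_, hst⟩
      funext j
      by_contra hj
      have e1 := h2 0 (by simpa using hst)
      have e2 := h2 j.succ (by simpa using hj)
      rw [← e1] at e2
      exact Fin.succ_ne_zero j e2

lemma exists_ends (n : ℕ) : ∃ (κ : Type) (_ : Fintype κ) (E : Ends (Fin n → Bool) κ (hypercube n)),
    2 * Fintype.card κ = n * 2 ^ n ∧ E.shCount ≤ n * (n - 1) * 2 ^ n := by
  induction n with
  | zero =>
    refine ⟨Empty, inferInstance, ⟨Empty.elim, Empty.elim, fun k => k.elim, ?_, fun k => k.elim⟩,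
      by simp, ?_⟩
    · rintro u v ⟨i, _⟩
      exact i.elim0
    · simp [Ends.shCount, ordSum]
  | succ n ih =>
    obtain ⟨κ, _, E, h1, h2⟩ := ih
    refine ⟨(κ × Bool) ⊕ (Fin n → Bool), inferInstance, E.dbl.map (splitEquiv n) (split_adj n), ?_, ?_⟩
    · rw [Fintype.card_sum, Fintype.card_prod, Fintype.card_bool, Fintype.card_fun,
        Fintype.card_bool, Fintype.card_fin, pow_succ]
      nlinarith
    · rw [Ends.map_shCount]
      refine (shCount_dbl E).trans ?_
      have h3 : 2 * E.shCount + 8 * Fintype.card κ ≤ 2 * (n * (n - 1) * 2 ^ n) + 4 * (n * 2 ^ n) := by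
        rw [← h1]; omega
      refine h3.trans (le_of_eq ?_)
      rcases n with _ | m
      · simp
      · rw [Nat.add_sub_cancel, Nat.add_sub_cancel, pow_succ 2 (m + 1)]
        ring

lemma cr_cube_zero : cr (hypercube 0) = 0 := by
  have E : Ends (Fin 0 → Bool) Empty (hypercube 0) :=
    ⟨Empty.elim, Empty.elim, fun k => k.elim, by rintro u v ⟨i, _⟩; exact i.elim0, fun k => k.elim⟩
  let L : Lay E :=
    { pos := fun _ => 0
      pos_inj := fun _ _ _ => Subsingleton.elim _ _
      A := Empty.elim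
      z_zero := fun k => k.elim
      z_last := fun k => k.elim
      good := fun k => k.elim
      z_ne := fun k => k.elim
      z_ne_z := fun k => k.elim }
  have h := L.cr_le (ι := Empty.elim) (fun k => k.elim)
  rw [Finset.sum_eq_zero (fun x _ => x.1.elim)] at h
  exact le_antisymm h zero_le

/-- The recursion for the crossing numbers. -/
theorem exists_c : ∃ c : ℕ → ℕ, (∀ n, crTop (hypercube n) = c n) ∧
    ∀ n, 2 * c (n + 1) ≤ 8 * c n + n ^ 2 * 2 ^ n := by
  have step : ∀ n (c : ℕ), cr (hypercube n) ≤ c →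
      2 * cr (hypercube (n + 1)) ≤ ((8 * c + n ^ 2 * 2 ^ n : ℕ) : ℕ∞) := by
    intro n c hc
    obtain ⟨κ, _, E, h1, h2⟩ := exists_ends n
    have h3 : cr (hypercube (n + 1)) ≤ cr (dbl (hypercube n)) := by
      refine cr_le_of_hom (splitEquiv n).symm (splitEquiv n).symm.injective fun a b hab => ?_
      rw [split_adj]
      simpa using hab
    calc 2 * cr (hypercube (n + 1)) ≤ 2 * cr (dbl (hypercube n)) := by gcongr
      _ ≤ ((8 * c + E.shCount + 2 * Fintype.card κ : ℕ) : ℕ∞) := cr_dbl_le E hc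
      _ ≤ _ := by
        refine Nat.cast_le.2 ?_
        have h4 : n * (n - 1) * 2 ^ n + n * 2 ^ n = n ^ 2 * 2 ^ n := by
          rcases n with _ | m
          · simp
          · rw [Nat.add_sub_cancel]; ring
        omega
  have fin : ∀ n, ∃ c : ℕ, cr (hypercube n) = c := by
    intro n
    induction n with
    | zero => exact ⟨0, by rw [cr_cube_zero]; rfl⟩
    | succ n ih =>
      obtain ⟨c, hc⟩ := ih
      have h := step n c hc.le
      have h1 : cr (hypercube (n + 1)) ≠ ⊤ := by
        intro htop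
        rw [htop] at h
        have : (2 : ℕ∞) * ⊤ = ⊤ := by rw [ENat.mul_top]; norm_num
        rw [this] at h
        exact absurd (top_le_iff.1 h) (ENat.natCast_ne_top _)
      exact ⟨(cr (hypercube (n + 1))).toNat, (ENat.natCast_toNat h1).symm⟩
  choose c hc using fin
  refine ⟨c, fun n => by rw [← cr_eq_crTop, hc], fun n => ?_⟩
  have h := step n (c n) (hc n).le
  rw [hc (n + 1)] at h
  exact_mod_cast h

/-- The recursion in terms of `crTop`. -/
theorem crTop_succ_le (n : ℕ) :
    2 * crTop (hypercube (n + 1)) ≤ 8 * crTop (hypercube n) + ((n ^ 2 * 2 ^ n : ℕ) : ℕ∞) := by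
  obtain ⟨c, hc, hrec⟩ := exists_c
  rw [hc, hc]
  exact_mod_cast hrec n

/-- **The limit exists.** -/
theorem exists_limit : (∀ n, crTop (hypercube n) ≠ ⊤) ∧ ∃ L : ℝ,
    Tendsto (fun n : ℕ => ((crTop (hypercube n)).toNat : ℝ) / 4 ^ n) atTop (𝓝 L) ∧
    IsGLB (Set.range fun n : ℕ => ((crTop (hypercube n)).toNat : ℝ) / 4 ^ n +
      ((n : ℝ) ^ 2 + 2 * n + 3) / 2 ^ (n + 2)) L := by
  obtain ⟨c, hc, hrec⟩ := exists_c
  refine ⟨fun n => by rw [hc]; exact ENat.natCast_ne_top _, ?_⟩
  simp only [hc, ENat.toNat_natCast]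
  set e : ℕ → ℝ := fun n => ((n : ℝ) ^ 2 + 2 * n + 3) / 2 ^ (n + 2) with he
  set U : ℕ → ℝ := fun n => (c n : ℝ) / 4 ^ n + e n with hU
  have hanti : Antitone U := by
    refine antitone_nat_of_succ_le fun n => ?_
    have h1 : (2 : ℝ) * c (n + 1) ≤ 8 * c n + (n : ℝ) ^ 2 * 2 ^ n := by exact_mod_cast hrec n
    have h4 : (4 : ℝ) ^ n = 2 ^ n * 2 ^ n := by
      rw [← mul_pow]; norm_num
    have h2 : (0 : ℝ) < 2 ^ n := by positivity
    simp only [hU, he]
    rw [pow_succ 4, pow_succ 2 (n + 1 + 1), pow_add 2 n 2, h4]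
    have e1 : (c (n + 1) : ℝ) / (2 ^ n * 2 ^ n * 4) ≤
        (8 * c n + (n : ℝ) ^ 2 * 2 ^ n) / (2 * (2 ^ n * 2 ^ n * 4)) := by
      rw [div_le_div_iff₀ (by positivity) (by positivity)]
      nlinarith [mul_pos h2 h2]
    refine (add_le_add_left e1 _).trans (le_of_eq ?_)
    push_cast
    field_simp
    ring
  have he0 : Tendsto e atTop (𝓝 0) := by
    have h1 : ∀ k : ℕ, Tendsto (fun n : ℕ => (n : ℝ) ^ k * (1 / 2) ^ n) atTop (𝓝 0) := fun k =>
      tendsto_pow_const_mul_const_pow_of_lt_one k (by norm_num) (by norm_num)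
    have h2 := (((h1 2).const_mul (1 / 4 : ℝ)).add ((h1 1).const_mul (1 / 2 : ℝ))).add
      ((h1 0).const_mul (3 / 4 : ℝ))
    simp only [mul_zero, add_zero] at h2
    refine h2.congr fun n => ?_
    simp only [he]
    have e3 : ((1 : ℝ) / 2) ^ n = 1 / 2 ^ n := by rw [one_div, inv_pow, one_div]
    rw [pow_add, e3]
    field_simp
    ring
  have hbdd : BddBelow (Set.range U) := by
    refine ⟨0, ?_⟩
    rintro _ ⟨n, rfl⟩
    simp only [hU, he]
    positivity
  have hUlim : Tendsto U atTop (𝓝 (⨅ n, U n)) := tendsto_atTop_ciInf hanti hbdd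
  refine ⟨⨅ n, U n, ?_, isGLB_ciInf hbdd⟩
  have := hUlim.sub he0
  rw [sub_zero] at this
  refine this.congr fun n => ?_
  simp only [hU]
  ring

end Pool.Agent.Lib.MP_c258d4_co
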