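import Pool.Agent.Lib.MP_c258d4_co.Lay
import Pool.Agent.Lib.MP_266831_co.UpperBlow

/-!
# Doubling an axis layout

From an axis layout of `G` we construct an axis layout of the prism `G □ K₂`: every path is doubled by a
parallel path, every vertex by a neighbouring vertex.
-/

set_option autoImplicit false

namespace Pool.Agent.Lib.MP_c258d4_co

open Pool.Agent.Lib.MP_266831_co Pool.Agent.Lib.MP_266831_co.Upper

variable {V κ : Type} {G : SimpleGraph V}

/-- The prism `G □ K₂`. -/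
def dbl (G : SimpleGraph V) : SimpleGraph (V × Bool) where
  Adj x y := (G.Adj x.1 y.1 ∧ x.2 = y.2) ∨ (x.1 = y.1 ∧ x.2 ≠ y.2)
  symm := ⟨fun x y h => by
    rcases h with ⟨h1, h2⟩ | ⟨h1, h2⟩
    · exact Or.inl ⟨h1.symm, h2.symm⟩
    · exact Or.inr ⟨h1.symm, h2.symm⟩⟩
  loopless := ⟨fun x h => by
    rcases h with ⟨h1, _⟩ | ⟨_, h2⟩
    · exact G.loopless.irrefl _ h1
    · exact h2 rfl⟩

/-- The enumeration of the edges of the prism. -/
def Ends.dbl (E : Ends V κ G) : Ends (V × Bool) ((κ × Bool) ⊕ V) (dbl G) where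
  a := Sum.elim (fun k => (E.a k.1, k.2)) (fun v => (v, false))
  b := Sum.elim (fun k => (E.b k.1, k.2)) (fun v => (v, true))
  adj := by
    rintro (⟨k, s⟩ | v)
    · exact Or.inl ⟨E.adj k, rfl⟩
    · exact Or.inr ⟨rfl, by simp⟩
  surj := by
    rintro ⟨u, s⟩ ⟨v, t⟩ (⟨h1, h2⟩ | ⟨h1, h2⟩)
    · simp only at h1 h2
      subst h2
      obtain ⟨k, hk⟩ := E.surj u v h1
      refine ⟨Sum.inl (k, s), ?_⟩
      rw [Sym2.eq_iff] at hk ⊢
      simp only [Sum.elim_inl, Prod.mk.injEq, and_true]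
      exact hk
    · simp only at h1 h2
      subst h1
      refine ⟨Sum.inr u, ?_⟩
      rw [Sym2.eq_iff]
      simp only [Sum.elim_inr, Prod.mk.injEq, true_and]
      cases s <;> cases t <;> simp_all
  inj := by
    rintro (⟨k, s⟩ | v) (⟨l, t⟩ | w) h
    · rw [Sym2.eq_iff] at h
      simp only [Sum.elim_inl, Prod.mk.injEq] at h
      have hst : s = t := by
        rcases h with ⟨⟨_, h2⟩, _⟩ | ⟨⟨_, h2⟩, _⟩ <;> exact h2
      have hkl : k = l := by
        apply E.inj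
        rw [Sym2.eq_iff]
        rcases h with ⟨⟨h1, _⟩, h3, _⟩ | ⟨⟨h1, _⟩, h3, _⟩
        · exact Or.inl ⟨h1, h3⟩
        · exact Or.inr ⟨h1, h3⟩
      rw [hst, hkl]
    · exfalso
      rw [Sym2.eq_iff] at h
      simp only [Sum.elim_inl, Sum.elim_inr, Prod.mk.injEq] at h
      rcases h with ⟨⟨h1, _⟩, h3, _⟩ | ⟨⟨h1, _⟩, h3, _⟩
      · exact E.ne k (h1.trans h3.symm)
      · exact E.ne k (h1.trans h3.symm)
    · exfalso
      rw [Sym2.eq_iff] at h
      simp only [Sum.elim_inl, Sum.elim_inr, Prod.mk.injEq] at h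
      rcases h with ⟨⟨h1, _⟩, h3, _⟩ | ⟨⟨h1, _⟩, h3, _⟩
      · exact E.ne l (h1.symm.trans h3)
      · exact E.ne l (h3.symm.trans h1)
    · rw [Sym2.eq_iff] at h
      simp only [Sum.elim_inr, Prod.mk.injEq] at h
      rcases h with ⟨⟨h1, _⟩, _⟩ | ⟨⟨h1, _⟩, _⟩ <;> rw [h1]

/-! ### Perturbations -/

/-- the sign of the displacement of the `i`-th axis point -/
def sg (n i : ℕ) : ℝ := if i = n + 1 then 1 else if Even i then 1 else -1

/-- the displacement of the `i`-th axis point in the copy `s` -/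
def dl (s : Bool) (n i : ℕ) : ℝ := if s then sg n i else 0

lemma sg_cases (n i : ℕ) : sg n i = 1 ∨ sg n i = -1 := by
  unfold sg; split_ifs <;> simp

lemma abs_dl (s : Bool) (n i : ℕ) : |dl s n i| ≤ 1 := by
  unfold dl
  split_ifs
  · rcases sg_cases n i with h | h <;> rw [h] <;> norm_num
  · norm_num

lemma dl_zero (s : Bool) (n : ℕ) : dl s n 0 = if s then 1 else 0 := by
  unfold dl sg; simp

lemma dl_last (s : Bool) (n : ℕ) : dl s n (n + 1) = if s then 1 else 0 := by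
  unfold dl sg; simp

lemma dl_true_ne (n i : ℕ) : dl true n i ≠ 0 := by
  unfold dl
  rcases sg_cases n i with h | h <;> simp [h]

lemma dl_succ {n i : ℕ} (hi : i < n) : dl true n (i + 1) = - dl true n i := by
  unfold dl sg
  have h1 : i + 1 ≠ n + 1 := by omega
  have h2 : i ≠ n + 1 := by omega
  simp only [h1, h2, if_false, if_true, Nat.even_add_one]
  by_cases h : Even i <;> simp [h]

/-- the copy `s` of a path -/
def cpy (A : AxisPath) (ε : ℝ) (s : Bool) : AxisPath :=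
  ⟨A.n, fun i => A.z i + dl s A.n i * ε, A.up⟩

lemma cpy_side (A : AxisPath) (ε : ℝ) (s : Bool) (i : ℕ) : (cpy A ε s).side i = A.side i := rfl

/-- `ε` is small compared with the gaps of `Z` -/
structure Gap (Z : Set ℝ) (ε : ℝ) : Prop where
  pos : 0 < ε
  gap : ∀ p ∈ Z, ∀ q ∈ Z, p < q → p + 2 * ε < q

lemma exists_gap {Z : Set ℝ} (hZ : Z.Finite) : ∃ ε, Gap Z ε := by
  have h : ∀ᶠ ε in nhdsWithin (0 : ℝ) (Set.Ioi 0),
      0 < ε ∧ ∀ p ∈ Z, ∀ q ∈ Z, p < q → p + 2 * ε < q := by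
    refine Filter.Eventually.and self_mem_nhdsWithin ?_
    rw [Filter.eventually_all_finite hZ]
    intro p _
    rw [Filter.eventually_all_finite hZ]
    intro q _
    by_cases hpq : p < q
    · have ht : Filter.Tendsto (fun ε : ℝ => p + 2 * ε) (nhdsWithin 0 (Set.Ioi 0)) (nhds (p + 2 * 0)) :=
        (Continuous.tendsto (by fun_prop) 0).mono_left nhdsWithin_le_nhds
      rw [mul_zero, add_zero] at ht
      filter_upwards [ht.eventually_lt_const hpq] with ε hε _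
      exact hε
    · exact Filter.Eventually.of_forall fun ε h => absurd h hpq
  obtain ⟨ε, h1, h2⟩ := h.exists
  exact ⟨ε, h1, h2⟩

section gap

variable {Z : Set ℝ} {ε : ℝ} (hg : Gap Z ε)

include hg

lemma Gap.lt_of_lt {p q c d : ℝ} (hp : p ∈ Z) (hq : q ∈ Z) (hpq : p < q) (hc : |c| ≤ 1)
    (hd : |d| ≤ 1) : p + c * ε < q + d * ε := by
  have h1 := hg.gap p hp q hq hpq
  have h2 := (abs_le.1 hc).2
  have h3 := (abs_le.1 hd).1
  have h4 := hg.pos
  nlinarith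

lemma Gap.lt_iff {p q c d : ℝ} (hp : p ∈ Z) (hq : q ∈ Z) (hpq : p ≠ q) (hc : |c| ≤ 1)
    (hd : |d| ≤ 1) : p + c * ε < q + d * ε ↔ p < q := by
  constructor
  · intro h
    rcases lt_or_gt_of_ne hpq with h1 | h1
    · exact h1
    · exact absurd h (not_lt.2 (hg.lt_of_lt hq hp h1 hd hc).le)
  · exact fun h => hg.lt_of_lt hp hq h hc hd

lemma Gap.ne {p q c d : ℝ} (hp : p ∈ Z) (hq : q ∈ Z) (hpq : p ≠ q) (hc : |c| ≤ 1)
    (hd : |d| ≤ 1) : p + c * ε ≠ q + d * ε := by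
  rcases lt_or_gt_of_ne hpq with h1 | h1
  · exact (hg.lt_of_lt hp hq h1 hc hd).ne
  · exact (hg.lt_of_lt hq hp h1 hd hc).ne'

/-- Interleaving is stable under perturbation if there is no common end. -/
lemma Gap.inter_iff {a b c d a' b' c' d' : ℝ} (ha : a ∈ Z) (hb : b ∈ Z) (hc : c ∈ Z) (hd : d ∈ Z)
    (hac : a ≠ c) (had : a ≠ d) (hbc : b ≠ c) (hbd : b ≠ d) (ha' : |a'| ≤ 1) (hb' : |b'| ≤ 1)
    (hc' : |c'| ≤ 1) (hd' : |d'| ≤ 1) :
    Inter (a + a' * ε) (b + b' * ε) (c + c' * ε) (d + d' * ε) ↔ Inter a b c d := by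
  rw [Upper.inter_iff, Upper.inter_iff, hg.lt_iff ha hc hac ha' hc', hg.lt_iff ha hd had ha' hd',
    hg.lt_iff hb hc hbc hb' hc', hg.lt_iff hb hd hbd hb' hd', hg.lt_iff hc ha hac.symm hc' ha',
    hg.lt_iff hc hb hbc.symm hc' hb', hg.lt_iff hd ha had.symm hd' ha',
    hg.lt_iff hd hb hbd.symm hd' hb']

end gap

lemma inter_swap_left {a b c d : ℝ} : Inter a b c d ↔ Inter b a c d := by
  unfold Pool.Agent.Lib.MP_266831_co.Inter; rw [min_comm a b, max_comm a b]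

lemma inter_swap_right {a b c d : ℝ} : Inter a b c d ↔ Inter a b d c := by
  unfold Pool.Agent.Lib.MP_266831_co.Inter; rw [min_comm c d, max_comm c d]

lemma inter_comm {a b c d : ℝ} : Inter a b c d ↔ Inter c d a b := by
  unfold Pool.Agent.Lib.MP_266831_co.Inter; exact or_comm

lemma not_inter_same {a b d : ℝ} : ¬ Inter a b a d := by
  rw [Upper.inter_iff]
  unfold IG
  simp only [lt_self_iff_false, false_or]
  intro h
  rcases lt_trichotomy a b with h1 | h1 | h1 <;> rcases lt_trichotomy a d with h2 | h2 | h2 <;>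
    simp [h1, h2, not_lt.2 h1.le, not_lt.2 h2.le] at h <;> linarith

/-- An end of one of two interleaving intervals lies strictly inside the other. -/
lemma exists_between {a b c d : ℝ} (h : Inter a b c d) :
    (min a b < c ∧ c < max a b) ∨ (min a b < d ∧ d < max a b) := by
  rcases h with ⟨h1, h2, _⟩ | ⟨_, h2, h3⟩
  · rcases min_choice c d with h4 | h4
    · rw [h4] at h1 h2; exact Or.inl ⟨h1, h2⟩
    · rw [h4] at h1 h2; exact Or.inr ⟨h1, h2⟩
  · rcases max_choice c d with h4 | h4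
    · rw [h4] at h2 h3; exact Or.inl ⟨h2, h3⟩
    · rw [h4] at h2 h3; exact Or.inr ⟨h2, h3⟩

/-- The two mixed pairs at a common vertex do not both interleave. -/
lemma Gap.excl {Z : Set ℝ} {ε : ℝ} (hg : Gap Z ε) {p α β c c' d d' : ℝ} (hp : p ∈ Z) (hα : α ∈ Z)
    (hβ : β ∈ Z) (h1 : α ≠ β) (h2 : α ≠ p) (h3 : β ≠ p) (hc : |c| ≤ 1) (hc' : |c'| ≤ 1)
    (hd : |d| ≤ 1) (hd' : |d'| ≤ 1)
    (hI : Inter (p + 0 * ε) (α + c * ε) (p + 1 * ε) (β + d * ε))
    (hJ : Inter (p + 1 * ε) (α + c' * ε) (p + 0 * ε) (β + d' * ε)) : False := by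
  have a0 : |(0 : ℝ)| ≤ 1 := by norm_num
  have a1 : |(1 : ℝ)| ≤ 1 := by norm_num
  have e0 : p + 0 * ε < p + 1 * ε := by have := hg.pos; linarith
  have e1 : ¬ (p + 1 * ε < p + 0 * ε) := not_lt.2 e0.le
  rw [Upper.inter_iff, hg.lt_iff hp hβ h3.symm a0 hd, hg.lt_iff hα hp h2 hc a1,
    hg.lt_iff hα hβ h1 hc hd, hg.lt_iff hp hα h2.symm a1 hc, hg.lt_iff hβ hp h3 hd a0,
    hg.lt_iff hβ hα h1.symm hd hc] at hI
  rw [Upper.inter_iff, hg.lt_iff hp hβ h3.symm a1 hd', hg.lt_iff hα hp h2 hc' a0,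
    hg.lt_iff hα hβ h1 hc' hd', hg.lt_iff hp hα h2.symm a0 hc', hg.lt_iff hβ hp h3 hd' a1,
    hg.lt_iff hβ hα h1.symm hd' hc'] at hJ
  simp only [e0, e1, IG] at hI hJ
  rcases lt_or_gt_of_ne h1 with h1 | h1 <;> rcases lt_or_gt_of_ne h2 with h2 | h2 <;>
    rcases lt_or_gt_of_ne h3 with h3 | h3 <;>
    simp [h1, h2, h3, not_lt.2 h1.le, not_lt.2 h2.le, not_lt.2 h3.le] at hI hJ <;> linarith

/-- A path and its parallel copy: nested pieces do not interleave. -/
lemma Gap.not_inter_nested {Z : Set ℝ} {ε : ℝ} (hg : Gap Z ε) {p q c : ℝ} (hp : p ∈ Z) (hq : q ∈ Z)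
    (hpq : p ≠ q) (hc : |c| ≤ 1) : ¬ Inter p q (p + c * ε) (q + (-c) * ε) := by
  have a0 : |(0 : ℝ)| ≤ 1 := by norm_num
  have hc' : |(-c)| ≤ 1 := by rw [abs_neg]; exact hc
  have hε := hg.pos
  have key : ∀ p q c : ℝ, p ∈ Z → q ∈ Z → p < q → |c| ≤ 1 → ¬ Inter p q (p + c * ε) (q + (-c) * ε) := by
    intro p q c hp hq hpq hc h
    have hc' : |(-c)| ≤ 1 := by rw [abs_neg]; exact hc
    have h1 := hg.lt_of_lt hp hq hpq hc hc'
    unfold Pool.Agent.Lib.MP_266831_co.Inter at h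
    rw [min_eq_left hpq.le, max_eq_right hpq.le, min_eq_left h1.le, max_eq_right h1.le] at h
    rcases h with ⟨a, _, b⟩ | ⟨a, _, b⟩ <;> linarith
  rcases lt_or_gt_of_ne hpq with h | h
  · exact key p q c hp hq h hc
  · intro hI
    rw [inter_swap_left, inter_swap_right] at hI
    have := key q p (-c) hq hp h hc'
    rw [neg_neg] at this
    exact this hI

end Pool.Agent.Lib.MP_c258d4_co
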