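import Pool.Agent.Lib.MP_266831_co.UpperArc
import Pool.Agent.Lib.MP_266831_co.Geom
import Pool.Agent.Lib.MP_266831_co.Core

/-!
# Axis layouts of arbitrary finite graphs

An enumeration `Ends` of the edges of a graph, axis layouts, and the passage between layouts and
polygonal drawings in both directions (with control of the number of crossings).
-/

set_option autoImplicit false

namespace Pool.Agent.Lib.MP_c258d4_co

open Pool.Agent.Lib.MP_266831_co Pool.Agent.Lib.MP_266831_co.Upper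

/-- An enumeration of the edges of `G` by an index type `κ`, with a choice of orientations. -/
structure Ends (V κ : Type) (G : SimpleGraph V) where
  a : κ → V
  b : κ → V
  adj : ∀ k, G.Adj (a k) (b k)
  surj : ∀ u v, G.Adj u v → ∃ k, s(u, v) = s(a k, b k)
  inj : ∀ k l, s(a k, b k) = s(a l, b l) → k = l

variable {V κ : Type} {G : SimpleGraph V}

namespace Ends

variable (E : Ends V κ G)

lemma mem_edgeSet {e : Sym2 V} : e ∈ G.edgeSet ↔ ∃ k, e = s(E.a k, E.b k) := by
  constructor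
  · intro h
    induction e with
    | _ u v => exact E.surj u v h
  · rintro ⟨k, rfl⟩
    exact E.adj k

lemma ne (k : κ) : E.a k ≠ E.b k := (E.adj k).ne

end Ends

/-- An axis layout of `G`. -/
structure Lay (E : Ends V κ G) where
  pos : V → ℝ
  pos_inj : Function.Injective pos
  A : κ → AxisPath
  z_zero : ∀ k, (A k).z 0 = pos (E.a k)
  z_last : ∀ k, (A k).z ((A k).n + 1) = pos (E.b k)
  good : ∀ k, Good (A k)
  z_ne : ∀ k i, 1 ≤ i → i ≤ (A k).n → ∀ v, (A k).z i ≠ pos v
  z_ne_z : ∀ k l, k ≠ l → ∀ i, 1 ≤ i → i ≤ (A k).n → ∀ j, 1 ≤ j → j ≤ (A l).n →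
    (A k).z i ≠ (A l).z j

namespace Lay

variable {E : Ends V κ G} (L : Lay E)

open Classical in
/-- the arcs of the drawing -/
noncomputable def arc (e : Sym2 V) : ℝ → ℝ × ℝ :=
  if H : ∃ k : κ, e = s(E.a k, E.b k) then arcFun (L.A H.choose) else fun _ => 0

lemma arc_eq (k : κ) : L.arc s(E.a k, E.b k) = arcFun (L.A k) := by
  have H : ∃ l : κ, s(E.a k, E.b k) = s(E.a l, E.b l) := ⟨k, rfl⟩
  have := H.choose_spec
  rw [arc, dif_pos H, ← E.inj _ _ this]

/-- the drawing of a layout -/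
noncomputable def drawing : Drawing G where
  pt v := (L.pos v, 0)
  pt_injective u v h := L.pos_inj (congrArg Prod.fst h)
  arc := L.arc
  arc_poly e he := by
    obtain ⟨k, rfl⟩ := E.mem_edgeSet.1 he
    rw [L.arc_eq]
    exact arcFun_isPolyArc (L.good k)
  arc_ends e he := by
    obtain ⟨k, rfl⟩ := E.mem_edgeSet.1 he
    rw [L.arc_eq, arcFun_zero, arcFun_one, L.z_zero k, L.z_last k]
    rfl
  arc_avoid e he t ht v := by
    obtain ⟨x, rfl⟩ := E.mem_edgeSet.1 he
    rw [L.arc_eq]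
    rcases exists_rep (L.A x) ht.1 ht.2 with ⟨k, hk1, hk2, _, hp⟩ | ⟨k, f, hk, f0, f1, _, hp⟩
    · rw [hp]
      intro h
      exact L.z_ne x k hk1 hk2 v (congrArg Prod.fst h)
    · rw [hp]
      intro h
      exact piece_snd_ne_zero f0 f1 ((L.good x).ne hk) (congrArg Prod.snd h)

/-- the index `i` of the path of `k` belongs to the vertex `u` -/
def IsEnd (k : κ) (i : ℕ) (u : V) : Prop :=
  (i = 0 ∧ E.a k = u) ∨ (i = (L.A k).n + 1 ∧ E.b k = u)

variable {L} in
lemma IsEnd.eq {k : κ} {i : ℕ} {u : V} (h : L.IsEnd k i u) : (L.A k).z i = L.pos u := by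
  rcases h with ⟨rfl, h⟩ | ⟨rfl, h⟩
  · rw [L.z_zero, h]
  · rw [L.z_last, h]

variable {L} in
lemma IsEnd.mem {k : κ} {i : ℕ} {u : V} (h : L.IsEnd k i u) : u ∈ s(E.a k, E.b k) := by
  rcases h with ⟨-, h⟩ | ⟨-, h⟩
  · rw [← h]; exact Sym2.mem_mk_left _ _
  · rw [← h]; exact Sym2.mem_mk_right _ _

variable {L} in
lemma IsEnd.idx {k : κ} {i i' : ℕ} {u u' : V} (h : L.IsEnd k i u) (h' : L.IsEnd k i' u')
    (hu : u = u') : i = i' := by
  subst hu
  have hk := E.ne k
  rcases h with ⟨h1, h2⟩ | ⟨h1, h2⟩ <;> rcases h' with ⟨h3, h4⟩ | ⟨h3, h4⟩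
  · omega
  · exact absurd (h2.trans h4.symm) hk
  · exact absurd (h4.trans h2.symm) hk
  · omega

/-- axis points of a path are vertices only at its ends -/
lemma end_cases {x y : κ} (hxy : x ≠ y) {i j : ℕ} (hi : i ≤ (L.A x).n + 1)
    (hj : j ≤ (L.A y).n + 1) (h : (L.A x).z i = (L.A y).z j) :
    ∃ u, L.IsEnd x i u ∧ L.IsEnd y j u := by
  have hi' : i = 0 ∨ i = (L.A x).n + 1 ∨ (1 ≤ i ∧ i ≤ (L.A x).n) := by omega
  have hj' : j = 0 ∨ j = (L.A y).n + 1 ∨ (1 ≤ j ∧ j ≤ (L.A y).n) := by omega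
  have key : ∀ u u', L.IsEnd x i u → L.IsEnd y j u' → ∃ u, L.IsEnd x i u ∧ L.IsEnd y j u := by
    intro u u' hu hu'
    have : u = u' := L.pos_inj (by rw [← hu.eq, ← hu'.eq, h])
    exact ⟨u, hu, this ▸ hu'⟩
  rcases hi' with h0 | h0 | ⟨h1, h2⟩
  · rcases hj' with h0' | h0' | ⟨h3, h4⟩
    · exact key _ _ (Or.inl ⟨h0, rfl⟩) (Or.inl ⟨h0', rfl⟩)
    · exact key _ _ (Or.inl ⟨h0, rfl⟩) (Or.inr ⟨h0', rfl⟩)
    · rw [h0, L.z_zero] at h
      exact absurd h.symm (L.z_ne y j h3 h4 _)
  · rcases hj' with h0' | h0' | ⟨h3, h4⟩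
    · exact key _ _ (Or.inr ⟨h0, rfl⟩) (Or.inl ⟨h0', rfl⟩)
    · exact key _ _ (Or.inr ⟨h0, rfl⟩) (Or.inr ⟨h0', rfl⟩)
    · rw [h0, L.z_last] at h
      exact absurd h.symm (L.z_ne y j h3 h4 _)
  · rcases hj' with h0' | h0' | ⟨h3, h4⟩
    · rw [h0', L.z_zero] at h
      exact absurd h (L.z_ne x i h1 h2 _)
    · rw [h0', L.z_last] at h
      exact absurd h (L.z_ne x i h1 h2 _)
    · exact absurd h (L.z_ne_z x y hxy i h1 h2 j h3 h4)

/-- different edges have at most one common end -/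
lemma end_unique {x y : κ} (hxy : x ≠ y) {i i' j j' : ℕ} {u u' : V} (h1 : L.IsEnd x i u)
    (h2 : L.IsEnd y j u) (h3 : L.IsEnd x i' u') (h4 : L.IsEnd y j' u') : u = u' := by
  by_contra hne
  apply hxy
  apply E.inj
  have e1 : s(E.a x, E.b x) = s(u, u') := by
    have := h1.mem
    have h5 := h3.mem
    exact (Sym2.mem_and_mem_iff hne).1 ⟨this, h5⟩
  have e2 : s(E.a y, E.b y) = s(u, u') := (Sym2.mem_and_mem_iff hne).1 ⟨h2.mem, h4.mem⟩
  rw [e1, e2]

/-- `Q` is an interior point of the `k`-th tent of `A` and of the `l`-th tent of `B` -/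
def IsCommon (A B : AxisPath) (k l : ℕ) (Q : ℝ × ℝ) : Prop :=
  ∃ f g : ℝ, 0 < f ∧ f < 1 ∧ 0 < g ∧ g < 1 ∧ Q = piece A k f ∧ Q = piece B l g

lemma exists_common {x y : κ} (hxy : x ≠ y)
    {Q : ℝ × ℝ} (hQx : Q ∈ arcFun (L.A x) '' Set.Ioo 0 1) (hQy : Q ∈ arcFun (L.A y) '' Set.Ioo 0 1) :
    ∃ kl ∈ (L.A x).pairs (L.A y), IsCommon (L.A x) (L.A y) kl.1 kl.2 Q := by
  classical
  obtain ⟨t, ht, hQt⟩ := hQx
  obtain ⟨t', ht', hQt'⟩ := hQy
  rcases exists_rep (L.A x) ht.1 ht.2 with ⟨k, hk1, hk2, _, hp⟩ | ⟨k, f, hk, f0, f1, _, hp⟩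
  · rcases exists_rep (L.A y) ht'.1 ht'.2 with ⟨l, hl1, hl2, _, hp'⟩ | ⟨l, g, hl, g0, g1, _, hp'⟩
    · exfalso
      have h : (L.A x).z k = (L.A y).z l := by
        have : ((L.A x).z k, (0 : ℝ)) = ((L.A y).z l, 0) := by rw [← hp, ← hp', hQt, hQt']
        exact congrArg Prod.fst this
      exact L.z_ne_z x y hxy k hk1 hk2 l hl1 hl2 h
    · exfalso
      have : ((L.A x).z k, (0 : ℝ)) = piece (L.A y) l g := by rw [← hp, ← hp', hQt, hQt']
      exact piece_snd_ne_zero g0 g1 ((L.good y).ne hl) (congrArg Prod.snd this).symm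
  · rcases exists_rep (L.A y) ht'.1 ht'.2 with ⟨l, hl1, hl2, _, hp'⟩ | ⟨l, g, hl, g0, g1, _, hp'⟩
    · exfalso
      have : piece (L.A x) k f = ((L.A y).z l, (0 : ℝ)) := by rw [← hp, ← hp', hQt, hQt']
      exact piece_snd_ne_zero f0 f1 ((L.good x).ne hk) (congrArg Prod.snd this)
    · have h : piece (L.A x) k f = piece (L.A y) l g := by rw [← hp, ← hp', hQt, hQt']
      obtain ⟨hs, hi⟩ := piece_meet f0 f1 g0 g1 ((L.good x).ne hk) ((L.good y).ne hl) h
      have hi' : Inter ((L.A x).z k) ((L.A x).z (k + 1)) ((L.A y).z l) ((L.A y).z (l + 1)) := by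
        rcases hi with hi | ⟨hm, hM⟩
        · exact hi
        · exfalso
          -- the two intervals are equal: then the two edges have the same ends
          have key : ∃ i i' j j', i ≤ (L.A x).n + 1 ∧ i' ≤ (L.A x).n + 1 ∧ j ≤ (L.A y).n + 1 ∧
              j' ≤ (L.A y).n + 1 ∧ i ≠ i' ∧ (L.A x).z i = (L.A y).z j ∧
              (L.A x).z i' = (L.A y).z j' := by
            have hne := (L.good x).ne hk
            rcases lt_or_gt_of_ne hne with h1 | h1
            · rw [min_eq_left h1.le] at hm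
              rw [max_eq_right h1.le] at hM
              rcases min_choice ((L.A y).z l) ((L.A y).z (l + 1)) with m | m <;>
              rcases max_choice ((L.A y).z l) ((L.A y).z (l + 1)) with m' | m' <;>
              rw [m] at hm <;> rw [m'] at hM
              · exact ⟨k, k + 1, l, l, by omega, by omega, by omega, by omega, by omega, hm, hM⟩
              · exact ⟨k, k + 1, l, l + 1, by omega, by omega, by omega, by omega, by omega, hm, hM⟩
              · exact ⟨k, k + 1, l + 1, l, by omega, by omega, by omega, by omega, by omega, hm, hM⟩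
              · exact ⟨k, k + 1, l + 1, l + 1, by omega, by omega, by omega, by omega, by omega,
                  hm, hM⟩
            · rw [min_eq_right h1.le] at hm
              rw [max_eq_left h1.le] at hM
              rcases min_choice ((L.A y).z l) ((L.A y).z (l + 1)) with m | m <;>
              rcases max_choice ((L.A y).z l) ((L.A y).z (l + 1)) with m' | m' <;>
              rw [m] at hm <;> rw [m'] at hM
              · exact ⟨k + 1, k, l, l, by omega, by omega, by omega, by omega, by omega, hm, hM⟩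
              · exact ⟨k + 1, k, l, l + 1, by omega, by omega, by omega, by omega, by omega, hm, hM⟩
              · exact ⟨k + 1, k, l + 1, l, by omega, by omega, by omega, by omega, by omega, hm, hM⟩
              · exact ⟨k + 1, k, l + 1, l + 1, by omega, by omega, by omega, by omega, by omega,
                  hm, hM⟩
          obtain ⟨i, i', j, j', h1, h2, h3, h4, h5, h6, h7⟩ := key
          obtain ⟨u, a1, a2⟩ := L.end_cases hxy h1 h3 h6
          obtain ⟨u', b1, b2⟩ := L.end_cases hxy h2 h4 h7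
          exact h5 (a1.idx b1 (L.end_unique hxy a1 a2 b1 b2))
      refine ⟨(k, l), ?_, f, g, f0, f1, g0, g1, by rw [← hp]; exact hQt.symm,
        by rw [← hp']; exact hQt'.symm⟩
      rw [AxisPath.pairs, Finset.mem_filter, Finset.mem_product, Finset.mem_range, Finset.mem_range]
      exact ⟨⟨by omega, by omega⟩, hs, hi'⟩

lemma isCommon_unique {x y : κ}
    {kl : ℕ × ℕ} (hkl : kl ∈ (L.A x).pairs (L.A y)) {Q Q' : ℝ × ℝ}
    (h : IsCommon (L.A x) (L.A y) kl.1 kl.2 Q) (h' : IsCommon (L.A x) (L.A y) kl.1 kl.2 Q') :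
    Q = Q' := by
  classical
  rw [AxisPath.pairs, Finset.mem_filter, Finset.mem_product, Finset.mem_range,
    Finset.mem_range] at hkl
  obtain ⟨⟨h1, h2⟩, h3, h4⟩ := hkl
  obtain ⟨f, g, f0, f1, g0, g1, e1, e2⟩ := h
  obtain ⟨f', g', f0', f1', g0', g1', e1', e2'⟩ := h'
  rw [e1, e1']
  exact piece_unique f0 f1 g0 g1 f0' f1' g0' g1' ((L.good x).ne (by omega))
    ((L.good y).ne (by omega)) h4 (e1.symm.trans e2) (e1'.symm.trans e2')

variable [Fintype κ]

/-- the pairs of indices in the order given by `ι` -/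
noncomputable def lt (ι : κ → ℕ) : Finset (κ × κ) :=
  Finset.univ.filter (fun x => ι x.1 < ι x.2)

theorem crossings_le {ι : κ → ℕ} (hι : Function.Injective ι) : L.drawing.crossings.encard ≤
    ((∑ x ∈ lt ι, (L.A x.1).X (L.A x.2) : ℕ) : ℕ∞) := by
  classical
  set T : Finset ((_ : κ × κ) × (ℕ × ℕ)) :=
    (lt ι).sigma (fun x => (L.A x.1).pairs (L.A x.2)) with hT
  have hcard : T.card = ∑ x ∈ lt ι, (L.A x.1).X (L.A x.2) := Finset.card_sigma _ _
  set F : ((_ : κ × κ) × (ℕ × ℕ)) → (ℝ × ℝ) × Sym2 (Sym2 V) := fun w =>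
    (Classical.epsilon (IsCommon (L.A w.1.1) (L.A w.1.2) w.2.1 w.2.2),
      s(s(E.a w.1.1, E.b w.1.1), s(E.a w.1.2, E.b w.1.2))) with hF
  have hsub : L.drawing.crossings ⊆ (T.image F : Finset _) := by
    rintro ⟨Q, e0⟩ ⟨hE1, hE2⟩
    induction e0 with
    | _ e e' =>
      have hee : e ≠ e' := by
        intro h; exact hE1 (by rw [h]; exact Sym2.diag_isDiag e')
      obtain ⟨he, hQ⟩ := hE2 e (Sym2.mem_mk_left e e')
      obtain ⟨he', hQ'⟩ := hE2 e' (Sym2.mem_mk_right e e')
      obtain ⟨x, rfl⟩ := E.mem_edgeSet.1 he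
      obtain ⟨y, rfl⟩ := E.mem_edgeSet.1 he'
      have hxy : x ≠ y := fun h => hee (by rw [h])
      have hQx : Q ∈ arcFun (L.A x) '' Set.Ioo 0 1 := by rw [← L.arc_eq]; exact hQ
      have hQy : Q ∈ arcFun (L.A y) '' Set.Ioo 0 1 := by rw [← L.arc_eq]; exact hQ'
      have main : ∀ x y : κ, ι x < ι y →
          Q ∈ arcFun (L.A x) '' Set.Ioo 0 1 → Q ∈ arcFun (L.A y) '' Set.Ioo 0 1 →
          (Q, s(s(E.a x, E.b x), s(E.a y, E.b y))) ∈ T.image F := by
        intro x y hlt hQx hQy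
        have hxy : x ≠ y := fun h => by rw [h] at hlt; exact lt_irrefl _ hlt
        obtain ⟨kl, hkl, hc⟩ := L.exists_common hxy hQx hQy
        rw [Finset.mem_image]
        refine ⟨⟨(x, y), kl⟩, ?_, ?_⟩
        · rw [hT, Finset.mem_sigma]
          refine ⟨?_, hkl⟩
          rw [lt, Finset.mem_filter]
          exact ⟨Finset.mem_univ _, hlt⟩
        · have : IsCommon (L.A x) (L.A y) kl.1 kl.2
              (Classical.epsilon (IsCommon (L.A x) (L.A y) kl.1 kl.2)) :=
            Classical.epsilon_spec ⟨Q, hc⟩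
          have h2 := L.isCommon_unique hkl this hc
          simp only [hF]
          rw [h2]
      rcases lt_or_gt_of_ne (fun h => hxy (hι h) : ι x ≠ ι y) with h | h
      · exact_mod_cast main x y h hQx hQy
      · have := main y x h hQy hQx
        rw [Sym2.eq_swap]
        exact_mod_cast this
  calc L.drawing.crossings.encard ≤ ((T.image F : Finset _) : Set _).encard :=
        Set.encard_le_encard hsub
    _ = ((T.image F).card : ℕ∞) := Set.encard_coe_eq_coe_finsetCard _
    _ ≤ (T.card : ℕ∞) := Nat.cast_le.2 Finset.card_image_le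
    _ = _ := by rw [hcard]

/-- A layout gives an upper bound for the crossing number. -/
theorem cr_le {ι : κ → ℕ} (hι : Function.Injective ι) :
    cr G ≤ ((∑ x ∈ lt ι, (L.A x.1).X (L.A x.2) : ℕ) : ℕ∞) :=
  (iInf_le _ L.drawing).trans (L.crossings_le hι)

end Lay

/-- A drawing gives a layout with at most as many crossings. -/
theorem exists_lay [Fintype V] [Fintype κ] (E : Ends V κ G) {ι : κ → ℕ}
    (D : Drawing G) (hD : D.crossings.Finite) :
    ∃ L : Lay E, ∑ x ∈ Lay.lt ι, (L.A x.1).X (L.A x.2) ≤ D.crossings.ncard := by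
  classical
  obtain ⟨M, hM⟩ := exists_axisModel D hD
  let L : Lay E :=
    { pos := M.x
      pos_inj := M.x_injective
      A := fun k => M.A (E.a k) (E.b k)
      z_zero := fun k => M.z_zero _ _ (E.adj k)
      z_last := fun k => M.z_last _ _ (E.adj k)
      good := fun k =>
        { inj := fun i hi j hj h => M.z_inj _ _ (E.adj k) i hi j hj h
          self := by
            intro i hi j hj hs hI
            have h0 := M.X_self _ _ (E.adj k)
            rw [AxisPath.X, Finset.card_eq_zero] at h0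
            have : (i, j) ∈ (M.A (E.a k) (E.b k)).pairs (M.A (E.a k) (E.b k)) := by
              rw [AxisPath.pairs, Finset.mem_filter, Finset.mem_product, Finset.mem_range,
                Finset.mem_range]
              exact ⟨⟨by omega, by omega⟩, hs, hI⟩
            rw [h0] at this
            exact absurd this (Finset.notMem_empty _) }
      z_ne := fun k i h1 h2 v => M.z_ne _ _ (E.adj k) i h1 h2 v
      z_ne_z := fun k l hkl i h1 h2 j h3 h4 =>
        M.z_ne_z _ _ _ _ (E.adj k) (E.adj l) (fun h => hkl (E.inj k l h)) i h1 h2 j h3 h4 }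
  refine ⟨L, ?_⟩
  have hinj : Function.Injective (fun x : κ × κ => ((E.a x.1, E.b x.1), (E.a x.2, E.b x.2))) := by
    rintro ⟨x, y⟩ ⟨x', y'⟩ h
    simp only [Prod.mk.injEq] at h
    obtain ⟨⟨h1, h2⟩, h3, h4⟩ := h
    exact Prod.ext (E.inj _ _ (by rw [h1, h2])) (E.inj _ _ (by rw [h3, h4]))
  have := hM ((Lay.lt ι).image (fun x : κ × κ => ((E.a x.1, E.b x.1), (E.a x.2, E.b x.2)))) ?_ ?_
  · rw [Finset.sum_image (fun x _ y _ h => hinj h)] at this
    exact this
  · intro x hx
    obtain ⟨y, hy, rfl⟩ := Finset.mem_image.1 hx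
    rw [Lay.lt, Finset.mem_filter] at hy
    refine ⟨E.adj _, E.adj _, fun h => ?_⟩
    have := E.inj _ _ h
    rw [this] at hy
    exact lt_irrefl _ hy.2
  · intro x hx x' hx' h
    obtain ⟨y, hy, rfl⟩ := Finset.mem_image.1 hx
    obtain ⟨y', hy', rfl⟩ := Finset.mem_image.1 hx'
    rw [Lay.lt, Finset.mem_filter] at hy hy'
    simp only at h
    rw [Sym2.eq_iff] at h
    have : y = y' := by
      rcases h with ⟨h1, h2⟩ | ⟨h1, h2⟩
      · exact Prod.ext (E.inj _ _ h1) (E.inj _ _ h2)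
      · exfalso
        have e1 := E.inj _ _ h1
        have e2 := E.inj _ _ h2
        rw [e1, e2] at hy
        exact absurd hy.2 (not_lt.2 hy'.2.le)
    rw [this]

end Pool.Agent.Lib.MP_c258d4_co
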