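import Pool.Agent.Lib.MP_c258d4_co.Count

/-!
# The crossing number of the prism `G □ K₂`
-/

set_option autoImplicit false

namespace Pool.Agent.Lib.MP_c258d4_co

open Pool.Agent.Lib.MP_266831_co Pool.Agent.Lib.MP_266831_co.Upper

variable {V κ : Type} {G : SimpleGraph V}

open Classical in
/-- the sum over all ordered pairs of different indices -/
noncomputable def ordSum [Fintype κ] (f : κ → κ → ℕ) : ℕ := ∑ x, ∑ y, if x = y then 0 else f x y

lemma ordSum_eq [Fintype κ] {ι : κ → ℕ} (hι : Function.Injective ι) {f : κ → κ → ℕ}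
    (hf : ∀ x y, f x y = f y x) : ordSum f = 2 * ∑ x ∈ Lay.lt ι, f x.1 x.2 := by
  classical
  have h1 : ordSum f = ∑ p : κ × κ, ((if ι p.1 < ι p.2 then f p.1 p.2 else 0) +
      (if ι p.2 < ι p.1 then f p.1 p.2 else 0)) := by
    rw [ordSum, Fintype.sum_prod_type]
    refine Finset.sum_congr rfl fun x _ => Finset.sum_congr rfl fun y _ => ?_
    by_cases hxy : x = y
    · subst hxy; simp
    · have : ι x ≠ ι y := fun h => hxy (hι h)
      rcases lt_or_gt_of_ne this with h | h
      · simp [hxy, h, not_lt.2 h.le]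
      · simp [hxy, h, not_lt.2 h.le]
  have h2 : ∑ p : κ × κ, (if ι p.2 < ι p.1 then f p.1 p.2 else 0) =
      ∑ p : κ × κ, (if ι p.1 < ι p.2 then f p.1 p.2 else 0) := by
    rw [← Equiv.sum_comp (Equiv.prodComm κ κ)]
    refine Finset.sum_congr rfl fun p _ => ?_
    show (if ι p.1 < ι p.2 then f p.2 p.1 else 0) = _
    rw [hf]
  rw [h1, Finset.sum_add_distrib, h2, Lay.lt, Finset.sum_filter, two_mul]

open Classical in
/-- the number of ordered pairs of different edges with a common end -/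
noncomputable def Ends.shCount [Fintype κ] (E : Ends V κ G) : ℕ :=
  ordSum (fun x y => if E.Sh x y then 1 else 0)

/-- The sum of the crossings of the doubled layout. -/
lemma ordSum_double [Fintype V] [Fintype κ] {E : Ends V κ G} (L : Lay E) {ε : ℝ} (hg : Gap L.pts ε) :
    ordSum (fun x y => (L.dA ε x).X (L.dA ε y)) ≤
      4 * ordSum (fun x y => (L.A x).X (L.A y)) + E.shCount + 2 * Fintype.card κ := by
  classical
  have hv1 : ∀ v w, (L.dA ε (Sum.inr v)).X (L.dA ε w) = 0 := fun v w => L.X_vert hg v w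
  have hv2 : ∀ v w, (L.dA ε w).X (L.dA ε (Sum.inr v)) = 0 := fun v w => by
    rw [X_comm]; exact L.X_vert hg v w
  have h1 : ordSum (fun x y => (L.dA ε x).X (L.dA ε y)) =
      ∑ k : κ, ∑ s : Bool, ∑ l : κ, ∑ t : Bool,
        if k = l ∧ s = t then 0 else (cpy (L.A k) ε s).X (cpy (L.A l) ε t) := by
    rw [ordSum]
    simp only [Fintype.sum_sum_type, hv1, hv2, Fintype.sum_prod_type, ite_self,
      Finset.sum_const_zero, add_zero, Sum.inl.injEq, Prod.mk.injEq]
    rfl
  have h2 : ∀ k l : κ, ∑ s : Bool, ∑ t : Bool,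
      (if k = l ∧ s = t then 0 else (cpy (L.A k) ε s).X (cpy (L.A l) ε t)) ≤
      4 * (if k = l then 0 else (L.A k).X (L.A l)) +
        (if k = l then 0 else if E.Sh k l then 1 else 0) + if k = l then 2 else 0 := by
    intro k l
    by_cases hkl : k = l
    · subst hkl
      simp only [true_and, if_true, mul_zero, zero_add, Fintype.sum_bool]
      have a := L.X_self_le hg k (s := true) (t := false) (by simp)
      have b := L.X_self_le hg k (s := false) (t := true) (by simp)
      simp only [Bool.false_eq_true, Bool.true_eq_false, if_false]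
      omega
    · simp only [hkl, false_and, if_false, add_zero]
      exact L.sum_four hg hkl
  rw [h1]
  calc ∑ k : κ, ∑ s : Bool, ∑ l : κ, ∑ t : Bool,
        (if k = l ∧ s = t then 0 else (cpy (L.A k) ε s).X (cpy (L.A l) ε t))
      = ∑ k : κ, ∑ l : κ, ∑ s : Bool, ∑ t : Bool,
        (if k = l ∧ s = t then 0 else (cpy (L.A k) ε s).X (cpy (L.A l) ε t)) := by
        refine Finset.sum_congr rfl fun k _ => ?_
        rw [Finset.sum_comm]
    _ ≤ ∑ k : κ, ∑ l : κ, (4 * (if k = l then 0 else (L.A k).X (L.A l)) +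
        (if k = l then 0 else if E.Sh k l then 1 else 0) + if k = l then 2 else 0) :=
        Finset.sum_le_sum fun k _ => Finset.sum_le_sum fun l _ => h2 k l
    _ = _ := by
        simp only [Finset.sum_add_distrib, ← Finset.mul_sum]
        rw [ordSum, Ends.shCount, ordSum]
        congr 1
        simp [mul_comm]

/-- **The crossing number of the prism.** -/
theorem cr_dbl_le [Fintype V] [Fintype κ] (E : Ends V κ G) {c : ℕ} (hc : cr G ≤ c) :
    2 * cr (dbl G) ≤ ((8 * c + E.shCount + 2 * Fintype.card κ : ℕ) : ℕ∞) := by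
  classical
  have hlt : cr G < ((c + 1 : ℕ) : ℕ∞) := lt_of_le_of_lt hc (Nat.cast_lt.2 (Nat.lt_succ_self c))
  obtain ⟨D, hD⟩ := iInf_lt_iff.1 hlt
  have hfin : D.crossings.Finite := by
    rw [← Set.encard_lt_top_iff]
    exact lt_trans hD (ENat.natCast_lt_top _)
  have hDc : D.crossings.ncard ≤ c := by
    rw [← hfin.cast_ncard_eq] at hD
    exact Nat.lt_succ_iff.1 (Nat.cast_lt.1 hD)
  obtain ⟨ι, hι⟩ : ∃ ι : κ → ℕ, Function.Injective ι :=
    ⟨fun x => (Fintype.equivFin κ x : ℕ), fun x y h =>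
      (Fintype.equivFin κ).injective (Fin.val_injective h)⟩
  obtain ⟨ι', hι'⟩ : ∃ ι : (κ × Bool) ⊕ V → ℕ, Function.Injective ι :=
    ⟨fun x => (Fintype.equivFin _ x : ℕ), fun x y h =>
      (Fintype.equivFin _).injective (Fin.val_injective h)⟩
  obtain ⟨L, hL⟩ := exists_lay E (ι := ι) D hfin
  obtain ⟨ε, hg⟩ := exists_gap L.pts_finite
  have h1 := (L.double hg).cr_le hι'
  have h2 : 2 * ∑ x ∈ Lay.lt ι', (L.dA ε x.1).X (L.dA ε x.2) ≤
      8 * c + E.shCount + 2 * Fintype.card κ := by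
    rw [← ordSum_eq hι' (f := fun x y => (L.dA ε x).X (L.dA ε y)) (fun x y => X_comm _ _)]
    refine (ordSum_double L hg).trans ?_
    rw [ordSum_eq hι (f := fun x y => (L.A x).X (L.A y)) (fun x y => X_comm _ _)]
    have := hL.trans hDc
    omega
  calc 2 * cr (dbl G) ≤ 2 * ((∑ x ∈ Lay.lt ι', (L.dA ε x.1).X (L.dA ε x.2) : ℕ) : ℕ∞) := by
        gcongr
        exact h1
    _ = ((2 * ∑ x ∈ Lay.lt ι', (L.dA ε x.1).X (L.dA ε x.2) : ℕ) : ℕ∞) := by push_cast; rfl
    _ ≤ _ := Nat.cast_le.2 h2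

/-- The number of pairs of adjacent edges of the prism. -/
lemma shCount_dbl [Fintype V] [Fintype κ] (E : Ends V κ G) :
    E.dbl.shCount ≤ 2 * E.shCount + 8 * Fintype.card κ := by
  classical
  have hS1 : ∀ (k l : κ) (s t : Bool), E.dbl.Sh (Sum.inl (k, s)) (Sum.inl (l, t)) →
      s = t ∧ E.Sh k l := by
    rintro k l s t ⟨⟨u, r⟩, h1, h2⟩
    simp only [Ends.dbl, Sum.elim_inl, Sym2.mem_iff, Prod.mk.injEq] at h1 h2
    refine ⟨?_, u, ?_, ?_⟩
    · rcases h1 with ⟨_, h1⟩ | ⟨_, h1⟩ <;> rcases h2 with ⟨_, h2⟩ | ⟨_, h2⟩ <;> rw [← h1, ← h2]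
    · rw [Sym2.mem_iff]
      rcases h1 with ⟨h1, _⟩ | ⟨h1, _⟩
      · exact Or.inl h1
      · exact Or.inr h1
    · rw [Sym2.mem_iff]
      rcases h2 with ⟨h2, _⟩ | ⟨h2, _⟩
      · exact Or.inl h2
      · exact Or.inr h2
  have hS2 : ∀ (k : κ) (s : Bool) (v : V), E.dbl.Sh (Sum.inl (k, s)) (Sum.inr v) →
      v ∈ s(E.a k, E.b k) := by
    rintro k s v ⟨⟨u, r⟩, h1, h2⟩
    simp only [Ends.dbl, Sum.elim_inl, Sum.elim_inr, Sym2.mem_iff, Prod.mk.injEq] at h1 h2
    have huv : u = v := by rcases h2 with ⟨h, _⟩ | ⟨h, _⟩ <;> exact h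
    rw [← huv, Sym2.mem_iff]
    rcases h1 with ⟨h1, _⟩ | ⟨h1, _⟩
    · exact Or.inl h1
    · exact Or.inr h1
  have hS2' : ∀ (k : κ) (s : Bool) (v : V), E.dbl.Sh (Sum.inr v) (Sum.inl (k, s)) →
      v ∈ s(E.a k, E.b k) := by
    rintro k s v ⟨u, h1, h2⟩
    exact hS2 k s v ⟨u, h2, h1⟩
  have hS3 : ∀ (v w : V), v ≠ w → ¬ E.dbl.Sh (Sum.inr v) (Sum.inr w) := by
    rintro v w hvw ⟨⟨u, r⟩, h1, h2⟩
    simp only [Ends.dbl, Sum.elim_inr, Sym2.mem_iff, Prod.mk.injEq] at h1 h2
    apply hvw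
    have e1 : u = v := by rcases h1 with ⟨h, _⟩ | ⟨h, _⟩ <;> exact h
    have e2 : u = w := by rcases h2 with ⟨h, _⟩ | ⟨h, _⟩ <;> exact h
    rw [← e1, e2]
  have hmem : ∀ k : κ, ∑ v : V, (if v ∈ s(E.a k, E.b k) then 1 else 0) ≤ 2 := by
    intro k
    calc ∑ v : V, (if v ∈ s(E.a k, E.b k) then 1 else 0)
        ≤ ∑ v : V, ((if v = E.a k then 1 else 0) + (if v = E.b k then 1 else 0)) := by
          refine Finset.sum_le_sum fun v _ => ?_
          simp only [Sym2.mem_iff]
          by_cases h1 : v = E.a k <;> by_cases h2 : v = E.b k <;> simp [h1, h2]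
      _ = 2 := by
          rw [Finset.sum_add_distrib]
          simp
  rw [Ends.shCount, ordSum]
  simp only [Fintype.sum_sum_type, Fintype.sum_prod_type, Sum.inl.injEq, Prod.mk.injEq,
    Sum.inr.injEq]
  have b1 : ∀ (k : κ) (s : Bool), (∑ l : κ, ∑ t : Bool, if k = l ∧ s = t then 0 else
      if E.dbl.Sh (Sum.inl (k, s)) (Sum.inl (l, t)) then 1 else 0) ≤
      ∑ l : κ, if k = l then 0 else if E.Sh k l then 1 else 0 := by
    intro k s
    refine Finset.sum_le_sum fun l _ => ?_
    calc ∑ t : Bool, (if k = l ∧ s = t then 0 else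
          if E.dbl.Sh (Sum.inl (k, s)) (Sum.inl (l, t)) then 1 else 0)
        ≤ ∑ t : Bool, (if s = t then (if k = l then 0 else if E.Sh k l then 1 else 0) else 0) := by
          refine Finset.sum_le_sum fun t _ => ?_
          by_cases hst : s = t
          · subst hst
            simp only [and_true, if_true]
            by_cases hkl : k = l
            · simp [hkl]
            · simp only [hkl, if_false]
              by_cases h : E.dbl.Sh (Sum.inl (k, s)) (Sum.inl (l, s))
              · rw [if_pos h, if_pos (hS1 _ _ _ _ h).2]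
              · rw [if_neg h]; exact Nat.zero_le _
          · simp only [hst, and_false, if_false]
            rw [if_neg (fun h => hst (hS1 _ _ _ _ h).1)]
      _ = _ := by rw [Finset.sum_ite_eq]; simp
  have b2 : ∀ (k : κ) (s : Bool), (∑ v : V, if (Sum.inl (k, s) : (κ × Bool) ⊕ V) = Sum.inr v then 0
      else if E.dbl.Sh (Sum.inl (k, s)) (Sum.inr v) then 1 else 0) ≤ 2 := by
    intro k s
    refine le_trans (Finset.sum_le_sum fun v _ => ?_) (hmem k)
    by_cases h : E.dbl.Sh (Sum.inl (k, s)) (Sum.inr v)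
    · rw [if_pos (hS2 _ _ _ h)]
      split_ifs <;> omega
    · rw [if_neg h]
      simp
  have b3 : ∀ (v : V), (∑ w : V, if v = w then 0
      else if E.dbl.Sh (Sum.inr v) (Sum.inr w) then 1 else 0) = 0 := by
    intro v
    refine Finset.sum_eq_zero fun w _ => ?_
    by_cases hvw : v = w
    · simp [hvw]
    · simp [hvw, hS3 v w hvw]
  have b4 : (∑ v : V, ∑ k : κ, ∑ s : Bool, if (Sum.inr v : (κ × Bool) ⊕ V) = Sum.inl (k, s) then 0
      else if E.dbl.Sh (Sum.inr v) (Sum.inl (k, s)) then 1 else 0) ≤ 4 * Fintype.card κ := by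
    calc _ ≤ ∑ v : V, ∑ k : κ, ∑ s : Bool, (if v ∈ s(E.a k, E.b k) then 1 else 0) := by
          refine Finset.sum_le_sum fun v _ => Finset.sum_le_sum fun k _ =>
            Finset.sum_le_sum fun s _ => ?_
          by_cases h : E.dbl.Sh (Sum.inr v) (Sum.inl (k, s))
          · rw [if_pos (hS2' _ _ _ h)]
            split_ifs <;> omega
          · rw [if_neg h]
            simp
      _ = ∑ k : κ, 2 * ∑ v : V, (if v ∈ s(E.a k, E.b k) then 1 else 0) := by
          rw [Finset.sum_comm]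
          refine Finset.sum_congr rfl fun k _ => ?_
          rw [Finset.mul_sum]
          refine Finset.sum_congr rfl fun v _ => ?_
          simp
      _ ≤ ∑ _k : κ, 2 * 2 := Finset.sum_le_sum fun k _ => Nat.mul_le_mul_left _ (hmem k)
      _ = 4 * Fintype.card κ := by simp [mul_comm]
  have b5 : (∑ k : κ, ∑ s : Bool, ((∑ l : κ, ∑ t : Bool, if k = l ∧ s = t then 0 else
      if E.dbl.Sh (Sum.inl (k, s)) (Sum.inl (l, t)) then 1 else 0) +
      ∑ v : V, if (Sum.inl (k, s) : (κ × Bool) ⊕ V) = Sum.inr v then 0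
      else if E.dbl.Sh (Sum.inl (k, s)) (Sum.inr v) then 1 else 0)) ≤
      2 * E.shCount + 4 * Fintype.card κ := by
    calc _ ≤ ∑ k : κ, ∑ _s : Bool, ((∑ l : κ, if k = l then 0 else if E.Sh k l then 1 else 0) + 2) :=
          Finset.sum_le_sum fun k _ => Finset.sum_le_sum fun s _ => Nat.add_le_add (b1 k s) (b2 k s)
      _ = _ := by
          rw [Ends.shCount, ordSum]
          simp only [Finset.sum_add_distrib, Finset.sum_const, Finset.card_univ,
            smul_eq_mul, Fintype.card_bool, Finset.mul_sum]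
          ring
  rw [Finset.sum_add_distrib (s := (Finset.univ : Finset V))]
  have b6 : ∀ v w : V, ¬ E.dbl.Sh (Sum.inr v) (Sum.inr w) ∨ v = w := fun v w => by
    by_cases h : v = w
    · exact Or.inr h
    · exact Or.inl (hS3 v w h)
  simp only [b3, Finset.sum_const_zero, add_zero]
  refine le_trans (le_of_eq ?_) (le_trans (Nat.add_le_add b5 b4) (by omega))
  congr!

end Pool.Agent.Lib.MP_c258d4_co
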