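import Pool.Agent.Lib.MP_c258d4_co.Cube

/-!
# Signed axis layouts and balanced doubling

A *signed layout* is an axis layout in which every vertex carries a sign such that the number of
spine crossings of an edge has the parity prescribed by the signs of its ends. Such a layout can be doubled
in such a way that an edge and its parallel copy do not cross; the two copies of a vertex have opposite
signs.
-/

set_option autoImplicit false

namespace Pool.Agent.Lib.MP_c258d4_co

open Pool.Agent.Lib.MP_266831_co Pool.Agent.Lib.MP_266831_co.Upper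

variable {V κ : Type} {G : SimpleGraph V}

/-- a sign as a real number -/
def sr (b : Bool) : ℝ := if b then 1 else -1

lemma sr_cases (b : Bool) : sr b = 1 ∨ sr b = -1 := by cases b <;> simp [sr]

lemma sr_ne (b : Bool) : sr b ≠ 0 := by rcases sr_cases b with h | h <;> rw [h] <;> norm_num

lemma abs_sr (b : Bool) : |sr b| ≤ 1 := by rcases sr_cases b with h | h <;> rw [h] <;> norm_num

lemma sr_not (b : Bool) : sr (!b) = - sr b := by cases b <;> simp [sr]

/-- the displacement of the `i`-th axis point in the copy `s`, the sign of the first vertex being `σ` -/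
def ds (s σ : Bool) (i : ℕ) : ℝ := if s then (-1) ^ i * sr σ else 0

lemma abs_ds (s σ : Bool) (i : ℕ) : |ds s σ i| ≤ 1 := by
  unfold ds
  split_ifs
  · rw [abs_mul, abs_pow, abs_neg, abs_one, one_pow, one_mul]; exact abs_sr σ
  · norm_num

lemma ds_zero (s σ : Bool) : ds s σ 0 = if s then sr σ else 0 := by
  unfold ds; simp

lemma ds_true_ne (σ : Bool) (i : ℕ) : ds true σ i ≠ 0 := by
  unfold ds
  simp only [if_true]
  exact mul_ne_zero (pow_ne_zero _ (by norm_num)) (sr_ne σ)

lemma ds_succ (s σ : Bool) (i : ℕ) : ds s σ (i + 1) = - ds s σ i := by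
  unfold ds
  split_ifs
  · rw [pow_succ]; ring
  · simp

lemma ds_false (σ : Bool) (i : ℕ) : ds false σ i = 0 := by simp [ds]

/-- the copy `s` of a path -/
def scpy (A : AxisPath) (ε : ℝ) (s σ : Bool) : AxisPath :=
  ⟨A.n, fun i => A.z i + ds s σ i * ε, A.up⟩

lemma abs_ite_sr (s σ : Bool) : |(if s then sr σ else 0)| ≤ 1 := by
  cases s
  · simp
  · simpa using abs_sr σ

/-- The two mixed pairs at a common vertex do not both interleave. -/
lemma Gap.excl_aux {Z : Set ℝ} {ε : ℝ} (hg : Gap Z ε) {p α β c0 c1 c c' d d' : ℝ} (hp : p ∈ Z)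
    (hα : α ∈ Z) (hβ : β ∈ Z) (h1 : α ≠ β) (h2 : α ≠ p) (h3 : β ≠ p) (h01 : c0 < c1)
    (hc0 : |c0| ≤ 1) (hc1 : |c1| ≤ 1) (hc : |c| ≤ 1) (hc' : |c'| ≤ 1)
    (hd : |d| ≤ 1) (hd' : |d'| ≤ 1)
    (hI : Inter (p + c0 * ε) (α + c * ε) (p + c1 * ε) (β + d * ε))
    (hJ : Inter (p + c1 * ε) (α + c' * ε) (p + c0 * ε) (β + d' * ε)) : False := by
  have e0 : p + c0 * ε < p + c1 * ε := by have := hg.pos; nlinarith
  have e1 : ¬ (p + c1 * ε < p + c0 * ε) := not_lt.2 e0.le
  rw [Upper.inter_iff, hg.lt_iff hp hβ h3.symm hc0 hd, hg.lt_iff hα hp h2 hc hc1,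
    hg.lt_iff hα hβ h1 hc hd, hg.lt_iff hp hα h2.symm hc1 hc, hg.lt_iff hβ hp h3 hd hc0,
    hg.lt_iff hβ hα h1.symm hd hc] at hI
  rw [Upper.inter_iff, hg.lt_iff hp hβ h3.symm hc1 hd', hg.lt_iff hα hp h2 hc' hc0,
    hg.lt_iff hα hβ h1 hc' hd', hg.lt_iff hp hα h2.symm hc0 hc', hg.lt_iff hβ hp h3 hd' hc1,
    hg.lt_iff hβ hα h1.symm hd' hc'] at hJ
  simp only [e0, e1, IG] at hI hJ
  rcases lt_or_gt_of_ne h1 with h1 | h1 <;> rcases lt_or_gt_of_ne h2 with h2 | h2 <;>
    rcases lt_or_gt_of_ne h3 with h3 | h3 <;>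
    simp [h1, h2, h3, not_lt.2 h1.le, not_lt.2 h2.le, not_lt.2 h3.le] at hI hJ <;> linarith

lemma Gap.excl' {Z : Set ℝ} {ε : ℝ} (hg : Gap Z ε) {p α β c0 c1 c c' d d' : ℝ} (hp : p ∈ Z)
    (hα : α ∈ Z) (hβ : β ∈ Z) (h1 : α ≠ β) (h2 : α ≠ p) (h3 : β ≠ p) (h01 : c0 ≠ c1)
    (hc0 : |c0| ≤ 1) (hc1 : |c1| ≤ 1) (hc : |c| ≤ 1) (hc' : |c'| ≤ 1)
    (hd : |d| ≤ 1) (hd' : |d'| ≤ 1)
    (hI : Inter (p + c0 * ε) (α + c * ε) (p + c1 * ε) (β + d * ε))
    (hJ : Inter (p + c1 * ε) (α + c' * ε) (p + c0 * ε) (β + d' * ε)) : False := by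
  rcases lt_or_gt_of_ne h01 with h | h
  · exact hg.excl_aux hp hα hβ h1 h2 h3 h hc0 hc1 hc hc' hd hd' hI hJ
  · exact hg.excl_aux hp hα hβ h1 h2 h3 h hc1 hc0 hc' hc hd' hd hJ hI

/-- A signed layout. -/
structure SLay (E : Ends V κ G) extends Lay E where
  σ : V → Bool
  par : ∀ k, sr (σ (E.b k)) = (-1) ^ ((A k).n + 1) * sr (σ (E.a k))

namespace SLay

variable {E : Ends V κ G} (L : SLay E)

/-- positions of the vertices of the prism -/
noncomputable def dpos (ε : ℝ) (x : V × Bool) : ℝ := L.pos x.1 + (if x.2 then sr (L.σ x.1) else 0) * ε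

/-- the paths of the prism -/
noncomputable def dA (τ : V → Bool) (ε : ℝ) : (κ × Bool) ⊕ V → AxisPath :=
  Sum.elim (fun k => scpy (L.A k.1) ε k.2 (L.σ (E.a k.1)))
    (fun v => ⟨0, fun i => L.pos v + ((i : ℝ) * sr (L.σ v)) * ε, τ v⟩)

lemma ds_last (s : Bool) (k : κ) :
    ds s (L.σ (E.a k)) ((L.A k).n + 1) = if s then sr (L.σ (E.b k)) else 0 := by
  unfold ds
  rw [L.par k]

section

variable {ε : ℝ} (hg : Gap L.pts ε)

include hg

/-- Pieces of two copies of one path without common ends do not interleave. -/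
lemma not_inter_far (k : κ) {i j : ℕ} (hi : i ≤ (L.A k).n) (hj : j ≤ (L.A k).n) (hij : i ≠ j)
    (hs : (L.A k).side i = (L.A k).side j) (s t σ : Bool) :
    ¬ Inter ((scpy (L.A k) ε s σ).z i) ((scpy (L.A k) ε s σ).z (i + 1)) ((scpy (L.A k) ε t σ).z j)
      ((scpy (L.A k) ε t σ).z (j + 1)) := by
  have h1 : i + 1 ≠ j := by
    rintro rfl; exact side_succ _ _ hs
  have h2 : j + 1 ≠ i := by
    rintro rfl; exact side_succ _ _ hs.symm
  have hgood := L.good k
  show ¬ Inter ((L.A k).z i + ds s σ i * ε) ((L.A k).z (i + 1) + ds s σ (i + 1) * ε)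
    ((L.A k).z j + ds t σ j * ε) ((L.A k).z (j + 1) + ds t σ (j + 1) * ε)
  rw [hg.inter_iff (L.z_mem (by omega)) (L.z_mem (by omega)) (L.z_mem (by omega))
    (L.z_mem (by omega)) (fun h => hij (hgood.inj _ (by omega) _ (by omega) h))
    (fun h => h2 (hgood.inj _ (by omega) _ (by omega) h).symm)
    (fun h => h1 (hgood.inj _ (by omega) _ (by omega) h))
    (fun h => hij (by have := hgood.inj _ (by omega) _ (by omega) h; omega))
    (abs_ds _ _ _) (abs_ds _ _ _) (abs_ds _ _ _) (abs_ds _ _ _)]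
  exact hgood.self i hi j hj hs

lemma good_scpy (k : κ) (s σ : Bool) : Good (scpy (L.A k) ε s σ) where
  inj i hi j hj h := by
    by_contra hij
    exact hg.ne (L.z_mem hi) (L.z_mem hj) (fun h => hij ((L.good k).inj i hi j hj h))
      (abs_ds _ _ _) (abs_ds _ _ _) h
  self i hi j hj hs hI := by
    by_cases hij : i = j
    · subst hij
      exact not_inter_same hI
    · exact L.not_inter_far hg k hi hj hij hs s s σ hI

/-- the doubled layout -/
noncomputable def double (τ : V → Bool) : SLay E.dbl where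
  pos := L.dpos ε
  pos_inj := by
    rintro ⟨u, s⟩ ⟨v, t⟩ h
    have huv : u = v := by
      by_contra hne
      exact hg.ne (L.pos_mem u) (L.pos_mem v) (fun h => hne (L.pos_inj h)) (abs_ite_sr s _)
        (abs_ite_sr t _) h
    subst huv
    have h1 : (if s then sr (L.σ u) else 0) * ε = (if t then sr (L.σ u) else 0) * ε := by
      simpa [dpos] using h
    have h2 := mul_right_cancel₀ hg.pos.ne' h1
    have h3 := sr_ne (L.σ u)
    cases s <;> cases t <;> simp_all
  A := L.dA τ ε
  z_zero := by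
    rintro (⟨k, s⟩ | v)
    · show (L.A k).z 0 + ds s (L.σ (E.a k)) 0 * ε = L.pos (E.a k) + (if s then sr (L.σ (E.a k)) else 0) * ε
      rw [L.z_zero, ds_zero]
    · show L.pos v + (((0 : ℕ) : ℝ) * sr (L.σ v)) * ε = L.pos v + (if false then sr (L.σ v) else 0) * ε
      simp
  z_last := by
    rintro (⟨k, s⟩ | v)
    · show (L.A k).z ((L.A k).n + 1) + ds s (L.σ (E.a k)) ((L.A k).n + 1) * ε =
        L.pos (E.b k) + (if s then sr (L.σ (E.b k)) else 0) * ε
      rw [L.z_last, ds_last]
    · show L.pos v + (((0 + 1 : ℕ) : ℝ) * sr (L.σ v)) * ε =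
        L.pos v + (if true then sr (L.σ v) else 0) * ε
      simp
  good := by
    rintro (⟨k, s⟩ | v)
    · exact L.good_scpy hg k s _
    · refine ⟨?_, ?_⟩
      · intro i _ j _ h
        have h1 : ((i : ℝ) * sr (L.σ v)) * ε = ((j : ℝ) * sr (L.σ v)) * ε := by
          have : L.pos v + ((i : ℝ) * sr (L.σ v)) * ε = L.pos v + ((j : ℝ) * sr (L.σ v)) * ε := h
          linarith
        exact_mod_cast mul_right_cancel₀ (sr_ne _) (mul_right_cancel₀ hg.pos.ne' h1)
      · intro i hi j hj _
        have hi' : i = 0 := Nat.le_zero.1 hi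
        have hj' : j = 0 := Nat.le_zero.1 hj
        subst hi' hj'
        exact not_inter_same
  z_ne := by
    rintro (⟨k, s⟩ | v) i h1 h2 ⟨u, t⟩
    · exact hg.ne (L.z_mem (le_trans h2 (Nat.le_succ _))) (L.pos_mem u) (L.z_ne k i h1 h2 u)
        (abs_ds _ _ _) (abs_ite_sr t _)
    · have h3 : i ≤ 0 := h2
      omega
  z_ne_z := by
    rintro (⟨k, s⟩ | v) (⟨l, t⟩ | w) hkl i h1 h2 j h3 h4
    · have h2' : i ≤ (L.A k).n + 1 := le_trans h2 (Nat.le_succ _)
      have h4' : j ≤ (L.A l).n + 1 := le_trans h4 (Nat.le_succ _)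
      by_cases hk : k = l
      · subst hk
        by_cases hz : i = j
        · subst hz
          have hst : s ≠ t := fun h => hkl (by rw [h])
          show (L.A k).z i + ds s (L.σ (E.a k)) i * ε ≠ (L.A k).z i + ds t (L.σ (E.a k)) i * ε
          intro h
          have h5 : ds s (L.σ (E.a k)) i * ε = ds t (L.σ (E.a k)) i * ε := by linarith
          have h6 := mul_right_cancel₀ hg.pos.ne' h5
          have h7 := ds_true_ne (L.σ (E.a k)) i
          cases s <;> cases t
          · exact hst rfl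
          · exact h7 (h6.symm.trans (ds_false _ _))
          · exact h7 (h6.trans (ds_false _ _))
          · exact hst rfl
        · exact hg.ne (L.z_mem h2') (L.z_mem h4') (fun h => hz ((L.good k).inj i h2' j h4' h))
            (abs_ds _ _ _) (abs_ds _ _ _)
      · exact hg.ne (L.z_mem h2') (L.z_mem h4') (L.z_ne_z k l hk i h1 h2 j h3 h4)
          (abs_ds _ _ _) (abs_ds _ _ _)
    · have h5 : j ≤ 0 := h4
      omega
    · have h5 : i ≤ 0 := h2
      omega
    · have h5 : j ≤ 0 := h4
      omega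
  σ x := xor (L.σ x.1) x.2
  par := by
    rintro (⟨k, s⟩ | v)
    · show sr (xor (L.σ (E.b k)) s) = (-1) ^ ((L.A k).n + 1) * sr (xor (L.σ (E.a k)) s)
      have h := L.par k
      cases s
      · simpa using h
      · rw [Bool.xor_true, Bool.xor_true, sr_not, sr_not, h]; ring
    · show sr (xor (L.σ v) true) = (-1) ^ (0 + 1) * sr (xor (L.σ v) false)
      rw [Bool.xor_true, Bool.xor_false, sr_not]; ring

/-- The vertical edges of the prism are not crossed. -/
lemma X_vert (τ : V → Bool) (v : V) (w : (κ × Bool) ⊕ V) :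
    (L.dA τ ε (Sum.inr v)).X (L.dA τ ε w) = 0 := by
  classical
  rw [AxisPath.X, Finset.card_eq_zero, AxisPath.pairs, Finset.filter_eq_empty_iff]
  rintro ⟨i, j⟩ hij ⟨_, hI⟩
  rw [Finset.mem_product, Finset.mem_range, Finset.mem_range] at hij
  obtain ⟨hi, hj⟩ := hij
  have hi' : i = 0 := by
    have : i < 0 + 1 := hi
    omega
  subst hi'
  have hε := hg.pos
  have key : ∀ y, (∃ q ∈ L.pts, ∃ c, |c| ≤ 1 ∧ y = q + c * ε ∧
      (q = L.pos v → c = 0 ∨ c = sr (L.σ v))) →
      ¬ (min (L.pos v + (((0 : ℕ) : ℝ) * sr (L.σ v)) * ε)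
          (L.pos v + (((0 + 1 : ℕ) : ℝ) * sr (L.σ v)) * ε) < y ∧
        y < max (L.pos v + (((0 : ℕ) : ℝ) * sr (L.σ v)) * ε)
          (L.pos v + (((0 + 1 : ℕ) : ℝ) * sr (L.σ v)) * ε)) := by
    rintro y ⟨q, hq, c, hc, rfl, hcq⟩ ⟨h1, h2⟩
    push_cast at h1 h2
    rw [zero_mul, zero_mul, add_zero, one_mul] at h1 h2
    by_cases hqv : q = L.pos v
    · rcases hcq hqv with h | h
      · rw [h, hqv, zero_mul, add_zero] at h1 h2
        rcases sr_cases (L.σ v) with e | e
        · rw [e] at h1 h2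
          rw [min_eq_left (by linarith)] at h1
          linarith
        · rw [e] at h1 h2
          rw [max_eq_left (by linarith)] at h2
          linarith
      · rw [h, hqv] at h1 h2
        rcases sr_cases (L.σ v) with e | e
        · rw [e] at h1 h2
          rw [max_eq_right (by linarith)] at h2
          linarith
        · rw [e] at h1 h2
          rw [min_eq_right (by linarith)] at h1
          linarith
    · rcases lt_or_gt_of_ne hqv with h | h
      · have a1 := hg.lt_of_lt hq (L.pos_mem v) h hc (d := 0) (by norm_num)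
        have a2 := hg.lt_of_lt hq (L.pos_mem v) h hc (abs_sr (L.σ v))
        rw [zero_mul, add_zero] at a1
        exact absurd h1 (not_lt.2 (le_min a1.le a2.le))
      · have a1 := hg.lt_of_lt (L.pos_mem v) hq h (c := 0) (by norm_num) hc
        have a2 := hg.lt_of_lt (L.pos_mem v) hq h (abs_sr (L.σ v)) hc
        rw [zero_mul, add_zero] at a1
        exact absurd h2 (not_lt.2 (max_le a1.le a2.le))
  have hw : ∀ j', j' ≤ (L.dA τ ε w).n + 1 → ∃ q ∈ L.pts, ∃ c, |c| ≤ 1 ∧
      (L.dA τ ε w).z j' = q + c * ε ∧ (q = L.pos v → c = 0 ∨ c = sr (L.σ v)) := by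
    intro j' hj'
    rcases w with ⟨l, t⟩ | u
    · have hj'' : j' ≤ (L.A l).n + 1 := hj'
      refine ⟨(L.A l).z j', L.z_mem hj'', ds t (L.σ (E.a l)) j', abs_ds _ _ _, rfl, fun h => ?_⟩
      have : j' = 0 ∨ j' = (L.A l).n + 1 ∨ (1 ≤ j' ∧ j' ≤ (L.A l).n) := by omega
      rcases this with h1 | h1 | ⟨h1, h2⟩
      · rw [h1, L.z_zero] at h
        rw [h1, ds_zero, L.pos_inj h]; cases t <;> simp
      · rw [h1, L.z_last] at h
        rw [h1, L.ds_last, L.pos_inj h]; cases t <;> simp
      · exact absurd h (L.z_ne l j' h1 h2 v)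
    · have hj'' : j' ≤ 0 + 1 := hj'
      have h01 : j' = 0 ∨ j' = 1 := by omega
      refine ⟨L.pos u, L.pos_mem u, (j' : ℝ) * sr (L.σ u), ?_, rfl, fun hu => ?_⟩
      · rcases h01 with h | h
        · rw [h]; simp
        · rw [h]; simpa using abs_sr (L.σ u)
      · rw [L.pos_inj hu]
        rcases h01 with h | h <;> rw [h] <;> simp
  rcases exists_between hI with h | h
  · exact key _ (hw j (by omega)) h
  · exact key _ (hw (j + 1) (by omega)) h

/-- The two copies of a path do not cross. -/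
lemma X_self (k : κ) (s t σ : Bool) (hst : s ≠ t) :
    (scpy (L.A k) ε s σ).X (scpy (L.A k) ε t σ) = 0 := by
  classical
  have key : ∀ i, i ≤ (L.A k).n → ∀ s t : Bool, s ≠ t →
      ¬ Inter ((scpy (L.A k) ε s σ).z i) ((scpy (L.A k) ε s σ).z (i + 1)) ((scpy (L.A k) ε t σ).z i)
        ((scpy (L.A k) ε t σ).z (i + 1)) := by
    intro i hi s t hst
    have hne := (L.good k).ne hi
    have base := hg.not_inter_nested (L.z_mem (k := k) (i := i) (by omega))
      (L.z_mem (k := k) (i := i + 1) (by omega)) hne (abs_ds true σ i)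
    rw [← ds_succ] at base
    have f1 : ∀ i, (scpy (L.A k) ε false σ).z i = (L.A k).z i := by
      intro i; simp [scpy, ds]
    cases s <;> cases t
    · exact absurd rfl hst
    · rw [f1, f1]; exact base
    · rw [f1, f1, inter_comm]; exact base
    · exact absurd rfl hst
  rw [AxisPath.X, Finset.card_eq_zero, AxisPath.pairs, Finset.filter_eq_empty_iff]
  rintro ⟨i, j⟩ hp ⟨h3, h4⟩
  rw [Finset.mem_product, Finset.mem_range, Finset.mem_range] at hp
  obtain ⟨h1, h2⟩ := hp
  have h1' : i < (L.A k).n + 1 := h1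
  have h2' : j < (L.A k).n + 1 := h2
  by_cases hij : i = j
  · subst hij
    exact absurd h4 (key i (by omega) s t hst)
  · exact absurd h4 (L.not_inter_far hg k (by omega) (by omega) hij h3 s t σ)

end

/-- The end `e` of the edge `k`: its vertex and the side on which the edge leaves it. -/
def hs (k : κ) (e : Bool) : V × Bool :=
  if e then (E.b k, (L.A k).side (L.A k).n) else (E.a k, (L.A k).side 0)

/-- the edges `x` and `y` have a common end and leave it on the same side -/
def Sh (x y : κ) : Prop := ∃ e f, L.hs x e = L.hs y f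

open Classical in
lemma card_shr {x y : κ} (hxy : x ≠ y) :
    (((Finset.range ((L.A x).n + 1)) ×ˢ (Finset.range ((L.A y).n + 1))).filter
      (fun p => (L.A x).side p.1 = (L.A y).side p.2 ∧ L.Shr x y p)).card ≤
      if L.Sh x y then 1 else 0 := by
  have key : ∀ p ∈ ((Finset.range ((L.A x).n + 1)) ×ˢ (Finset.range ((L.A y).n + 1))).filter
      (fun p => (L.A x).side p.1 = (L.A y).side p.2 ∧ L.Shr x y p), ∃ i' j' u,
      L.IsEnd x i' u ∧ L.IsEnd y j' u ∧ p = (i' - 1, j' - 1) ∧ L.Sh x y := by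
    rintro ⟨i, j⟩ hp
    rw [Finset.mem_filter, Finset.mem_product, Finset.mem_range, Finset.mem_range] at hp
    obtain ⟨⟨h1, h2⟩, hsd, i', j', h3, h4, h5⟩ := hp
    simp only at h1 h2 h3 h4 hsd
    obtain ⟨u, hu1, hu2⟩ := L.end_cases hxy (by omega) (by omega) h5
    refine ⟨i', j', u, hu1, hu2, ?_, ?_⟩
    · have e1 : i = i' - 1 := by
        rcases hu1 with ⟨h, _⟩ | ⟨h, _⟩ <;> omega
      have e2 : j = j' - 1 := by
        rcases hu2 with ⟨h, _⟩ | ⟨h, _⟩ <;> omega
      rw [e1, e2]
    · have f1 : ∃ e, L.hs x e = (u, (L.A x).side i) := by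
        rcases hu1 with ⟨h, h'⟩ | ⟨h, h'⟩
        · refine ⟨false, ?_⟩
          have : i = 0 := by omega
          rw [this, ← h']; rfl
        · refine ⟨true, ?_⟩
          have : i = (L.A x).n := by omega
          rw [this, ← h']; rfl
      have f2 : ∃ e, L.hs y e = (u, (L.A y).side j) := by
        rcases hu2 with ⟨h, h'⟩ | ⟨h, h'⟩
        · refine ⟨false, ?_⟩
          have : j = 0 := by omega
          rw [this, ← h']; rfl
        · refine ⟨true, ?_⟩
          have : j = (L.A y).n := by omega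
          rw [this, ← h']; rfl
      obtain ⟨e, he⟩ := f1
      obtain ⟨f, hf⟩ := f2
      exact ⟨e, f, by rw [he, hf, hsd]⟩
  split_ifs with hS
  · rw [Finset.card_le_one]
    intro p hp q hq
    obtain ⟨i', j', u, a1, a2, rfl, -⟩ := key p hp
    obtain ⟨i'', j'', u', b1, b2, rfl, -⟩ := key q hq
    have hu := L.end_unique hxy a1 a2 b1 b2
    rw [a1.idx b1 hu, a2.idx b2 hu]
  · rw [Nat.le_zero, Finset.card_eq_zero, Finset.eq_empty_iff_forall_notMem]
    intro p hp
    obtain ⟨i', j', u, a1, a2, -, h⟩ := key p hp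
    exact hS h

open Classical in
/-- The crossings of the copies of two different paths. -/
lemma sum_four {ε : ℝ} (hg : Gap L.pts ε) {x y : κ} (hxy : x ≠ y) :
    ∑ s : Bool, ∑ t : Bool, (scpy (L.A x) ε s (L.σ (E.a x))).X (scpy (L.A y) ε t (L.σ (E.a y))) ≤
      4 * (L.A x).X (L.A y) + if L.Sh x y then 1 else 0 := by
  set R := (Finset.range ((L.A x).n + 1)) ×ˢ (Finset.range ((L.A y).n + 1)) with hR
  set P := scpy (L.A x) ε with hPdef
  set Q := scpy (L.A y) ε with hQdef
  let I : Bool → Bool → ℕ × ℕ → Prop := fun s t p =>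
    (L.A x).side p.1 = (L.A y).side p.2 ∧ Inter ((P s (L.σ (E.a x))).z p.1)
      ((P s (L.σ (E.a x))).z (p.1 + 1)) ((Q t (L.σ (E.a y))).z p.2) ((Q t (L.σ (E.a y))).z (p.2 + 1))
  let J : ℕ × ℕ → Prop := fun p =>
    (L.A x).side p.1 = (L.A y).side p.2 ∧ Inter ((L.A x).z p.1)
      ((L.A x).z (p.1 + 1)) ((L.A y).z p.2) ((L.A y).z (p.2 + 1))
  have hX : ∀ s t, (P s (L.σ (E.a x))).X (Q t (L.σ (E.a y))) = ∑ p ∈ R, if I s t p then 1 else 0 := by
    intro s t
    rw [← Finset.card_filter]
    rfl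
  have hX0 : (L.A x).X (L.A y) = ∑ p ∈ R, if J p then 1 else 0 := by
    rw [← Finset.card_filter]
    rfl
  have hpt : ∀ p ∈ R, ∑ s : Bool, ∑ t : Bool, (if I s t p then 1 else 0) ≤
      4 * (if J p then 1 else 0) +
        if ((L.A x).side p.1 = (L.A y).side p.2 ∧ L.Shr x y p) then 1 else 0 := by
    rintro ⟨i, j⟩ hp
    rw [hR, Finset.mem_product, Finset.mem_range, Finset.mem_range] at hp
    obtain ⟨hi, hj⟩ := hp
    simp only at hi hj
    by_cases hsd : (L.A x).side i = (L.A y).side j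
    · by_cases hS : L.Shr x y (i, j)
      · rw [if_pos (⟨hsd, hS⟩ : (L.A x).side (i, j).1 = (L.A y).side (i, j).2 ∧ L.Shr x y (i, j))]
        obtain ⟨i', j', h3, h4, h5⟩ := hS
        simp only at h3 h4
        obtain ⟨u, hu1, hu2⟩ := L.end_cases hxy (by omega) (by omega) h5
        obtain ⟨i'', c1, c2, c3⟩ := ends_swap h3
        obtain ⟨j'', d1, d2, d3⟩ := ends_swap' h4
        have hab : (L.A x).z i'' ≠ (L.A y).z j'' := by
          intro h
          obtain ⟨u', v1, v2⟩ := L.end_cases hxy (by omega) (by omega) h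
          exact c2 (v1.idx hu1 (L.end_unique hxy v1 v2 hu1 hu2))
        have hap : (L.A x).z i'' ≠ L.pos u := by
          intro h
          rw [← hu1.eq] at h
          exact c2 ((L.good x).inj _ (by omega) _ (by omega) h)
        have hbp : (L.A y).z j'' ≠ L.pos u := by
          intro h
          rw [← hu2.eq] at h
          exact d2 ((L.good y).inj _ (by omega) _ (by omega) h)
        have e1 : ∀ s, (P s (L.σ (E.a x))).z i' = L.pos u + (if s then sr (L.σ u) else 0) * ε := by
          intro s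
          show (L.A x).z i' + ds s (L.σ (E.a x)) i' * ε = _
          rw [hu1.eq]
          rcases hu1 with ⟨h, h'⟩ | ⟨h, h'⟩
          · rw [h, ds_zero, h']
          · rw [h, L.ds_last, h']
        have e2 : ∀ t, (Q t (L.σ (E.a y))).z j' = L.pos u + (if t then sr (L.σ u) else 0) * ε := by
          intro s
          show (L.A y).z j' + ds s (L.σ (E.a y)) j' * ε = _
          rw [hu2.eq]
          rcases hu2 with ⟨h, h'⟩ | ⟨h, h'⟩
          · rw [h, ds_zero, h']
          · rw [h, L.ds_last, h']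
        have hI : ∀ s t, I s t (i, j) → Inter (L.pos u + (if s then sr (L.σ u) else 0) * ε)
            ((P s (L.σ (E.a x))).z i'') (L.pos u + (if t then sr (L.σ u) else 0) * ε)
            ((Q t (L.σ (E.a y))).z j'') := by
          rintro s t ⟨_, h⟩
          simp only at h
          rw [c3, d3, e1, e2] at h
          exact h
        have n1 : ∀ s, ¬ I s s (i, j) := by
          intro s h
          exact not_inter_same (hI s s h)
        have n2 : ¬ (I false true (i, j) ∧ I true false (i, j)) := by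
          rintro ⟨h1, h2⟩
          have h1' := hI _ _ h1
          have h2' := hI _ _ h2
          simp only [if_true, if_false, Bool.false_eq_true] at h1' h2'
          exact hg.excl' (L.pos_mem u) (L.z_mem (by omega)) (L.z_mem (by omega)) hab hap hbp
            (sr_ne (L.σ u)).symm (by norm_num) (abs_sr _)
            (abs_ds false (L.σ (E.a x)) i'') (abs_ds true (L.σ (E.a x)) i'')
            (abs_ds true (L.σ (E.a y)) j'') (abs_ds false (L.σ (E.a y)) j'') h1' h2'
        simp only [Fintype.sum_bool]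
        rw [if_neg (n1 true), if_neg (n1 false)]
        by_cases h1 : I false true (i, j)
        · have h2 : ¬ I true false (i, j) := fun h => n2 ⟨h1, h⟩
          rw [if_pos h1, if_neg h2]
          omega
        · rw [if_neg h1]
          split_ifs <;> omega
      · rw [if_neg (fun h => hS h.2 :
          ¬ ((L.A x).side (i, j).1 = (L.A y).side (i, j).2 ∧ L.Shr x y (i, j)))]
        have hne : ∀ i' j', (i' = i ∨ i' = i + 1) → (j' = j ∨ j' = j + 1) →
            (L.A x).z i' ≠ (L.A y).z j' := fun i' j' h1 h2 h => hS ⟨i', j', h1, h2, h⟩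
        have hIJ : ∀ s t, I s t (i, j) ↔ J (i, j) := by
          intro s t
          have h := hg.inter_iff (L.z_mem (k := x) (i := i) (by omega))
            (L.z_mem (k := x) (i := i + 1) (by omega))
            (L.z_mem (k := y) (i := j) (by omega)) (L.z_mem (k := y) (i := j + 1) (by omega))
            (hne _ _ (Or.inl rfl) (Or.inl rfl)) (hne _ _ (Or.inl rfl) (Or.inr rfl))
            (hne _ _ (Or.inr rfl) (Or.inl rfl)) (hne _ _ (Or.inr rfl) (Or.inr rfl))
            (abs_ds s (L.σ (E.a x)) i) (abs_ds s (L.σ (E.a x)) (i + 1)) (abs_ds t (L.σ (E.a y)) j)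
            (abs_ds t (L.σ (E.a y)) (j + 1))
          exact and_congr_right fun _ => h
        simp only [hIJ, Fintype.sum_bool]
        split_ifs <;> omega
    · have hI0 : ∀ s t, ¬ I s t (i, j) := fun s t h => hsd h.1
      simp only [hI0, Fintype.sum_bool, if_false]
      omega
  calc ∑ s : Bool, ∑ t : Bool, (P s (L.σ (E.a x))).X (Q t (L.σ (E.a y)))
      = ∑ p ∈ R, ∑ s : Bool, ∑ t : Bool, (if I s t p then 1 else 0) := by
        simp only [hX]
        rw [Finset.sum_comm]
        simp only [Fintype.sum_bool, Finset.sum_add_distrib]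
        ring
    _ ≤ ∑ p ∈ R, (4 * (if J p then 1 else 0) +
        if ((L.A x).side p.1 = (L.A y).side p.2 ∧ L.Shr x y p) then 1 else 0) :=
        Finset.sum_le_sum hpt
    _ = 4 * (L.A x).X (L.A y) +
        (R.filter (fun p => (L.A x).side p.1 = (L.A y).side p.2 ∧ L.Shr x y p)).card := by
        rw [Finset.sum_add_distrib, ← Finset.mul_sum, ← hX0, Finset.card_filter]
    _ ≤ _ := Nat.add_le_add_left (L.card_shr hxy) _

end SLay

end Pool.Agent.Lib.MP_c258d4_co
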