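import Pool.Agent.Lib.MP_c258d4_co.SLay

/-!
# The recursion for balanced signed layouts
-/

set_option autoImplicit false

namespace Pool.Agent.Lib.MP_c258d4_co

open Pool.Agent.Lib.MP_266831_co Pool.Agent.Lib.MP_266831_co.Upper

variable {V κ : Type} {G : SimpleGraph V}

namespace SLay

variable {E : Ends V κ G} (L : SLay E)

open Classical in
/-- the number of edge ends at the vertex `v` on the side `d` -/
noncomputable def dg [Fintype κ] (v : V) (d : Bool) : ℕ :=
  ∑ k : κ, ∑ e : Bool, if L.hs k e = (v, d) then 1 else 0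

/-- every vertex has degree `n`, and the edge ends are distributed evenly -/
def Bal [Fintype κ] (n : ℕ) : Prop :=
  ∀ v, L.dg v true + L.dg v false = n ∧ ∀ d, 2 * L.dg v d ≤ n + 1

lemma hs_ne (k : κ) : L.hs k true ≠ L.hs k false := by
  intro h
  exact E.ne k (congrArg Prod.fst h).symm

open Classical in
/-- The number of ordered pairs of edges with a common end on the same side. -/
lemma sum_Sh [Fintype V] [Fintype κ] :
    ordSum (fun x y => if L.Sh x y then 1 else 0) + ∑ p : V × Bool, L.dg p.1 p.2 ≤
      ∑ p : V × Bool, L.dg p.1 p.2 ^ 2 := by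
  set h : κ → V × Bool → ℕ := fun x p => ∑ e : Bool, if L.hs x e = p then 1 else 0 with hh
  have hdg : ∀ p : V × Bool, L.dg p.1 p.2 = ∑ x, h x p := fun p => rfl
  have hle : ∀ x p, h x p * h x p = h x p := by
    intro x p
    have h1 := L.hs_ne x
    simp only [hh, Fintype.sum_bool]
    by_cases a : L.hs x true = p
    · have b : L.hs x false ≠ p := fun hb => h1 (a.trans hb.symm)
      simp [a, b]
    · simp only [a, if_false, zero_add]
      split_ifs <;> simp
  have hsq : ∀ p : V × Bool, L.dg p.1 p.2 ^ 2 =
      L.dg p.1 p.2 + ∑ x, ∑ y, if x = y then 0 else h x p * h y p := by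
    intro p
    rw [hdg, sq, Finset.sum_mul_sum]
    rw [← Finset.sum_add_distrib]
    refine Finset.sum_congr rfl fun x _ => ?_
    have : h x p = ∑ y, if x = y then h x p else 0 := by simp
    conv_rhs => rw [this]
    rw [← Finset.sum_add_distrib]
    refine Finset.sum_congr rfl fun y _ => ?_
    by_cases hxy : x = y
    · subst hxy
      simp [hle]
    · simp [hxy]
  have hpair : ∀ x y : κ, (if L.Sh x y then 1 else 0) ≤ ∑ p : V × Bool, h x p * h y p := by
    intro x y
    split_ifs with hS
    · obtain ⟨e, f, hef⟩ := hS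
      have h1 : ∀ (x : κ) (e : Bool), 1 ≤ h x (L.hs x e) := by
        intro x e
        calc 1 = (if L.hs x e = L.hs x e then 1 else 0) := by simp
          _ ≤ ∑ e' : Bool, (if L.hs x e' = L.hs x e then 1 else 0) :=
            Finset.single_le_sum (f := fun e' => if L.hs x e' = L.hs x e then 1 else 0)
            (fun _ _ => Nat.zero_le _) (Finset.mem_univ e)
      calc 1 = 1 * 1 := rfl
        _ ≤ h x (L.hs x e) * h y (L.hs x e) := by
          refine Nat.mul_le_mul (h1 x e) ?_
          rw [hef]
          exact h1 y f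
        _ ≤ ∑ p : V × Bool, h x p * h y p :=
            Finset.single_le_sum (f := fun p => h x p * h y p) (fun _ _ => Nat.zero_le _)
            (Finset.mem_univ _)
    · exact Nat.zero_le _
  have hsum : ordSum (fun x y => if L.Sh x y then 1 else 0) ≤
      ∑ p : V × Bool, ∑ x, ∑ y, if x = y then 0 else h x p * h y p := by
    have hc : ∑ p : V × Bool, ∑ x, ∑ y, (if x = y then 0 else h x p * h y p) =
        ∑ x, ∑ y, ∑ p : V × Bool, if x = y then 0 else h x p * h y p := by
      rw [Finset.sum_comm]
      exact Finset.sum_congr rfl fun x _ => Finset.sum_comm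
    rw [hc, ordSum]
    refine Finset.sum_le_sum fun x _ => Finset.sum_le_sum fun y _ => ?_
    by_cases hxy : x = y
    · simp [hxy]
    · simp only [hxy, if_false]
      exact hpair x y
  calc ordSum (fun x y => if L.Sh x y then 1 else 0) + ∑ p : V × Bool, L.dg p.1 p.2
      ≤ (∑ p : V × Bool, ∑ x, ∑ y, if x = y then 0 else h x p * h y p) +
        ∑ p : V × Bool, L.dg p.1 p.2 := Nat.add_le_add_right hsum _
    _ = ∑ p : V × Bool, L.dg p.1 p.2 ^ 2 := by
        rw [← Finset.sum_add_distrib]
        refine Finset.sum_congr rfl fun p _ => ?_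
        rw [hsq, Nat.add_comm]

/-- balanced numbers of edge ends -/
lemma sum_Sh_bal [Fintype V] [Fintype κ] {n : ℕ} (hB : L.Bal n) :
    ordSum (fun x y => open Classical in if L.Sh x y then 1 else 0) ≤
      Fintype.card V * (2 * ((n - 1) ^ 2 / 4)) := by
  classical
  have h1 := L.sum_Sh
  have h2 : ∑ p : V × Bool, L.dg p.1 p.2 = Fintype.card V * n := by
    rw [Fintype.sum_prod_type]
    simp only [Fintype.sum_bool, (hB _).1]
    simp
  have h3 : ∑ p : V × Bool, L.dg p.1 p.2 ^ 2 ≤ Fintype.card V * (2 * ((n - 1) ^ 2 / 4) + n) := by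
    rw [Fintype.sum_prod_type]
    simp only [Fintype.sum_bool]
    refine (Finset.sum_le_card_nsmul Finset.univ _ (2 * ((n - 1) ^ 2 / 4) + n) fun v _ => ?_).trans ?_
    · obtain ⟨a1, a2⟩ := hB v
      have a3 := a2 true
      have a4 := a2 false
      generalize L.dg v true = a at *
      generalize L.dg v false = b at *
      rcases Nat.even_or_odd' n with ⟨m, hm | hm⟩
      · have ha : a = m := by omega
        have hb : b = m := by omega
        subst ha hb
        rcases Nat.eq_zero_or_pos b with h0 | h0
        · subst h0; simp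
        · obtain ⟨c, rfl⟩ : ∃ c, b = c + 1 := ⟨b - 1, by omega⟩
          have : (n - 1) ^ 2 / 4 = c ^ 2 + c := by
            have e : n - 1 = 2 * c + 1 := by omega
            rw [e]
            have : (2 * c + 1) ^ 2 = 4 * (c ^ 2 + c) + 1 := by ring
            rw [this]
            omega
          rw [this, hm]
          nlinarith
      · have hab : (a = m ∧ b = m + 1) ∨ (a = m + 1 ∧ b = m) := by omega
        have : (n - 1) ^ 2 / 4 = m ^ 2 := by
          have e : n - 1 = 2 * m := by omega
          rw [e]
          have : (2 * m) ^ 2 = 4 * m ^ 2 := by ring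
          rw [this]
          omega
        rw [this, hm]
        rcases hab with ⟨rfl, rfl⟩ | ⟨rfl, rfl⟩ <;> nlinarith
    · simp
  rw [h2] at h1
  have h4 := h1.trans h3
  rw [mul_add] at h4
  have h5 := Nat.le_of_add_le_add_right h4
  convert h5

section

variable {ε : ℝ} (hg : Gap L.pts ε) (τ : V → Bool)

lemma hs_double_inl (k : κ) (s e : Bool) :
    (L.double hg τ).hs (Sum.inl (k, s)) e = (((L.hs k e).1, s), (L.hs k e).2) := by
  cases e <;> rfl

lemma hs_double_inr (w : V) (e : Bool) :
    (L.double hg τ).hs (Sum.inr w) e = ((w, e), τ w) := by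
  have h0 : ∀ (A : AxisPath), A.n = 0 → A.side A.n = A.up := by
    intro A hA
    rw [hA]
    unfold AxisPath.side
    simp
  have h1 : ∀ (A : AxisPath), A.side 0 = A.up := by
    intro A
    unfold AxisPath.side
    simp
  cases e
  · show (((w, false) : V × Bool), ((L.double hg τ).A (Sum.inr w)).side 0) = _
    rw [h1]; rfl
  · show (((w, true) : V × Bool), ((L.double hg τ).A (Sum.inr w)).side
      ((L.double hg τ).A (Sum.inr w)).n) = _
    rw [h0 _ rfl]; rfl

open Classical in
lemma dg_double [Fintype V] [Fintype κ] (v : V) (s d : Bool) :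
    (L.double hg τ).dg (v, s) d = L.dg v d + if τ v = d then 1 else 0 := by
  unfold dg
  rw [Fintype.sum_sum_type, Fintype.sum_prod_type]
  simp only [hs_double_inl, hs_double_inr]
  congr 1
  · refine Finset.sum_congr rfl fun k _ => ?_
    rw [Finset.sum_comm]
    refine Finset.sum_congr rfl fun e _ => ?_
    have : ∀ s' : Bool, (if ((((L.hs k e).1, s'), (L.hs k e).2) : (V × Bool) × Bool) = ((v, s), d)
        then 1 else 0) = if s' = s then (if L.hs k e = (v, d) then 1 else 0) else 0 := by
      intro s'
      simp only [Prod.ext_iff]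
      by_cases h1 : s' = s <;> simp [h1]
    rw [Finset.sum_congr rfl fun s' _ => this s', Finset.sum_ite_eq']
    simp
  · have : ∀ w : V, ∑ e : Bool, (if (((w, e), τ w) : (V × Bool) × Bool) = ((v, s), d) then 1 else 0) =
        if w = v then (if τ v = d then 1 else 0) else 0 := by
      intro w
      by_cases hw : w = v
      · subst hw
        simp only [Prod.mk.injEq, true_and, if_true]
        have : ∀ e : Bool, (if e = s ∧ τ w = d then 1 else 0) =
            if e = s then (if τ w = d then 1 else 0) else 0 := by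
          intro e
          by_cases h1 : e = s <;> simp [h1]
        rw [Finset.sum_congr rfl fun e _ => this e, Finset.sum_ite_eq']
        simp
      · simp [hw]
    rw [Finset.sum_congr rfl fun w _ => this w, Finset.sum_ite_eq']
    simp

/-- The doubled layout is balanced if the new edges are drawn on the emptier sides. -/
lemma bal_double [Fintype V] [Fintype κ] {n : ℕ} (hB : L.Bal n)
    (hτ : ∀ v, L.dg v (τ v) ≤ L.dg v (!(τ v))) : (L.double hg τ).Bal (n + 1) := by
  classical
  rintro ⟨v, s⟩
  obtain ⟨h1, h2⟩ := hB v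
  have h3 := hτ v
  refine ⟨?_, ?_⟩
  · rw [dg_double, dg_double]
    cases τ v <;> simp <;> omega
  · intro d
    rw [dg_double]
    have h4 := h2 d
    by_cases h : τ v = d
    · rw [if_pos h]
      rw [h] at h3
      cases d
      · simp only [Bool.not_false] at h3
        omega
      · simp only [Bool.not_true] at h3
        omega
    · rw [if_neg h]
      omega

include hg

open Classical in
/-- The sum of the crossings of the doubled layout. -/
lemma ordSum_double [Fintype V] [Fintype κ] :
    ordSum (fun x y => (L.dA τ ε x).X (L.dA τ ε y)) ≤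
      4 * ordSum (fun x y => (L.A x).X (L.A y)) +
        ordSum (fun x y => if L.Sh x y then 1 else 0) := by
  have hv1 : ∀ v w, (L.dA τ ε (Sum.inr v)).X (L.dA τ ε w) = 0 := fun v w => L.X_vert hg τ v w
  have hv2 : ∀ v w, (L.dA τ ε w).X (L.dA τ ε (Sum.inr v)) = 0 := fun v w => by
    rw [X_comm]; exact L.X_vert hg τ v w
  have h1 : ordSum (fun x y => (L.dA τ ε x).X (L.dA τ ε y)) =
      ∑ k : κ, ∑ s : Bool, ∑ l : κ, ∑ t : Bool,
        if k = l ∧ s = t then 0 else
          (scpy (L.A k) ε s (L.σ (E.a k))).X (scpy (L.A l) ε t (L.σ (E.a l))) := by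
    rw [ordSum]
    simp only [Fintype.sum_sum_type, hv1, hv2, Fintype.sum_prod_type, ite_self,
      Finset.sum_const_zero, add_zero, Sum.inl.injEq, Prod.mk.injEq]
    rfl
  have h2 : ∀ k l : κ, ∑ s : Bool, ∑ t : Bool,
      (if k = l ∧ s = t then 0 else
        (scpy (L.A k) ε s (L.σ (E.a k))).X (scpy (L.A l) ε t (L.σ (E.a l)))) ≤
      4 * (if k = l then 0 else (L.A k).X (L.A l)) +
        (if k = l then 0 else if L.Sh k l then 1 else 0) := by
    intro k l
    by_cases hkl : k = l
    · subst hkl
      simp only [true_and, if_true, mul_zero, zero_add, Fintype.sum_bool]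
      have a := L.X_self hg k true false (L.σ (E.a k)) (by simp)
      have b := L.X_self hg k false true (L.σ (E.a k)) (by simp)
      simp only [Bool.false_eq_true, Bool.true_eq_false, if_false]
      omega
    · simp only [hkl, false_and, if_false]
      exact L.sum_four hg hkl
  rw [h1]
  calc ∑ k : κ, ∑ s : Bool, ∑ l : κ, ∑ t : Bool,
        (if k = l ∧ s = t then 0 else
          (scpy (L.A k) ε s (L.σ (E.a k))).X (scpy (L.A l) ε t (L.σ (E.a l))))
      = ∑ k : κ, ∑ l : κ, ∑ s : Bool, ∑ t : Bool,
        (if k = l ∧ s = t then 0 else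
          (scpy (L.A k) ε s (L.σ (E.a k))).X (scpy (L.A l) ε t (L.σ (E.a l)))) := by
        refine Finset.sum_congr rfl fun k _ => ?_
        rw [Finset.sum_comm]
    _ ≤ ∑ k : κ, ∑ l : κ, (4 * (if k = l then 0 else (L.A k).X (L.A l)) +
        (if k = l then 0 else if L.Sh k l then 1 else 0)) :=
        Finset.sum_le_sum fun k _ => Finset.sum_le_sum fun l _ => h2 k l
    _ = _ := by
        simp only [Finset.sum_add_distrib, ← Finset.mul_sum]
        rw [ordSum, ordSum]

end

end SLay

/-- `G` has a balanced signed layout with degree `n` and at most `c` crossings. -/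
def HasLay (G : SimpleGraph V) (n c : ℕ) : Prop :=
  ∃ (κ : Type) (_ : Fintype κ) (E : Ends V κ G) (L : SLay E), L.Bal n ∧
    ordSum (fun x y => (L.A x).X (L.A y)) ≤ 2 * c

theorem HasLay.cr_le {n c : ℕ} (h : HasLay G n c) : cr G ≤ (c : ℕ∞) := by
  classical
  obtain ⟨κ, _, E, L, -, hc⟩ := h
  obtain ⟨ι, hι⟩ : ∃ ι : κ → ℕ, Function.Injective ι :=
    ⟨fun x => (Fintype.equivFin κ x : ℕ), fun x y h =>
      (Fintype.equivFin κ).injective (Fin.val_injective h)⟩
  refine (L.toLay.cr_le hι).trans (Nat.cast_le.2 ?_)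
  rw [ordSum_eq hι (fun x y => X_comm _ _)] at hc
  omega

/-- **Balanced doubling.** -/
theorem HasLay.dbl [Fintype V] {n c : ℕ} (h : HasLay G n c) :
    HasLay (dbl G) (n + 1) (4 * c + Fintype.card V * ((n - 1) ^ 2 / 4)) := by
  classical
  obtain ⟨κ, _, E, L, hB, hc⟩ := h
  obtain ⟨ε, hg⟩ := exists_gap L.pts_finite
  let τ : V → Bool := fun v => if L.dg v true ≤ L.dg v false then true else false
  have hτ : ∀ v, L.dg v (τ v) ≤ L.dg v (!(τ v)) := by
    intro v
    simp only [τ]
    split_ifs with h
    · simpa using h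
    · simp only [Bool.not_false]; omega
  refine ⟨(κ × Bool) ⊕ V, inferInstance, E.dbl, L.double hg τ, L.bal_double hg τ hB hτ, ?_⟩
  have h1 := L.ordSum_double hg τ
  have h2 := L.sum_Sh_bal hB
  have h3 : ordSum (fun x y => ((L.double hg τ).A x).X ((L.double hg τ).A y)) =
      ordSum (fun x y => (L.dA τ ε x).X (L.dA τ ε y)) := rfl
  rw [h3]
  have h4 : Fintype.card V * (2 * ((n - 1) ^ 2 / 4)) = 2 * (Fintype.card V * ((n - 1) ^ 2 / 4)) := by
    ring
  rw [h4] at h2
  omega

/-- Balanced signed layouts are invariant under isomorphisms. -/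
theorem HasLay.map {W : Type} {H : SimpleGraph W} {n c : ℕ} (hL : HasLay G n c) (φ : V ≃ W)
    (h : ∀ u v, G.Adj u v ↔ H.Adj (φ u) (φ v)) : HasLay H n c := by
  classical
  obtain ⟨κ, _, E, L, hB, hc⟩ := hL
  let L' : SLay (E.map φ h) :=
    { pos := fun w => L.pos (φ.symm w)
      pos_inj := fun u v huv => φ.symm.injective (L.pos_inj huv)
      A := L.A
      z_zero := fun k => by rw [L.z_zero]; simp [Ends.map]
      z_last := fun k => by rw [L.z_last]; simp [Ends.map]
      good := L.good
      z_ne := fun k i h1 h2 v => L.z_ne k i h1 h2 _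
      z_ne_z := L.z_ne_z
      σ := fun w => L.σ (φ.symm w)
      par := fun k => by
        have := L.par k
        simpa [Ends.map] using this }
  have hhs : ∀ k e, L'.hs k e = (φ (L.hs k e).1, (L.hs k e).2) := by
    intro k e
    cases e <;> rfl
  have hdg : ∀ w d, L'.dg w d = L.dg (φ.symm w) d := by
    intro w d
    unfold SLay.dg
    refine Finset.sum_congr rfl fun k _ => Finset.sum_congr rfl fun e _ => ?_
    rw [hhs]
    refine if_congr ?_ rfl rfl
    simp only [Prod.ext_iff]
    rw [Equiv.eq_symm_apply]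
  refine ⟨κ, inferInstance, E.map φ h, L', ?_, hc⟩
  intro w
  rw [hdg, hdg]
  refine ⟨(hB _).1, fun d => ?_⟩
  rw [hdg]
  exact (hB _).2 d

/-- **The recursion for the hypercubes.** -/
theorem HasLay.cube {n c : ℕ} (h : HasLay (hypercube n) n c) :
    HasLay (hypercube (n + 1)) (n + 1) (4 * c + 2 ^ n * ((n - 1) ^ 2 / 4)) := by
  have h1 := h.dbl
  have h2 : Fintype.card (Fin n → Bool) = 2 ^ n := by simp
  rw [h2] at h1
  exact h1.map (splitEquiv n) (split_adj n)

end Pool.Agent.Lib.MP_c258d4_co
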